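import Mathlib
import Pool.Agent.Helper112.LS
import Pool.Agent.N792.Lsc

/-!
# Exponential sums over an interval of integers: the large sieve, Parseval modulo `q`, and the projection on the
characters with small denominators
-/

set_option autoImplicit false

namespace Pool.Agent.K9h10.LR

open Finset
open Pool.Agent.Helper112

/-- the exponential sum over the interval `[s, s + h)` -/
noncomputable def ES (s : ℤ) (h : ℕ) (u : ℤ → ℂ) (t : ℝ) : ℂ :=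
  ∑ j ∈ range h, u (s + j) * ee (((s + j : ℤ) : ℝ) * t)

lemma sum_Icc_one_range (h : ℕ) {M : Type*} [AddCommMonoid M] (F : ℕ → M) :
    ∑ n ∈ Icc 1 h, F n = ∑ j ∈ range h, F (j + 1) := by
  induction h with
  | zero => simp
  | succ h ih => rw [sum_Icc_succ_top (by omega), ih, sum_range_succ]

lemma ES_shift (s : ℤ) (h : ℕ) (u : ℤ → ℂ) (t : ℝ) :
    ES s h u t = ee (((s - 1 : ℤ) : ℝ) * t) * ∑ n ∈ Icc 1 h, u (s - 1 + n) * ee (n * t) := by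
  rw [sum_Icc_one_range, mul_sum]
  unfold ES
  refine sum_congr rfl fun j _ => ?_
  have e1 : s - 1 + ((j + 1 : ℕ) : ℤ) = s + j := by push_cast; ring
  have e2 : ((s + j : ℤ) : ℝ) * t = ((s - 1 : ℤ) : ℝ) * t + ((j + 1 : ℕ) : ℝ) * t := by push_cast; ring
  rw [e1, e2, ls_ee_add]
  ring

lemma ES_norm (s : ℤ) (h : ℕ) (u : ℤ → ℂ) (t : ℝ) :
    ‖ES s h u t‖ = ‖∑ n ∈ Icc 1 h, u (s - 1 + n) * ee (n * t)‖ := by
  rw [ES_shift, norm_mul, ls_norm_ee, one_mul]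

/-- the large sieve -/
lemma ls_int {ι : Type*} [DecidableEq ι] (R : Finset ι) (ξ : ι → ℝ) (K : ℕ) (hK : 1 ≤ K)
    (hsep : ∀ r ∈ R, ∀ s ∈ R, r ≠ s → lsSep K (ξ s - ξ r)) (s : ℤ) (h : ℕ) (u : ℤ → ℂ) :
    ∑ r ∈ R, ‖ES s h u (ξ r)‖ ^ 2 ≤ 6 * ((h : ℝ) + K) * ∑ j ∈ range h, ‖u (s + j)‖ ^ 2 := by
  have h1 := ls_general R ξ K h hK hsep (fun n => u (s - 1 + n))
  have e1 : ∑ n ∈ Icc 1 h, ‖u (s - 1 + n)‖ ^ 2 = ∑ j ∈ range h, ‖u (s + j)‖ ^ 2 := by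
    rw [sum_Icc_one_range]
    refine sum_congr rfl fun j _ => ?_
    have : s - 1 + ((j + 1 : ℕ) : ℤ) = s + j := by push_cast; ring
    rw [this]
  rw [e1] at h1
  refine le_trans (le_of_eq ?_) h1
  exact sum_congr rfl fun r _ => by rw [ES_norm]

/-- the dual large sieve -/
lemma ls_int_dual {ι : Type*} [DecidableEq ι] (R : Finset ι) (ξ : ι → ℝ) (K : ℕ) (hK : 1 ≤ K)
    (hsep : ∀ r ∈ R, ∀ s ∈ R, r ≠ s → lsSep K (ξ s - ξ r)) (s : ℤ) (h : ℕ) (c : ι → ℂ) :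
    ∑ j ∈ range h, ‖∑ r ∈ R, c r * ee (-(((s + j : ℤ) : ℝ) * ξ r))‖ ^ 2 ≤
      6 * ((h : ℝ) + K) * ∑ r ∈ R, ‖c r‖ ^ 2 := by
  have h1 := ls_dual R ξ K h hK hsep (fun r => (starRingEnd ℂ) (c r * ee (-(((s - 1 : ℤ) : ℝ) * ξ r))))
  have e1 : ∑ r ∈ R, ‖(starRingEnd ℂ) (c r * ee (-(((s - 1 : ℤ) : ℝ) * ξ r)))‖ ^ 2 = ∑ r ∈ R, ‖c r‖ ^ 2 := by
    refine sum_congr rfl fun r _ => ?_
    rw [RCLike.norm_conj, norm_mul, ls_norm_ee, mul_one]
  rw [e1] at h1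
  refine le_trans (le_of_eq ?_) h1
  rw [sum_Icc_one_range]
  refine sum_congr rfl fun j _ => ?_
  congr 1
  rw [← RCLike.norm_conj, map_sum]
  congr 1
  refine sum_congr rfl fun r _ => ?_
  rw [map_mul, map_mul, ls_conj_ee, ls_conj_ee, mul_assoc, ← ls_ee_add]
  congr 2
  push_cast
  ring

/-- geometric sums -/
lemma geo_int (s : ℤ) (h K : ℕ) (hK : 1 ≤ K) (t : ℝ) (ht : lsSep K t) :
    ‖∑ j ∈ range h, ee (((s + j : ℤ) : ℝ) * t)‖ ≤ K := by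
  have hK0 : (0 : ℝ) < K := by exact_mod_cast hK
  have e1 : ∑ j ∈ range h, ee (((s + j : ℤ) : ℝ) * t) = ee ((s : ℝ) * t) * lsD h t := by
    unfold lsD
    rw [mul_sum]
    refine sum_congr rfl fun j _ => ?_
    rw [← ls_ee_add]
    congr 1
    push_cast
    ring
  rw [e1, norm_mul, ls_norm_ee, one_mul, ← lsD_fract]
  have hp : 0 < 1 / (K : ℝ) := by positivity
  have f0 : 0 < Int.fract t := by linarith [ht.1]
  have f1 : Int.fract t < 1 := Int.fract_lt_one _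
  have h2 := lsD_bound h (Int.fract t) f0 f1
  have h3 : 1 / Int.fract t ^ 2 ≤ (K : ℝ) ^ 2 := by
    rw [div_le_iff₀ (by positivity), ← mul_pow]
    have : 1 ≤ (K : ℝ) * Int.fract t := by
      have := ht.1
      rw [div_le_iff₀ hK0] at this
      linarith
    nlinarith
  have h4 : 1 / (1 - Int.fract t) ^ 2 ≤ (K : ℝ) ^ 2 := by
    have f2 : 0 < 1 - Int.fract t := by linarith
    rw [div_le_iff₀ (by positivity), ← mul_pow]
    have : 1 ≤ (K : ℝ) * (1 - Int.fract t) := by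
      have h5 : 1 / (K : ℝ) ≤ 1 - Int.fract t := by linarith [ht.2]
      rw [div_le_iff₀ hK0] at h5
      linarith
    nlinarith
  have h5 : ‖lsD h (Int.fract t)‖ ^ 2 ≤ (K : ℝ) ^ 2 := by nlinarith [sq_nonneg (K : ℝ)]
  exact le_of_sq_le_sq h5 hK0.le

/-- the reduced fractions with denominators at most `D` -/
def FR (D : ℕ) : Finset (Σ _ : ℕ, ℕ) := (Icc 1 D).sigma (fun f => (range f).filter (fun a => a.Coprime f))

/-- the value of the fraction -/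
noncomputable def fv (r : Σ _ : ℕ, ℕ) : ℝ := (r.2 : ℝ) / r.1

lemma FR_sep (D : ℕ) : ∀ r ∈ FR D, ∀ s ∈ FR D, r ≠ s → lsSep (D ^ 2) (fv s - fv r) := by
  rintro ⟨f, a⟩ hr ⟨f', a'⟩ hs hne
  simp only [FR, mem_sigma, mem_Icc, mem_filter, mem_range] at hr hs
  refine ls_sep_of_int D f f' hr.1.1 hs.1.1 hr.1.2 hs.1.2 a a' hr.2.1 hs.2.1 hr.2.2 hs.2.2 ?_
  rintro ⟨h1, h2⟩
  subst h1
  subst h2
  exact hne rfl

lemma FR_card (D : ℕ) : ((FR D).card : ℝ) ≤ (D : ℝ) ^ 2 := by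
  unfold FR
  rw [card_sigma]
  have h1 : ∑ f ∈ Icc 1 D, ((range f).filter (fun a => a.Coprime f)).card ≤ ∑ _f ∈ Icc 1 D, D := by
    refine sum_le_sum fun f hf => ?_
    rw [mem_Icc] at hf
    refine (card_filter_le _ _).trans ?_
    rw [card_range]
    exact hf.2
  rw [sum_const, Nat.card_Icc, smul_eq_mul, Nat.add_sub_cancel] at h1
  calc ((∑ f ∈ Icc 1 D, ((range f).filter (fun a => a.Coprime f)).card : ℕ) : ℝ) ≤ ((D * D : ℕ) : ℝ) := by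
        exact_mod_cast h1
    _ = (D : ℝ) ^ 2 := by push_cast; ring

/-- the projection of `u` on the characters with denominators at most `D`, on the interval `[s, s + h)` -/
noncomputable def mdl (s : ℤ) (h D : ℕ) (u : ℤ → ℂ) (x : ℤ) : ℂ :=
  (1 / (h : ℂ)) * ∑ r ∈ FR D, ES s h u (fv r) * ee (-((x : ℝ) * fv r))

lemma ES_le (s : ℤ) (h : ℕ) (u : ℤ → ℂ) (U : ℝ) (hu : ∀ j ∈ range h, ‖u (s + j)‖ ≤ U) (t : ℝ) :
    ‖ES s h u t‖ ≤ h * U := by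
  unfold ES
  refine (norm_sum_le _ _).trans ?_
  have : ∀ j ∈ range h, ‖u (s + j) * ee (((s + j : ℤ) : ℝ) * t)‖ ≤ U := by
    intro j hj
    rw [norm_mul, ls_norm_ee, mul_one]
    exact hu j hj
  refine (sum_le_card_nsmul _ _ _ this).trans ?_
  rw [card_range, nsmul_eq_mul]

lemma mdl_le (s : ℤ) (h D : ℕ) (hh : 1 ≤ h) (u : ℤ → ℂ) (U : ℝ) (hU : 0 ≤ U)
    (hu : ∀ j ∈ range h, ‖u (s + j)‖ ≤ U) (x : ℤ) : ‖mdl s h D u x‖ ≤ (D : ℝ) ^ 2 * U := by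
  have hh0 : (0 : ℝ) < h := by exact_mod_cast hh
  unfold mdl
  rw [norm_mul, norm_div, norm_one, Complex.norm_natCast]
  have h1 : ‖∑ r ∈ FR D, ES s h u (fv r) * ee (-((x : ℝ) * fv r))‖ ≤ (D : ℝ) ^ 2 * (h * U) := by
    refine (norm_sum_le _ _).trans ?_
    have : ∀ r ∈ FR D, ‖ES s h u (fv r) * ee (-((x : ℝ) * fv r))‖ ≤ h * U := by
      intro r _
      rw [norm_mul, ls_norm_ee, mul_one]
      exact ES_le s h u U hu _
    refine (sum_le_card_nsmul _ _ _ this).trans ?_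
    rw [nsmul_eq_mul]
    exact mul_le_mul_of_nonneg_right (FR_card D) (by positivity)
  calc 1 / (h : ℝ) * ‖∑ r ∈ FR D, ES s h u (fv r) * ee (-((x : ℝ) * fv r))‖
      ≤ 1 / (h : ℝ) * ((D : ℝ) ^ 2 * (h * U)) := by gcongr
    _ = (D : ℝ) ^ 2 * U := by field_simp

/-- the exponential sum of the difference is small at the fractions with small denominators -/
lemma ES_mdl (s : ℤ) (h D : ℕ) (hh : 1 ≤ h) (hD : 1 ≤ D) (u : ℤ → ℂ) (U : ℝ) (hU : 0 ≤ U)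
    (hu : ∀ j ∈ range h, ‖u (s + j)‖ ≤ U) (r0 : Σ _ : ℕ, ℕ) (hr0 : r0 ∈ FR D) :
    ‖ES s h (fun x => u x - mdl s h D u x) (fv r0)‖ ≤ (D : ℝ) ^ 4 * U := by
  classical
  have hh0 : (0 : ℝ) < h := by exact_mod_cast hh
  have hhC : (h : ℂ) ≠ 0 := by exact_mod_cast hh0.ne'
  have e1 : ES s h (fun x => u x - mdl s h D u x) (fv r0) =
      -((1 / (h : ℂ)) * ∑ r ∈ (FR D).erase r0, ES s h u (fv r) *
        ∑ j ∈ range h, ee (((s + j : ℤ) : ℝ) * (fv r0 - fv r))) := by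
    have e2 : ES s h (fun x => u x - mdl s h D u x) (fv r0) = ES s h u (fv r0) -
        ∑ j ∈ range h, mdl s h D u (s + j) * ee (((s + j : ℤ) : ℝ) * fv r0) := by
      unfold ES
      rw [← sum_sub_distrib]
      exact sum_congr rfl fun j _ => by ring
    have e3 : ∑ j ∈ range h, mdl s h D u (s + j) * ee (((s + j : ℤ) : ℝ) * fv r0) =
        (1 / (h : ℂ)) * ∑ r ∈ FR D, ES s h u (fv r) *
          ∑ j ∈ range h, ee (((s + j : ℤ) : ℝ) * (fv r0 - fv r)) := by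
      have e4 : ∀ j ∈ range h, mdl s h D u (s + j) * ee (((s + j : ℤ) : ℝ) * fv r0) =
          ∑ r ∈ FR D, (1 / (h : ℂ)) * (ES s h u (fv r) * ee (((s + j : ℤ) : ℝ) * (fv r0 - fv r))) := by
        intro j _
        unfold mdl
        rw [mul_assoc, sum_mul, mul_sum]
        refine sum_congr rfl fun r _ => ?_
        have : ((s + j : ℤ) : ℝ) * (fv r0 - fv r) = -(((s + j : ℤ) : ℝ) * fv r) + ((s + j : ℤ) : ℝ) * fv r0 := by
          ring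
        rw [this, ls_ee_add]
        ring
      rw [sum_congr rfl e4, sum_comm, mul_sum]
      refine sum_congr rfl fun r _ => ?_
      rw [← mul_sum, ← mul_sum]
    rw [e2, e3, ← add_sum_erase _ _ hr0]
    have e5 : ∑ j ∈ range h, ee (((s + j : ℤ) : ℝ) * (fv r0 - fv r0)) = h := by
      have : ∀ j ∈ range h, ee (((s + j : ℤ) : ℝ) * (fv r0 - fv r0)) = 1 := by
        intro j _
        rw [sub_self, mul_zero, ls_ee_zero]
      rw [sum_congr rfl this]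
      simp
    rw [e5]
    field_simp
    ring
  rw [e1, norm_neg, norm_mul, norm_div, norm_one, Complex.norm_natCast]
  have h1 : ‖∑ r ∈ (FR D).erase r0, ES s h u (fv r) *
      ∑ j ∈ range h, ee (((s + j : ℤ) : ℝ) * (fv r0 - fv r))‖ ≤ (D : ℝ) ^ 2 * ((h * U) * (D : ℝ) ^ 2) := by
    refine (norm_sum_le _ _).trans ?_
    have : ∀ r ∈ (FR D).erase r0, ‖ES s h u (fv r) *
        ∑ j ∈ range h, ee (((s + j : ℤ) : ℝ) * (fv r0 - fv r))‖ ≤ (h * U) * (D : ℝ) ^ 2 := by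
      intro r hr
      rw [mem_erase] at hr
      rw [norm_mul]
      have h2 := geo_int s h (D ^ 2) (Nat.one_le_pow _ _ hD) _ (FR_sep D r hr.2 r0 hr0 hr.1)
      push_cast at h2
      exact mul_le_mul (ES_le s h u U hu _) (by exact_mod_cast h2) (norm_nonneg _) (by positivity)
    refine (sum_le_card_nsmul _ _ _ this).trans ?_
    rw [nsmul_eq_mul]
    refine mul_le_mul_of_nonneg_right ?_ (by positivity)
    refine le_trans ?_ (FR_card D)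
    exact_mod_cast card_erase_le
  calc 1 / (h : ℝ) * _ ≤ 1 / (h : ℝ) * ((D : ℝ) ^ 2 * ((h * U) * (D : ℝ) ^ 2)) := by gcongr
    _ = (D : ℝ) ^ 4 * U := by field_simp

/-- the mean square of the projection -/
lemma mdl_sq (s : ℤ) (h D : ℕ) (hh : 1 ≤ h) (hD : 1 ≤ D) (hDh : (D : ℝ) ^ 2 ≤ h) (u : ℤ → ℂ) :
    ∑ j ∈ range h, ‖mdl s h D u (s + j)‖ ^ 2 ≤ 144 * ∑ j ∈ range h, ‖u (s + j)‖ ^ 2 := by
  classical
  have hh0 : (0 : ℝ) < h := by exact_mod_cast hh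
  have hD2 : 1 ≤ D ^ 2 := Nat.one_le_pow _ _ hD
  obtain ⟨V, hV⟩ : ∃ V, V = ∑ j ∈ range h, ‖u (s + j)‖ ^ 2 := ⟨_, rfl⟩
  have hV0 : 0 ≤ V := by rw [hV]; positivity
  have h1 := ls_int (FR D) fv (D ^ 2) hD2 (FR_sep D) s h u
  have h2 := ls_int_dual (FR D) fv (D ^ 2) hD2 (FR_sep D) s h (fun r => ES s h u (fv r))
  push_cast at h1 h2
  rw [← hV] at h1 ⊢
  have e1 : ∀ j ∈ range h, ‖mdl s h D u (s + j)‖ ^ 2 = (1 / (h : ℝ) ^ 2) *
      ‖∑ r ∈ FR D, ES s h u (fv r) * ee (-(((s + j : ℤ) : ℝ) * fv r))‖ ^ 2 := by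
    intro j _
    unfold mdl
    rw [norm_mul, norm_div, norm_one, Complex.norm_natCast, mul_pow, div_pow, one_pow]
  rw [sum_congr rfl e1, ← mul_sum]
  have h3 : ∑ j ∈ range h, ‖∑ r ∈ FR D, ES s h u (fv r) * ee (-(((s + j : ℤ) : ℝ) * fv r))‖ ^ 2 ≤
      (12 * h) * ((12 * h) * V) := by
    have h4 : ∑ r ∈ FR D, ‖ES s h u (fv r)‖ ^ 2 ≤ (12 * h) * V := by
      refine h1.trans ?_
      apply mul_le_mul_of_nonneg_right _ hV0
      linarith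
    have h5 : 6 * ((h : ℝ) + (D : ℝ) ^ 2) ≤ 12 * h := by linarith
    calc _ ≤ 6 * ((h : ℝ) + (D : ℝ) ^ 2) * ∑ r ∈ FR D, ‖ES s h u (fv r)‖ ^ 2 := by
          push_cast at h2 ⊢
          exact h2
      _ ≤ (12 * h) * ((12 * h) * V) :=
          mul_le_mul h5 h4 (by positivity) (by positivity)
  calc 1 / (h : ℝ) ^ 2 * _ ≤ 1 / (h : ℝ) ^ 2 * ((12 * h) * ((12 * h) * V)) := by gcongr
    _ = 144 * V := by
        field_simp
        ring

lemma diff_sq (s : ℤ) (h D : ℕ) (hh : 1 ≤ h) (hD : 1 ≤ D) (hDh : (D : ℝ) ^ 2 ≤ h) (u : ℤ → ℂ) (U : ℝ) (hU : 0 ≤ U)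
    (hu : ∀ j ∈ range h, ‖u (s + j)‖ ≤ U) :
    ∑ j ∈ range h, ‖u (s + j) - mdl s h D u (s + j)‖ ^ 2 ≤ 290 * (h * U ^ 2) := by
  have h1 := mdl_sq s h D hh hD hDh u
  have h2 : ∑ j ∈ range h, ‖u (s + j)‖ ^ 2 ≤ h * U ^ 2 := by
    have : ∀ j ∈ range h, ‖u (s + j)‖ ^ 2 ≤ U ^ 2 := fun j hj => pow_le_pow_left₀ (norm_nonneg _) (hu j hj) 2
    refine (sum_le_card_nsmul _ _ _ this).trans ?_
    rw [card_range, nsmul_eq_mul]
  have h3 : ∀ j ∈ range h, ‖u (s + j) - mdl s h D u (s + j)‖ ^ 2 ≤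
      2 * ‖u (s + j)‖ ^ 2 + 2 * ‖mdl s h D u (s + j)‖ ^ 2 := by
    intro j _
    have h4 := norm_sub_le (u (s + j)) (mdl s h D u (s + j))
    have h5 : ‖u (s + j) - mdl s h D u (s + j)‖ ^ 2 ≤ (‖u (s + j)‖ + ‖mdl s h D u (s + j)‖) ^ 2 :=
      pow_le_pow_left₀ (norm_nonneg _) h4 2
    nlinarith [sq_nonneg (‖u (s + j)‖ - ‖mdl s h D u (s + j)‖)]
  refine (sum_le_sum h3).trans ?_
  rw [sum_add_distrib, ← mul_sum, ← mul_sum]
  linarith

end Pool.Agent.K9h10.LR
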