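import Mathlib

/-!
# The dispersion method for the values `a n² + b n + c`, `N < n ≤ N'`, `|c| ≤ X`: combinatorics
-/

set_option autoImplicit false

namespace Pool.Agent.K9h10.LR

open Finset

/-- the polynomial without its constant term -/
def gq (a b n : ℤ) : ℤ := a * n ^ 2 + b * n

lemma gq_gap {a b : ℤ} (ha : 0 < a) (hb : 0 ≤ b) {N n m : ℤ} (_hN : 0 ≤ N) (hn : N ≤ n) (h : n ≤ m) :
    (m - n) * (2 * a * N) ≤ gq a b m - gq a b n := by
  unfold gq
  have e : a * m ^ 2 + b * m - (a * n ^ 2 + b * n) = (m - n) * (a * (m + n) + b) := by ring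
  rw [e]
  apply mul_le_mul_of_nonneg_left _ (by linarith)
  nlinarith

lemma gq_mono {a b : ℤ} (ha : 0 < a) (hb : 0 ≤ b) {n m : ℤ} (hn : 0 ≤ n) (h : n ≤ m) : gq a b n ≤ gq a b m := by
  have := gq_gap ha hb (N := 0) le_rfl hn h
  simp only [mul_zero] at this
  linarith

/-- a finite set of integers of diameter at most `t` -/
lemma card_le_diam (S : Finset ℤ) (t : ℝ) (ht : 0 ≤ t) (h : ∀ x ∈ S, ∀ y ∈ S, ((y - x : ℤ) : ℝ) ≤ t) :
    (S.card : ℝ) ≤ t + 1 := by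
  rcases S.eq_empty_or_nonempty with h0 | h0
  · subst h0
    simp
    linarith
  have h1 : S ⊆ Icc (S.min' h0) (S.max' h0) := by
    intro x hx
    rw [mem_Icc]
    exact ⟨S.min'_le x hx, S.le_max' x hx⟩
  have h2 := card_le_card h1
  rw [Int.card_Icc] at h2
  have h3 := h _ (S.min'_mem h0) _ (S.max'_mem h0)
  have h4 : S.min' h0 ≤ S.max' h0 := S.min'_le_max' h0
  have h5 : ((S.card : ℤ) : ℝ) ≤ ((S.max' h0 + 1 - S.min' h0 : ℤ) : ℝ) := by
    have : (S.card : ℤ) ≤ S.max' h0 + 1 - S.min' h0 := by omega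
    exact_mod_cast this
  push_cast at h5 h3
  linarith

lemma cell_iff {h : ℤ} (hh : 0 < h) (x k : ℤ) : x / h = k ↔ k * h ≤ x ∧ x < k * h + h := by
  constructor
  · rintro rfl
    refine ⟨Int.ediv_mul_le x hh.ne', ?_⟩
    have := Int.lt_ediv_add_one_mul_self x hh
    linarith
  · rintro ⟨h1, h2⟩
    have h3 : k ≤ x / h := (Int.le_ediv_iff_mul_le hh).2 h1
    have h4 : x / h < k + 1 := (Int.ediv_lt_iff_lt_mul hh).2 (by linarith)
    omega

lemma cell_lt {h : ℤ} (hh : 0 < h) {x y : ℤ} (hxy : x / h < y / h) : x < y := by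
  by_contra hcon
  push Not at hcon
  have := Int.ediv_le_ediv hh hcon
  omega

/-- the arguments -/
noncomputable def Wn (a b X N N' l m : ℤ) : Finset ℤ := (Ioc N (N' - l)).filter (fun n => |m - gq a b n| ≤ X)

/-- the second value -/
def xx (a b l m n : ℤ) : ℤ := m + (gq a b (n + l) - gq a b n)

lemma xx_eq (a b l m n : ℤ) : xx a b l m n = m + (a * l ^ 2 + b * l) + (2 * a * l) * n := by
  unfold xx gq
  ring

lemma Wn_conv {a b X N N' l m n1 n2 n : ℤ} (ha : 0 < a) (hb : 0 ≤ b) (hN : 0 ≤ N) (h1 : n1 ∈ Wn a b X N N' l m)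
    (h2 : n2 ∈ Wn a b X N N' l m) (h3 : n1 ≤ n) (h4 : n ≤ n2) : n ∈ Wn a b X N N' l m := by
  unfold Wn at *
  rw [mem_filter, mem_Ioc, abs_le] at *
  obtain ⟨⟨p1, p2⟩, p3, p4⟩ := h1
  obtain ⟨⟨q1, q2⟩, q3, q4⟩ := h2
  have r1 := gq_mono ha hb (by omega : 0 ≤ n1) h3
  have r2 := gq_mono ha hb (by omega : 0 ≤ n) h4
  exact ⟨⟨by omega, by omega⟩, by linarith, by linarith⟩

lemma Wn_diam {a b X N N' l m n1 n2 : ℤ} (ha : 0 < a) (hb : 0 ≤ b) (hN : 0 < N) (h1 : n1 ∈ Wn a b X N N' l m)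
    (h2 : n2 ∈ Wn a b X N N' l m) : (n2 - n1) * (a * N) ≤ X := by
  have hX : 0 ≤ X := by
    unfold Wn at h1
    rw [mem_filter] at h1
    exact (abs_nonneg _).trans h1.2
  rcases le_total n2 n1 with h | h
  · have : (n2 - n1) * (a * N) ≤ 0 := mul_nonpos_of_nonpos_of_nonneg (by linarith) (by positivity)
    linarith
  unfold Wn at *
  rw [mem_filter, mem_Ioc, abs_le] at *
  obtain ⟨⟨p1, p2⟩, p3, p4⟩ := h1
  obtain ⟨⟨q1, q2⟩, q3, q4⟩ := h2
  have := gq_gap ha hb hN.le p1.le h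
  nlinarith

/-- the sum over the class `r` modulo `q` in the cell `k` -/
noncomputable def cl (E : ℤ → ℂ) (h q k r : ℤ) : ℂ :=
  ∑ x ∈ (Ico (k * h) (k * h + h)).filter (fun x => q ∣ x - r), E x

lemma cl_congr (E : ℤ → ℂ) (h q k : ℤ) {r r' : ℤ} (hr : q ∣ r - r') : cl E h q k r = cl E h q k r' := by
  unfold cl
  congr 1
  apply filter_congr
  intro x _
  constructor
  · intro h1
    have := dvd_add h1 hr
    have e : x - r + (r - r') = x - r' := by ring
    rwa [e] at this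
  · intro h1
    have := dvd_sub h1 hr
    have e : x - r' - (r - r') = x - r := by ring
    rwa [e] at this

/-- interior cells -/
def Pint (a b X N N' l h m k : ℤ) : Prop :=
  ∃ n1 ∈ Wn a b X N N' l m, ∃ n2 ∈ Wn a b X N N' l m, xx a b l m n1 / h < k ∧ k < xx a b l m n2 / h

lemma Pint_surj {a b X N N' l h m k : ℤ} (ha : 0 < a) (hb : 0 ≤ b) (hN : 0 ≤ N) (hl : 0 < l) (hh : 0 < h)
    (hP : Pint a b X N N' l h m k) {x : ℤ} (hx : x / h = k) (hq : 2 * a * l ∣ x - (m + (a * l ^ 2 + b * l))) :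
    ∃ n ∈ Wn a b X N N' l m, xx a b l m n = x := by
  obtain ⟨n, hn⟩ := hq
  have e : xx a b l m n = x := by
    rw [xx_eq]
    linarith
  refine ⟨n, ?_, e⟩
  obtain ⟨n1, h1, n2, h2, h3, h4⟩ := hP
  rw [← hx, ← e] at h3 h4
  have h5 := cell_lt hh h3
  have h6 := cell_lt hh h4
  rw [xx_eq, xx_eq] at h5 h6
  have hq0 : 0 < 2 * a * l := by positivity
  have h7 : n1 < n := by
    by_contra hcon
    push Not at hcon
    nlinarith
  have h8 : n < n2 := by
    by_contra hcon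
    push Not at hcon
    nlinarith
  exact Wn_conv ha hb hN h1 h2 h7.le h8.le

lemma Pint_sum {a b X N N' l h m k : ℤ} (ha : 0 < a) (hb : 0 ≤ b) (hN : 0 ≤ N) (hl : 0 < l) (hh : 0 < h)
    (E : ℤ → ℂ) (hP : Pint a b X N N' l h m k) :
    ∑ n ∈ (Wn a b X N N' l m).filter (fun n => xx a b l m n / h = k), E (xx a b l m n) =
      cl E h (2 * a * l) k (m + (a * l ^ 2 + b * l)) := by
  unfold cl
  have hq0 : 0 < 2 * a * l := by positivity
  refine sum_nbij (fun n => xx a b l m n) ?_ ?_ ?_ ?_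
  · intro n hn
    rw [mem_filter] at hn
    rw [mem_filter, mem_Ico]
    refine ⟨(cell_iff hh _ _).1 hn.2, ⟨n, ?_⟩⟩
    rw [xx_eq]
    ring
  · intro n _ n' _ hnn
    simp only at hnn
    rw [xx_eq, xx_eq] at hnn
    have : 2 * a * l * n = 2 * a * l * n' := by linarith
    exact mul_left_cancel₀ hq0.ne' this
  · intro x hx
    rw [mem_coe, mem_filter, mem_Ico] at hx
    have hxk : x / h = k := (cell_iff hh _ _).2 hx.1
    obtain ⟨n, hn, e⟩ := Pint_surj ha hb hN hl hh hP hxk hx.2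
    refine ⟨n, ?_, e⟩
    rw [mem_coe, mem_filter]
    exact ⟨hn, by rw [e]; exact hxk⟩
  · intro n _
    rfl

/-- one cell -/
lemma cell_card {a b X N N' l h m k : ℤ} (ha : 0 < a) (hl : 0 < l) (hh : 0 < h) :
    ((((Wn a b X N N' l m).filter (fun n => xx a b l m n / h = k)).card : ℕ) : ℝ) ≤ (h : ℝ) / (2 * a * l) + 1 := by
  have ha' : (0 : ℝ) < a := by exact_mod_cast ha
  have hl' : (0 : ℝ) < l := by exact_mod_cast hl
  have hh' : (0 : ℝ) < h := by exact_mod_cast hh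
  apply card_le_diam _ _ (by positivity)
  intro x hx y hy
  rw [mem_filter] at hx hy
  have h1 := (cell_iff hh _ _).1 hx.2
  have h2 := (cell_iff hh _ _).1 hy.2
  rw [xx_eq] at h1 h2
  rw [le_div_iff₀ (by positivity)]
  have : (y - x) * (2 * a * l) ≤ h := by linarith
  exact_mod_cast this

/-- the bound for one sum -/
lemma T_bound {a b X N N' l h m : ℤ} (ha : 0 < a) (hb : 0 ≤ b) (hN : 0 < N) (hl : 0 < l) (hlN : l ≤ N) (hh : 0 < h)
    (E : ℤ → ℂ) (e0 κ : ℝ) (he0 : 0 ≤ e0) (hE : ∀ n ∈ Wn a b X N N' l m, ‖E (xx a b l m n)‖ ≤ e0)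
    (hκ : 2 * (X : ℝ) / h ≤ κ) (hX : 0 ≤ X) (KK : Finset ℤ) [DecidablePred (Pint a b X N N' l h m)]
    (hKK : ∀ k, Pint a b X N N' l h m k → k ∈ KK) :
    ‖∑ n ∈ Wn a b X N N' l m, E (xx a b l m n)‖ ^ 2 ≤
      2 * κ * ∑ k ∈ KK.filter (Pint a b X N N' l h m), ‖cl E h (2 * a * l) k (m + (a * l ^ 2 + b * l))‖ ^ 2 +
        8 * (((h : ℝ) / (2 * a * l) + 1) * e0) ^ 2 := by
  have ha' : (0 : ℝ) < a := by exact_mod_cast ha
  have hl' : (0 : ℝ) < l := by exact_mod_cast hl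
  have hh' : (0 : ℝ) < h := by exact_mod_cast hh
  have hX' : (0 : ℝ) ≤ X := by exact_mod_cast hX
  have hκ0 : 0 ≤ κ := le_trans (by positivity) hκ
  obtain ⟨B, hB⟩ : ∃ B, B = ((h : ℝ) / (2 * a * l) + 1) * e0 := ⟨_, rfl⟩
  have hB0 : 0 ≤ B := by rw [hB]; positivity
  rw [← hB]
  obtain ⟨Sg, hSg⟩ : ∃ Sg, Sg = ∑ k ∈ KK.filter (Pint a b X N N' l h m),
    ‖cl E h (2 * a * l) k (m + (a * l ^ 2 + b * l))‖ ^ 2 := ⟨_, rfl⟩
  have hSg0 : 0 ≤ Sg := by rw [hSg]; positivity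
  rw [← hSg]
  rcases (Wn a b X N N' l m).eq_empty_or_nonempty with h0 | h0
  · rw [h0, sum_empty, norm_zero]
    have : 0 ≤ 2 * κ * Sg + 8 * B ^ 2 := by positivity
    simpa using this
  obtain ⟨n1, hn1⟩ : ∃ n1, n1 = (Wn a b X N N' l m).min' h0 := ⟨_, rfl⟩
  obtain ⟨n2, hn2⟩ : ∃ n2, n2 = (Wn a b X N N' l m).max' h0 := ⟨_, rfl⟩
  have m1 : n1 ∈ Wn a b X N N' l m := by rw [hn1]; exact min'_mem _ _
  have m2 : n2 ∈ Wn a b X N N' l m := by rw [hn2]; exact max'_mem _ _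
  have l1 : ∀ n ∈ Wn a b X N N' l m, n1 ≤ n := fun n hn => by rw [hn1]; exact min'_le _ _ hn
  have l2 : ∀ n ∈ Wn a b X N N' l m, n ≤ n2 := fun n hn => by rw [hn2]; exact le_max' _ _ hn
  have hq0 : 0 < 2 * a * l := by positivity
  have xmono : ∀ n n' : ℤ, n ≤ n' → xx a b l m n / h ≤ xx a b l m n' / h := by
    intro n n' hnn
    apply Int.ediv_le_ediv hh
    rw [xx_eq, xx_eq]
    nlinarith
  obtain ⟨k1, hk1⟩ : ∃ k1, k1 = xx a b l m n1 / h := ⟨_, rfl⟩
  obtain ⟨k2, hk2⟩ : ∃ k2, k2 = xx a b l m n2 / h := ⟨_, rfl⟩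
  have hk12 : k1 ≤ k2 := by rw [hk1, hk2]; exact xmono _ _ (l1 _ m2)
  have hmap : ∀ n ∈ Wn a b X N N' l m, xx a b l m n / h ∈ Icc k1 k2 := by
    intro n hn
    rw [mem_Icc, hk1, hk2]
    exact ⟨xmono _ _ (l1 n hn), xmono _ _ (l2 n hn)⟩
  obtain ⟨tk, htk⟩ : ∃ tk : ℤ → ℂ, tk = fun k => ∑ n ∈ (Wn a b X N N' l m).filter (fun n => xx a b l m n / h = k),
    E (xx a b l m n) := ⟨_, rfl⟩
  have hT : ∑ n ∈ Wn a b X N N' l m, E (xx a b l m n) = ∑ k ∈ Icc k1 k2, tk k := by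
    rw [htk]
    exact (sum_fiberwise_of_maps_to hmap _).symm
  have htB : ∀ k, ‖tk k‖ ≤ B := by
    intro k
    rw [htk]
    refine (norm_sum_le _ _).trans ?_
    have : ∀ n ∈ (Wn a b X N N' l m).filter (fun n => xx a b l m n / h = k), ‖E (xx a b l m n)‖ ≤ e0 := by
      intro n hn
      rw [mem_filter] at hn
      exact hE n hn.1
    refine (sum_le_card_nsmul _ _ _ this).trans ?_
    rw [nsmul_eq_mul, hB]
    exact mul_le_mul_of_nonneg_right (cell_card ha hl hh) he0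
  have hP : ∀ k ∈ Ioo k1 k2, Pint a b X N N' l h m k := by
    intro k hk
    rw [mem_Ioo, hk1, hk2] at hk
    exact ⟨n1, m1, n2, m2, hk.1, hk.2⟩
  have hsub : Ioo k1 k2 ⊆ KK.filter (Pint a b X N N' l h m) := by
    intro k hk
    rw [mem_filter]
    exact ⟨hKK k (hP k hk), hP k hk⟩
  have hcard : ((Ioo k1 k2).card : ℝ) ≤ κ := by
    rw [Int.card_Ioo]
    rcases le_or_gt (k2 - k1 - 1) 0 with h1 | h1
    · have : (k2 - k1 - 1).toNat = 0 := Int.toNat_of_nonpos h1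
      rw [this]
      simpa using hκ0
    · have e1 : (((k2 - k1 - 1).toNat : ℕ) : ℝ) = ((k2 - k1 - 1 : ℤ) : ℝ) := by
        have : (((k2 - k1 - 1).toNat : ℕ) : ℤ) = k2 - k1 - 1 := Int.toNat_of_nonneg h1.le
        exact_mod_cast congrArg (fun z : ℤ => (z : ℝ)) this
      rw [e1]
      refine le_trans ?_ hκ
      rw [le_div_iff₀ hh']
      have c1 := (cell_iff hh _ _).1 hk1.symm
      have c2 := (cell_iff hh _ _).1 hk2.symm
      have c3 : (k2 - k1 - 1) * h ≤ xx a b l m n2 - xx a b l m n1 := by linarith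
      rw [xx_eq, xx_eq] at c3
      have c4 := Wn_diam ha hb hN m1 m2
      have c5 : 0 ≤ n2 - n1 := by linarith [l1 _ m2]
      have c6 : (n2 - n1) * (2 * a * l) ≤ 2 * X := by
        have : (n2 - n1) * (a * l) ≤ (n2 - n1) * (a * N) :=
          mul_le_mul_of_nonneg_left (mul_le_mul_of_nonneg_left hlN ha.le) c5
        nlinarith
      have c7 : (k2 - k1 - 1) * h ≤ 2 * X := by linarith
      exact_mod_cast c7
  have hint : ‖∑ k ∈ Ioo k1 k2, tk k‖ ^ 2 ≤ κ * Sg := by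
    have e1 : ∑ k ∈ Ioo k1 k2, tk k = ∑ k ∈ Ioo k1 k2, cl E h (2 * a * l) k (m + (a * l ^ 2 + b * l)) := by
      refine sum_congr rfl fun k hk => ?_
      rw [htk]
      exact Pint_sum ha hb hN.le hl hh E (hP k hk)
    rw [e1]
    have h2 : ‖∑ k ∈ Ioo k1 k2, cl E h (2 * a * l) k (m + (a * l ^ 2 + b * l))‖ ^ 2 ≤
        (∑ k ∈ Ioo k1 k2, ‖cl E h (2 * a * l) k (m + (a * l ^ 2 + b * l))‖) ^ 2 :=
      pow_le_pow_left₀ (norm_nonneg _) (norm_sum_le _ _) 2
    refine h2.trans (sq_sum_le_card_mul_sum_sq.trans ?_)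
    apply mul_le_mul hcard _ (by positivity) hκ0
    rw [hSg]
    exact sum_le_sum_of_subset_of_nonneg hsub (fun _ _ _ => by positivity)
  have hfin : ‖∑ n ∈ Wn a b X N N' l m, E (xx a b l m n)‖ ≤ 2 * B + ‖∑ k ∈ Ioo k1 k2, tk k‖ := by
    rw [hT]
    rcases hk12.eq_or_lt with h1 | h1
    · rw [← h1, Icc_self, sum_singleton]
      have := htB k1
      have := norm_nonneg (∑ k ∈ Ioo k1 k1, tk k)
      linarith
    · have e1 : Icc k1 k2 = insert k1 (insert k2 (Ioo k1 k2)) := by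
        ext k
        simp only [mem_Icc, mem_insert, mem_Ioo]
        omega
      have e2 : k1 ∉ insert k2 (Ioo k1 k2) := by
        simp only [mem_insert, mem_Ioo]
        omega
      have e3 : k2 ∉ Ioo k1 k2 := by
        simp only [mem_Ioo]
        omega
      rw [e1, sum_insert e2, sum_insert e3]
      refine (norm_add_le _ _).trans ?_
      have := norm_add_le (tk k2) (∑ k ∈ Ioo k1 k2, tk k)
      have := htB k1
      have := htB k2
      linarith
  obtain ⟨z, hz⟩ : ∃ z, z = ‖∑ k ∈ Ioo k1 k2, tk k‖ := ⟨_, rfl⟩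
  rw [← hz] at hint hfin
  have hz0 : 0 ≤ z := by rw [hz]; exact norm_nonneg _
  have h9 : ‖∑ n ∈ Wn a b X N N' l m, E (xx a b l m n)‖ ^ 2 ≤ (2 * B + z) ^ 2 :=
    pow_le_pow_left₀ (norm_nonneg _) hfin 2
  nlinarith [sq_nonneg (2 * B - z)]

/-- the arguments whose values are near `x` -/
lemma near_card {a b X N N' : ℤ} (ha : 0 < a) (hb : 0 ≤ b) (hN : 0 < N) (hX : 0 ≤ X) (x : ℤ) :
    ((((Ioc N N').filter (fun n => |x - gq a b n| ≤ X)).card : ℕ) : ℝ) ≤ (X : ℝ) / (a * N) + 1 := by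
  have ha' : (0 : ℝ) < a := by exact_mod_cast ha
  have hN' : (0 : ℝ) < N := by exact_mod_cast hN
  have hX' : (0 : ℝ) ≤ X := by exact_mod_cast hX
  apply card_le_diam _ _ (by positivity)
  intro n1 h1 n2 h2
  have e : ∀ n, n ∈ (Ioc N N').filter (fun n => |x - gq a b n| ≤ X) ↔ n ∈ Wn a b X N N' 0 x := by
    intro n
    unfold Wn
    rw [sub_zero]
  rw [le_div_iff₀ (by positivity)]
  have := Wn_diam ha hb hN ((e _).1 h1) ((e _).1 h2)
  exact_mod_cast this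

/-- for one class the number of the `m` -/
lemma m_card {a b X N N' l h k : ℤ} (ha : 0 < a) (hb : 0 ≤ b) (hN : 0 < N) (hX : 0 ≤ X) (hl : 0 < l) (hh : 0 < h)
    (hqh : 2 * a * l ≤ h) (Ms : Finset ℤ) [∀ m, Decidable (Pint a b X N N' l h m k)] (r : ℤ) :
    (((Ms.filter (fun m => Pint a b X N N' l h m k ∧ 2 * a * l ∣ m + (a * l ^ 2 + b * l) - r)).card : ℕ) : ℝ) ≤
      (X : ℝ) / (a * N) + 1 := by
  have hq0 : 0 < 2 * a * l := by positivity
  obtain ⟨xr, hxr⟩ : ∃ xr, xr = k * h + (r - k * h) % (2 * a * l) := ⟨_, rfl⟩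
  have h1 : 0 ≤ (r - k * h) % (2 * a * l) := Int.emod_nonneg _ hq0.ne'
  have h2 : (r - k * h) % (2 * a * l) < 2 * a * l := Int.emod_lt_of_pos _ hq0
  have h3 : xr / h = k := (cell_iff hh _ _).2 ⟨by linarith, by linarith⟩
  have h4 : 2 * a * l ∣ xr - r := by
    rw [hxr]
    have := Int.dvd_sub_self_of_emod_eq (a := r - k * h) (b := 2 * a * l) (c := (r - k * h) % (2 * a * l)) rfl
    have e : k * h + (r - k * h) % (2 * a * l) - r = -((r - k * h) - (r - k * h) % (2 * a * l)) := by ring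
    rw [e, dvd_neg]
    have e2 : r - k * h - (r - k * h) % (2 * a * l) = 2 * a * l * ((r - k * h) / (2 * a * l)) := by
      have := Int.emod_add_mul_ediv (r - k * h) (2 * a * l)
      linarith
    rw [e2]
    exact dvd_mul_right _ _
  refine le_trans ?_ (near_card (N' := N') ha hb hN hX xr)
  have hsub : Ms.filter (fun m => Pint a b X N N' l h m k ∧ 2 * a * l ∣ m + (a * l ^ 2 + b * l) - r) ⊆
      ((Ioc N N').filter (fun n => |xr - gq a b n| ≤ X)).image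
        (fun n' => xr - (gq a b n' - gq a b (n' - l))) := by
    intro m hm
    rw [mem_filter] at hm
    obtain ⟨_, hP, hd⟩ := hm
    have h5 : 2 * a * l ∣ xr - (m + (a * l ^ 2 + b * l)) := by
      have := dvd_sub h4 hd
      have e : xr - r - (m + (a * l ^ 2 + b * l) - r) = xr - (m + (a * l ^ 2 + b * l)) := by ring
      rwa [e] at this
    obtain ⟨n, hn, e⟩ := Pint_surj ha hb hN.le hl hh hP h3 h5
    unfold Wn at hn
    rw [mem_filter, mem_Ioc] at hn
    rw [mem_image]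
    refine ⟨n + l, ?_, ?_⟩
    · rw [mem_filter, mem_Ioc]
      refine ⟨⟨by omega, by omega⟩, ?_⟩
      rw [← e]
      unfold xx
      have e2 : m + (gq a b (n + l) - gq a b n) - gq a b (n + l) = m - gq a b n := by ring
      rw [e2]
      exact hn.2
    · rw [← e]
      unfold xx
      rw [add_sub_cancel_right]
      ring
  exact_mod_cast (card_le_card hsub).trans card_image_le

end Pool.Agent.K9h10.LR
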