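import Mathlib
import Pool.Agent.K9h10.LR.D1

/-!
# The dispersion method: the sum over the differences
-/

set_option autoImplicit false

namespace Pool.Agent.K9h10.LR

open Finset

/-- the range of the values -/
noncomputable def Ms (a b X N N' : ℤ) : Finset ℤ := Icc (gq a b N - X) (gq a b N' + X)

/-- the cells which meet the range of the values -/
noncomputable def KK (a b X N N' h : ℤ) : Finset ℤ := Icc ((gq a b N - X) / h) ((gq a b N' + X) / h)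

/-- the mean square over the classes modulo `q` in the cell `k` -/
noncomputable def Ph (E : ℤ → ℂ) (h q k : ℤ) : ℝ := ∑ r ∈ Ico 0 q, ‖cl E h q k r‖ ^ 2

lemma Ph_nonneg (E : ℤ → ℂ) (h q k : ℤ) : 0 ≤ Ph E h q k := sum_nonneg fun _ _ => by positivity

lemma xx_mem {a b X N N' l m n : ℤ} (ha : 0 < a) (hb : 0 ≤ b) (hN : 0 ≤ N) (hl : 0 < l)
    (hn : n ∈ Wn a b X N N' l m) : xx a b l m n ∈ Ms a b X N N' := by
  unfold Wn at hn
  rw [mem_filter, mem_Ioc, abs_le] at hn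
  obtain ⟨⟨h1, h2⟩, h3, h4⟩ := hn
  have h5 := gq_mono ha hb (by omega : 0 ≤ n + l) (by omega : n + l ≤ N')
  have h6 := gq_mono ha hb hN (by omega : N ≤ n + l)
  unfold Ms xx
  rw [mem_Icc]
  constructor <;> linarith

lemma U_bound {a b X N N' l h : ℤ} (ha : 0 < a) (hb : 0 ≤ b) (hN : 0 < N) (hX : 0 ≤ X) (hl : 0 < l) (hlN : l ≤ N)
    (hh : 0 < h) (hqh : 2 * a * l ≤ h) (E : ℤ → ℂ) (e0 κ : ℝ) (he0 : 0 ≤ e0)
    (hE : ∀ x ∈ Ms a b X N N', ‖E x‖ ≤ e0) (hκ : 2 * (X : ℝ) / h ≤ κ) :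
    ∑ m ∈ Ms a b X N N', ‖∑ n ∈ Wn a b X N N' l m, E (xx a b l m n)‖ ^ 2 ≤
      2 * κ * (((X : ℝ) / (a * N) + 1) * ∑ k ∈ KK a b X N N' h, Ph E h (2 * a * l) k) +
        8 * ((Ms a b X N N').card * (((h : ℝ) / (2 * a * l) + 1) * e0) ^ 2) := by
  classical
  have ha' : (0 : ℝ) < a := by exact_mod_cast ha
  have hN' : (0 : ℝ) < N := by exact_mod_cast hN
  have hh' : (0 : ℝ) < h := by exact_mod_cast hh
  have hX' : (0 : ℝ) ≤ X := by exact_mod_cast hX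
  have hκ0 : 0 ≤ κ := le_trans (by positivity) hκ
  have hq0 : 0 < 2 * a * l := by positivity
  have hKK : ∀ m k, Pint a b X N N' l h m k → k ∈ KK a b X N N' h := by
    rintro m k ⟨n1, h1, n2, h2, h3, h4⟩
    have h5 := xx_mem ha hb hN.le hl h1
    have h6 := xx_mem ha hb hN.le hl h2
    unfold Ms at h5 h6
    rw [mem_Icc] at h5 h6
    unfold KK
    rw [mem_Icc]
    have h7 := Int.ediv_le_ediv hh h5.1
    have h8 := Int.ediv_le_ediv hh h6.2
    omega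
  have h1 : ∀ m ∈ Ms a b X N N', ‖∑ n ∈ Wn a b X N N' l m, E (xx a b l m n)‖ ^ 2 ≤
      2 * κ * ∑ k ∈ (KK a b X N N' h).filter (Pint a b X N N' l h m),
        ‖cl E h (2 * a * l) k (m + (a * l ^ 2 + b * l))‖ ^ 2 +
        8 * (((h : ℝ) / (2 * a * l) + 1) * e0) ^ 2 := by
    intro m _
    exact T_bound ha hb hN hl hlN hh E e0 κ he0 (fun n hn => hE _ (xx_mem ha hb hN.le hl hn)) hκ hX _ (hKK m)
  refine (sum_le_sum h1).trans ?_
  rw [sum_add_distrib, ← mul_sum]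
  have h2 : ∑ m ∈ Ms a b X N N', ∑ k ∈ (KK a b X N N' h).filter (Pint a b X N N' l h m),
      ‖cl E h (2 * a * l) k (m + (a * l ^ 2 + b * l))‖ ^ 2 ≤
      ((X : ℝ) / (a * N) + 1) * ∑ k ∈ KK a b X N N' h, Ph E h (2 * a * l) k := by
    simp only [sum_filter]
    rw [sum_comm, mul_sum]
    refine sum_le_sum fun k _ => ?_
    rw [← sum_filter]
    have hmap : ∀ m ∈ (Ms a b X N N').filter (fun m => Pint a b X N N' l h m k),
        (m + (a * l ^ 2 + b * l)) % (2 * a * l) ∈ Ico 0 (2 * a * l) := by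
      intro m _
      rw [mem_Ico]
      exact ⟨Int.emod_nonneg _ hq0.ne', Int.emod_lt_of_pos _ hq0⟩
    rw [← sum_fiberwise_of_maps_to hmap]
    unfold Ph
    rw [mul_sum]
    refine sum_le_sum fun r _ => ?_
    have h3 : ∀ m ∈ ((Ms a b X N N').filter (fun m => Pint a b X N N' l h m k)).filter
        (fun m => (m + (a * l ^ 2 + b * l)) % (2 * a * l) = r),
        ‖cl E h (2 * a * l) k (m + (a * l ^ 2 + b * l))‖ ^ 2 ≤ ‖cl E h (2 * a * l) k r‖ ^ 2 := by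
      intro m hm
      rw [mem_filter] at hm
      have : (2 * a * l) ∣ (m + (a * l ^ 2 + b * l)) - r := by
        rw [← hm.2]
        exact Int.dvd_self_sub_emod
      rw [cl_congr E h (2 * a * l) k this]
    refine (sum_le_card_nsmul _ _ _ h3).trans ?_
    rw [nsmul_eq_mul]
    apply mul_le_mul_of_nonneg_right _ (by positivity)
    refine le_trans ?_ (m_card (N' := N') ha hb hN hX hl hh hqh (Ms a b X N N') (k := k) r)
    have h4 : ((Ms a b X N N').filter (fun m => Pint a b X N N' l h m k)).filter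
        (fun m => (m + (a * l ^ 2 + b * l)) % (2 * a * l) = r) ⊆
        (Ms a b X N N').filter (fun m => Pint a b X N N' l h m k ∧ 2 * a * l ∣ m + (a * l ^ 2 + b * l) - r) := by
      intro m hm
      rw [mem_filter, mem_filter] at hm
      rw [mem_filter]
      refine ⟨hm.1.1, hm.1.2, ?_⟩
      rw [← hm.2]
      exact Int.dvd_self_sub_emod
    exact_mod_cast card_le_card h4
  have h5 : ∑ _m ∈ Ms a b X N N', 8 * (((h : ℝ) / (2 * a * l) + 1) * e0) ^ 2 =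
      8 * ((Ms a b X N N').card * (((h : ℝ) / (2 * a * l) + 1) * e0) ^ 2) := by
    rw [sum_const, nsmul_eq_mul]
    ring
  rw [h5]
  have h6 := mul_le_mul_of_nonneg_left h2 (by positivity : 0 ≤ 2 * κ)
  linarith

/-- the correlation -/
noncomputable def Vl (a b X N N' : ℤ) (E : ℤ → ℂ) (l : ℤ) : ℂ :=
  ∑ c ∈ Icc (-X) X, ∑ n ∈ Ioc N (N' - l), E (gq a b (n + l) + c) * (starRingEnd ℂ) (E (gq a b n + c))

lemma Vl_eq {a b X N N' l : ℤ} (ha : 0 < a) (hb : 0 ≤ b) (hN : 0 ≤ N) (hl : 0 ≤ l) (E : ℤ → ℂ) :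
    Vl a b X N N' E l = ∑ m ∈ Ms a b X N N', (starRingEnd ℂ) (E m) * ∑ n ∈ Wn a b X N N' l m, E (xx a b l m n) := by
  unfold Vl
  rw [sum_comm]
  have h1 : ∀ n ∈ Ioc N (N' - l), ∑ c ∈ Icc (-X) X, E (gq a b (n + l) + c) * (starRingEnd ℂ) (E (gq a b n + c)) =
      ∑ m ∈ (Ms a b X N N').filter (fun m => |m - gq a b n| ≤ X), (starRingEnd ℂ) (E m) * E (xx a b l m n) := by
    intro n hn
    rw [mem_Ioc] at hn
    have h2 := gq_mono ha hb hN hn.1.le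
    have h3 := gq_mono ha hb (by omega : 0 ≤ n) (by omega : n ≤ N')
    refine sum_nbij' (fun c => gq a b n + c) (fun m => m - gq a b n) ?_ ?_ ?_ ?_ ?_
    · intro c hc
      rw [mem_Icc] at hc
      unfold Ms
      rw [mem_filter, mem_Icc, add_sub_cancel_left, abs_le]
      exact ⟨⟨by linarith, by linarith⟩, hc⟩
    · intro m hm
      rw [mem_filter, abs_le] at hm
      rw [mem_Icc]
      exact hm.2
    · intro c _
      ring
    · intro m _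
      ring
    · intro c _
      have e : xx a b l (gq a b n + c) n = gq a b (n + l) + c := by unfold xx; ring
      rw [e]
      ring
  rw [sum_congr rfl h1]
  simp only [mul_sum]
  unfold Wn
  simp only [sum_filter]
  rw [sum_comm]

lemma Vl_bound {a b X N N' l : ℤ} (ha : 0 < a) (hb : 0 ≤ b) (hN : 0 ≤ N) (hl : 0 ≤ l) (E : ℤ → ℂ) (lam : ℝ)
    (hlam : 0 < lam) :
    2 * ‖Vl a b X N N' E l‖ ≤ lam * ∑ m ∈ Ms a b X N N', ‖E m‖ ^ 2 +
      lam⁻¹ * ∑ m ∈ Ms a b X N N', ‖∑ n ∈ Wn a b X N N' l m, E (xx a b l m n)‖ ^ 2 := by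
  rw [Vl_eq ha hb hN hl, mul_sum, mul_sum, ← sum_add_distrib]
  refine (mul_le_mul_of_nonneg_left (norm_sum_le _ _) (by norm_num : (0 : ℝ) ≤ 2)).trans ?_
  rw [mul_sum]
  refine sum_le_sum fun m _ => ?_
  rw [norm_mul, RCLike.norm_conj]
  obtain ⟨x, hx⟩ : ∃ x, x = ‖E m‖ := ⟨_, rfl⟩
  obtain ⟨y, hy⟩ : ∃ y, y = ‖∑ n ∈ Wn a b X N N' l m, E (xx a b l m n)‖ := ⟨_, rfl⟩
  rw [← hx, ← hy]
  have h1 : lam * x ^ 2 + lam⁻¹ * y ^ 2 - 2 * (x * y) = lam⁻¹ * (lam * x - y) ^ 2 := by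
    field_simp
    ring
  have h2 : 0 ≤ lam⁻¹ * (lam * x - y) ^ 2 := by positivity
  linarith

lemma Vl_triv {a b X N N' l : ℤ} (ha : 0 < a) (hb : 0 ≤ b) (hN : 0 ≤ N) (hX : 0 ≤ X) (hNN : N ≤ N') (hl : 0 ≤ l)
    (E : ℤ → ℂ) (e0 : ℝ) (he0 : 0 ≤ e0) (hE : ∀ x ∈ Ms a b X N N', ‖E x‖ ≤ e0) :
    ‖Vl a b X N N' E l‖ ≤ (2 * X + 1) * ((N' - N : ℤ) : ℝ) * e0 ^ 2 := by
  have hX' : (0 : ℝ) ≤ X := by exact_mod_cast hX
  unfold Vl
  refine (norm_sum_le _ _).trans ?_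
  have h1 : ∀ c ∈ Icc (-X) X, ‖∑ n ∈ Ioc N (N' - l), E (gq a b (n + l) + c) * (starRingEnd ℂ) (E (gq a b n + c))‖ ≤
      ((N' - N : ℤ) : ℝ) * e0 ^ 2 := by
    intro c hc
    rw [mem_Icc] at hc
    refine (norm_sum_le _ _).trans ?_
    have h2 : ∀ n ∈ Ioc N (N' - l), ‖E (gq a b (n + l) + c) * (starRingEnd ℂ) (E (gq a b n + c))‖ ≤ e0 ^ 2 := by
      intro n hn
      rw [mem_Ioc] at hn
      have g1 := gq_mono ha hb hN hn.1.le
      have g2 := gq_mono ha hb (by omega : 0 ≤ n) (by omega : n ≤ N')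
      have g3 := gq_mono ha hb hN (by omega : N ≤ n + l)
      have g4 := gq_mono ha hb (by omega : 0 ≤ n + l) (by omega : n + l ≤ N')
      rw [norm_mul, RCLike.norm_conj, sq]
      apply mul_le_mul (hE _ _) (hE _ _) (norm_nonneg _) he0
      · unfold Ms
        rw [mem_Icc]
        constructor <;> linarith
      · unfold Ms
        rw [mem_Icc]
        constructor <;> linarith
    refine (sum_le_card_nsmul _ _ _ h2).trans ?_
    rw [nsmul_eq_mul, Int.card_Ioc]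
    apply mul_le_mul_of_nonneg_right _ (by positivity)
    have h3 : ((N' - l - N).toNat : ℤ) ≤ N' - N := by omega
    exact_mod_cast h3
  refine (sum_le_card_nsmul _ _ _ h1).trans ?_
  rw [nsmul_eq_mul, Int.card_Icc]
  have h4 : (((X + 1 - -X).toNat : ℕ) : ℝ) = 2 * X + 1 := by
    have : (((X + 1 - -X).toNat : ℕ) : ℤ) = 2 * X + 1 := by omega
    exact_mod_cast congrArg (fun z : ℤ => (z : ℝ)) this
  rw [h4]
  ring_nf
  exact le_rfl

/-- the expansion of the square -/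
lemma sq_expand (N N' : ℤ) (z : ℤ → ℂ) :
    (((‖∑ n ∈ Ioc N N', z n‖ ^ 2 : ℝ)) : ℂ) = ∑ n ∈ Ioc N N', z n * (starRingEnd ℂ) (z n) +
      (∑ l ∈ Icc 1 (N' - N), ∑ n ∈ Ioc N (N' - l), z (n + l) * (starRingEnd ℂ) (z n) +
        (starRingEnd ℂ) (∑ l ∈ Icc 1 (N' - N), ∑ n ∈ Ioc N (N' - l), z (n + l) * (starRingEnd ℂ) (z n))) := by
  classical
  have e0 : (((‖∑ n ∈ Ioc N N', z n‖ ^ 2 : ℝ)) : ℂ) =
      ∑ p ∈ Ioc N N' ×ˢ Ioc N N', z p.2 * (starRingEnd ℂ) (z p.1) := by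
    push_cast
    rw [← Complex.mul_conj', map_sum, sum_mul_sum, sum_product_right]
  have hre : ∀ F : ℤ → ℤ → ℂ, ∑ l ∈ Icc 1 (N' - N), ∑ n ∈ Ioc N (N' - l), F n (n + l) =
      ∑ p ∈ (Ioc N N' ×ˢ Ioc N N').filter (fun p => p.1 < p.2), F p.1 p.2 := by
    intro F
    rw [sum_sigma']
    refine sum_nbij' (fun x : (Σ _ : ℤ, ℤ) => ((x.2, x.2 + x.1) : ℤ × ℤ)) (fun p => ⟨p.2 - p.1, p.1⟩) ?_ ?_ ?_ ?_ ?_
    · rintro ⟨l, n⟩ hx
      simp only [mem_sigma, mem_Icc, mem_Ioc] at hx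
      simp only [mem_filter, mem_product, mem_Ioc]
      omega
    · rintro ⟨n, n'⟩ hx
      simp only [mem_filter, mem_product, mem_Ioc] at hx
      simp only [mem_sigma, mem_Icc, mem_Ioc]
      omega
    · rintro ⟨l, n⟩ _
      simp
    · rintro ⟨n, n'⟩ _
      simp
    · rintro ⟨l, n⟩ _
      rfl
  have e1 := hre (fun n n' => z n' * (starRingEnd ℂ) (z n))
  have e2 : (starRingEnd ℂ) (∑ l ∈ Icc 1 (N' - N), ∑ n ∈ Ioc N (N' - l), z (n + l) * (starRingEnd ℂ) (z n)) =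
      ∑ p ∈ (Ioc N N' ×ˢ Ioc N N').filter (fun p => p.2 < p.1), z p.2 * (starRingEnd ℂ) (z p.1) := by
    rw [e1, map_sum]
    refine sum_nbij' (fun p : ℤ × ℤ => (p.2, p.1)) (fun p => (p.2, p.1)) ?_ ?_ ?_ ?_ ?_
    · rintro ⟨n, n'⟩ hx
      simp only [mem_filter, mem_product, mem_Ioc] at hx ⊢
      omega
    · rintro ⟨n, n'⟩ hx
      simp only [mem_filter, mem_product, mem_Ioc] at hx ⊢
      omega
    · rintro ⟨n, n'⟩ _
      rfl
    · rintro ⟨n, n'⟩ _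
      rfl
    · rintro ⟨n, n'⟩ _
      simp only [map_mul, Complex.conj_conj]
      ring
  have e3 : ∑ n ∈ Ioc N N', z n * (starRingEnd ℂ) (z n) =
      ∑ p ∈ (Ioc N N' ×ˢ Ioc N N').filter (fun p => p.1 = p.2), z p.2 * (starRingEnd ℂ) (z p.1) := by
    refine sum_nbij' (fun n => (n, n)) (fun p => p.1) ?_ ?_ ?_ ?_ ?_
    · intro n hn
      simp only [mem_filter, mem_product]
      exact ⟨⟨hn, hn⟩, trivial⟩
    · rintro ⟨n, n'⟩ hx
      simp only [mem_filter, mem_product] at hx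
      exact hx.1.1
    · intro n _
      rfl
    · rintro ⟨n, n'⟩ hx
      simp only [mem_filter, mem_product] at hx
      simp [hx.2]
    · intro n _
      rfl
  rw [e0, e1, ← e1, e2, e1, e3]
  rw [← sum_filter_add_sum_filter_not (Ioc N N' ×ˢ Ioc N N') (fun p => p.1 = p.2)]
  congr 1
  rw [← sum_filter_add_sum_filter_not ((Ioc N N' ×ˢ Ioc N N').filter (fun p => ¬ p.1 = p.2)) (fun p => p.1 < p.2)]
  rw [filter_filter, filter_filter]
  congr 1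
  · congr 1
    apply filter_congr
    rintro ⟨n, n'⟩ _
    simp only
    omega
  · congr 1
    apply filter_congr
    rintro ⟨n, n'⟩ _
    simp only
    omega

/-- the dispersion inequality -/
theorem disp {a b X N N' h L0 : ℤ} (ha : 0 < a) (hb : 0 ≤ b) (hN : 0 < N) (hNN : N ≤ N') (hN2 : N' ≤ 2 * N) (hX : 0 ≤ X)
    (hh : 0 < h) (hqh : 2 * a * N ≤ h) (hL0 : 0 < L0) (E : ℤ → ℂ) (e0 κ lam : ℝ) (he0 : 0 ≤ e0) (hlam : 0 < lam)
    (hE : ∀ x ∈ Ms a b X N N', ‖E x‖ ≤ e0) (hκ : 2 * (X : ℝ) / h ≤ κ) :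
    ∑ c ∈ Icc (-X) X, ‖∑ n ∈ Ioc N N', E (gq a b n + c)‖ ^ 2 ≤
      (2 * X + 1) * N * (1 + 2 * L0) * e0 ^ 2 + N * (lam * ∑ m ∈ Ms a b X N N', ‖E m‖ ^ 2) +
      lam⁻¹ * (2 * κ * (((X : ℝ) / (a * N) + 1) *
          ∑ k ∈ KK a b X N N' h, ∑ l ∈ Ioc 0 N, Ph E h (2 * a * l) k) +
        8 * (N * ((Ms a b X N N').card * (((h : ℝ) / (2 * a * L0) + 1) * e0) ^ 2))) := by
  classical
  have ha' : (0 : ℝ) < a := by exact_mod_cast ha
  have hN' : (0 : ℝ) < N := by exact_mod_cast hN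
  have hh' : (0 : ℝ) < h := by exact_mod_cast hh
  have hX' : (0 : ℝ) ≤ X := by exact_mod_cast hX
  have hL' : (0 : ℝ) < L0 := by exact_mod_cast hL0
  have hNN' : (0 : ℝ) ≤ ((N' - N : ℤ) : ℝ) := by
    have : 0 ≤ N' - N := by linarith
    exact_mod_cast this
  have hNN'' : ((N' - N : ℤ) : ℝ) ≤ N := by
    have : N' - N ≤ N := by linarith
    exact_mod_cast this
  have hκ0 : 0 ≤ κ := le_trans (by positivity) hκ
  -- expansion
  have h1 : ∑ c ∈ Icc (-X) X, ‖∑ n ∈ Ioc N N', E (gq a b n + c)‖ ^ 2 ≤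
      ∑ c ∈ Icc (-X) X, ∑ n ∈ Ioc N N', ‖E (gq a b n + c)‖ ^ 2 + ∑ l ∈ Icc 1 (N' - N), 2 * ‖Vl a b X N N' E l‖ := by
    have e1 : ((∑ c ∈ Icc (-X) X, ‖∑ n ∈ Ioc N N', E (gq a b n + c)‖ ^ 2 : ℝ) : ℂ) =
        ((∑ c ∈ Icc (-X) X, ∑ n ∈ Ioc N N', ‖E (gq a b n + c)‖ ^ 2 : ℝ) : ℂ) +
        (∑ l ∈ Icc 1 (N' - N), Vl a b X N N' E l + (starRingEnd ℂ) (∑ l ∈ Icc 1 (N' - N), Vl a b X N N' E l)) := by
      have e2 : ∑ l ∈ Icc 1 (N' - N), Vl a b X N N' E l = ∑ c ∈ Icc (-X) X, ∑ l ∈ Icc 1 (N' - N),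
          ∑ n ∈ Ioc N (N' - l), E (gq a b (n + l) + c) * (starRingEnd ℂ) (E (gq a b n + c)) := by
        unfold Vl
        rw [sum_comm]
      rw [e2, map_sum, ← sum_add_distrib]
      have e3 : ∀ c ∈ Icc (-X) X, ((‖∑ n ∈ Ioc N N', E (gq a b n + c)‖ ^ 2 : ℝ) : ℂ) =
          ((∑ n ∈ Ioc N N', ‖E (gq a b n + c)‖ ^ 2 : ℝ) : ℂ) +
          (∑ l ∈ Icc 1 (N' - N), ∑ n ∈ Ioc N (N' - l), E (gq a b (n + l) + c) * (starRingEnd ℂ) (E (gq a b n + c)) +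
            (starRingEnd ℂ) (∑ l ∈ Icc 1 (N' - N), ∑ n ∈ Ioc N (N' - l),
              E (gq a b (n + l) + c) * (starRingEnd ℂ) (E (gq a b n + c)))) := by
        intro c _
        rw [sq_expand N N' (fun n => E (gq a b n + c))]
        congr 1
        push_cast
        refine sum_congr rfl fun n _ => ?_
        rw [Complex.mul_conj']
      push_cast at e3 ⊢
      rw [sum_congr rfl e3, sum_add_distrib]
    have e4 : ∑ c ∈ Icc (-X) X, ‖∑ n ∈ Ioc N N', E (gq a b n + c)‖ ^ 2 =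
        ∑ c ∈ Icc (-X) X, ∑ n ∈ Ioc N N', ‖E (gq a b n + c)‖ ^ 2 + 2 * (∑ l ∈ Icc 1 (N' - N), Vl a b X N N' E l).re := by
      have := congrArg Complex.re e1
      rw [Complex.add_re, Complex.ofReal_re, Complex.ofReal_re, Complex.add_re, Complex.conj_re] at this
      linarith
    rw [e4]
    have e5 : (∑ l ∈ Icc 1 (N' - N), Vl a b X N N' E l).re ≤ ∑ l ∈ Icc 1 (N' - N), ‖Vl a b X N N' E l‖ :=
      (Complex.re_le_norm _).trans (norm_sum_le _ _)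
    rw [← mul_sum]
    linarith
  -- the diagonal
  have h2 : ∑ c ∈ Icc (-X) X, ∑ n ∈ Ioc N N', ‖E (gq a b n + c)‖ ^ 2 ≤ (2 * X + 1) * N * e0 ^ 2 := by
    have g1 : ∀ c ∈ Icc (-X) X, ∑ n ∈ Ioc N N', ‖E (gq a b n + c)‖ ^ 2 ≤ N * e0 ^ 2 := by
      intro c hc
      rw [mem_Icc] at hc
      have g2 : ∀ n ∈ Ioc N N', ‖E (gq a b n + c)‖ ^ 2 ≤ e0 ^ 2 := by
        intro n hn
        rw [mem_Ioc] at hn
        have k1 := gq_mono ha hb hN.le hn.1.le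
        have k2 := gq_mono ha hb (by omega : 0 ≤ n) hn.2
        apply pow_le_pow_left₀ (norm_nonneg _)
        apply hE
        unfold Ms
        rw [mem_Icc]
        constructor <;> linarith
      refine (sum_le_card_nsmul _ _ _ g2).trans ?_
      rw [nsmul_eq_mul, Int.card_Ioc]
      apply mul_le_mul_of_nonneg_right _ (by positivity)
      have : ((N' - N).toNat : ℤ) ≤ N := by omega
      exact_mod_cast this
    refine (sum_le_card_nsmul _ _ _ g1).trans ?_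
    rw [nsmul_eq_mul, Int.card_Icc]
    have h4 : (((X + 1 - -X).toNat : ℕ) : ℝ) = 2 * X + 1 := by
      have : (((X + 1 - -X).toNat : ℕ) : ℤ) = 2 * X + 1 := by omega
      exact_mod_cast congrArg (fun z : ℤ => (z : ℝ)) this
    rw [h4]
    ring_nf
    exact le_rfl
  -- small and large differences
  obtain ⟨Z, hZ⟩ : ∃ Z, Z = lam * ∑ m ∈ Ms a b X N N', ‖E m‖ ^ 2 := ⟨_, rfl⟩
  have hZ0 : 0 ≤ Z := by rw [hZ]; positivity
  obtain ⟨Y, hY⟩ : ∃ Y, Y = (Ms a b X N N').card * (((h : ℝ) / (2 * a * L0) + 1) * e0) ^ 2 := ⟨_, rfl⟩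
  have hY0 : 0 ≤ Y := by rw [hY]; positivity
  obtain ⟨ν, hν⟩ : ∃ ν, ν = (X : ℝ) / (a * N) + 1 := ⟨_, rfl⟩
  have hν0 : 0 ≤ ν := by rw [hν]; positivity
  have hN'N : N' - N ≤ N := by linarith
  have h3 : ∑ l ∈ Icc 1 (N' - N), 2 * ‖Vl a b X N N' E l‖ ≤
      ∑ l ∈ (Icc 1 (N' - N)).filter (fun l => l ≤ L0), 2 * ((2 * X + 1) * N * e0 ^ 2) +
      ∑ l ∈ (Icc 1 (N' - N)).filter (fun l => ¬ l ≤ L0),
        (Z + lam⁻¹ * (2 * κ * (ν * ∑ k ∈ KK a b X N N' h, Ph E h (2 * a * l) k) + 8 * Y)) := by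
    rw [← sum_filter_add_sum_filter_not (Icc 1 (N' - N)) (fun l => l ≤ L0)]
    apply add_le_add
    · refine sum_le_sum fun l hl => ?_
      rw [mem_filter, mem_Icc] at hl
      have g1 := Vl_triv ha hb hN.le hX hNN (by omega : 0 ≤ l) E e0 he0 hE
      have g2 : (2 * (X : ℝ) + 1) * ((N' - N : ℤ) : ℝ) * e0 ^ 2 ≤ (2 * X + 1) * N * e0 ^ 2 := by gcongr
      linarith
    · refine sum_le_sum fun l hl => ?_
      rw [mem_filter, mem_Icc] at hl
      have hl0 : 0 < l := by omega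
      have hlN : l ≤ N := by omega
      have hql : 2 * a * l ≤ h := by
        refine le_trans ?_ hqh
        have : 2 * a * l ≤ 2 * a * N := by nlinarith
        exact this
      have g1 := Vl_bound (N' := N') ha hb hN.le hl0.le E lam hlam (X := X)
      have g2 := U_bound (N' := N') ha hb hN hX hl0 hlN hh hql E e0 κ he0 hE hκ
      rw [← hZ] at g1
      rw [← hν] at g2
      have hlR : (0 : ℝ) < l := by exact_mod_cast hl0
      have hLl : (L0 : ℝ) ≤ l := by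
        have : L0 ≤ l := by omega
        exact_mod_cast this
      have g3 : (((Ms a b X N N').card : ℕ) : ℝ) * (((h : ℝ) / (2 * a * l) + 1) * e0) ^ 2 ≤ Y := by
        rw [hY]
        gcongr
      have g4 : lam⁻¹ * ∑ m ∈ Ms a b X N N', ‖∑ n ∈ Wn a b X N N' l m, E (xx a b l m n)‖ ^ 2 ≤
          lam⁻¹ * (2 * κ * (ν * ∑ k ∈ KK a b X N N' h, Ph E h (2 * a * l) k) + 8 * Y) := by
        apply mul_le_mul_of_nonneg_left _ (by positivity)
        linarith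
      linarith
  have h4 : ∑ _l ∈ (Icc 1 (N' - N)).filter (fun l => l ≤ L0), 2 * ((2 * (X : ℝ) + 1) * N * e0 ^ 2) ≤
      L0 * (2 * ((2 * X + 1) * N * e0 ^ 2)) := by
    rw [sum_const, nsmul_eq_mul]
    apply mul_le_mul_of_nonneg_right _ (by positivity)
    have g1 : (Icc 1 (N' - N)).filter (fun l => l ≤ L0) ⊆ Icc 1 L0 := by
      intro l hl
      rw [mem_filter, mem_Icc] at hl
      rw [mem_Icc]
      exact ⟨hl.1.1, hl.2⟩
    have g2 := card_le_card g1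
    rw [Int.card_Icc] at g2
    have g3 : (((Icc 1 (N' - N)).filter (fun l => l ≤ L0)).card : ℤ) ≤ L0 := by omega
    exact_mod_cast g3
  have h5 : ∑ l ∈ (Icc 1 (N' - N)).filter (fun l => ¬ l ≤ L0),
        (Z + lam⁻¹ * (2 * κ * (ν * ∑ k ∈ KK a b X N N' h, Ph E h (2 * a * l) k) + 8 * Y)) ≤
      ∑ l ∈ Ioc 0 N,
        (Z + lam⁻¹ * (2 * κ * (ν * ∑ k ∈ KK a b X N N' h, Ph E h (2 * a * l) k) + 8 * Y)) := by
    apply sum_le_sum_of_subset_of_nonneg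
    · intro l hl
      rw [mem_filter, mem_Icc] at hl
      rw [mem_Ioc]
      omega
    · intro l _ _
      have : 0 ≤ ∑ k ∈ KK a b X N N' h, Ph E h (2 * a * l) k := sum_nonneg fun _ _ => Ph_nonneg _ _ _ _
      positivity
  have h6 : ∑ l ∈ Ioc 0 N,
        (Z + lam⁻¹ * (2 * κ * (ν * ∑ k ∈ KK a b X N N' h, Ph E h (2 * a * l) k) + 8 * Y)) =
      N * Z + lam⁻¹ * (2 * κ * (ν * ∑ k ∈ KK a b X N N' h, ∑ l ∈ Ioc 0 N, Ph E h (2 * a * l) k) + 8 * (N * Y)) := by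
    have hc : (((Ioc 0 N).card : ℕ) : ℝ) = N := by
      rw [Int.card_Ioc]
      have : (((N - 0).toNat : ℕ) : ℤ) = N := by omega
      exact_mod_cast congrArg (fun z : ℤ => (z : ℝ)) this
    rw [sum_add_distrib, sum_const, nsmul_eq_mul, hc, ← mul_sum, sum_add_distrib, sum_const, nsmul_eq_mul, hc,
      ← mul_sum, ← mul_sum, sum_comm]
    ring
  rw [h6] at h5
  rw [← hZ, ← hY, ← hν]
  have h7 : L0 * (2 * ((2 * (X : ℝ) + 1) * N * e0 ^ 2)) + (2 * X + 1) * N * e0 ^ 2 =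
      (2 * X + 1) * N * (1 + 2 * L0) * e0 ^ 2 := by ring
  linarith

end Pool.Agent.K9h10.LR
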