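import Mathlib
import Pool.Agent.K9h10.LR.A1
import Pool.Agent.K9h10.LR.D2

/-!
# The mean square over the classes modulo `q` in one cell
-/

set_option autoImplicit false

namespace Pool.Agent.K9h10.LR

open Finset
open Pool.Agent.Helper112
open Pool.Agent.N792.Lsc (orth sum_reduced harm_mult tail_bound)

lemma sum_Ico_range {M : Type*} [AddCommMonoid M] (s : ℤ) (h : ℕ) (F : ℤ → M) :
    ∑ x ∈ Ico s (s + h), F x = ∑ j ∈ range h, F (s + j) := by
  refine sum_nbij' (fun x => (x - s).toNat) (fun j => s + j) ?_ ?_ ?_ ?_ ?_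
  · intro x hx
    rw [mem_Ico] at hx
    rw [mem_range]
    omega
  · intro j hj
    rw [mem_range] at hj
    rw [mem_Ico]
    omega
  · intro x hx
    rw [mem_Ico] at hx
    omega
  · intro j _
    omega
  · intro x hx
    rw [mem_Ico] at hx
    congr 1
    omega

lemma cls_count (q : ℕ) (hq : 1 ≤ q) (x y : ℤ) :
    ∑ r ∈ Ico (0 : ℤ) q, ((if (q : ℤ) ∣ x - r then (1 : ℂ) else 0) * (if (q : ℤ) ∣ y - r then 1 else 0)) =
      if (q : ℤ) ∣ x - y then 1 else 0 := by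
  have hq0 : (0 : ℤ) < q := by exact_mod_cast hq
  have h1 : ∀ r ∈ Ico (0 : ℤ) q, ((if (q : ℤ) ∣ x - r then (1 : ℂ) else 0) * (if (q : ℤ) ∣ y - r then 1 else 0)) =
      if r = x % q then (if (q : ℤ) ∣ x - y then 1 else 0) else 0 := by
    intro r hr
    rw [mem_Ico] at hr
    have e1 : (q : ℤ) ∣ x - r ↔ r = x % q := by
      rw [← Int.modEq_iff_dvd]
      unfold Int.ModEq
      rw [Int.emod_eq_of_lt hr.1 hr.2]
    by_cases hx : r = x % q
    · have h2 : (q : ℤ) ∣ x - r := e1.2 hx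
      have e2 : (q : ℤ) ∣ y - r ↔ (q : ℤ) ∣ x - y := by
        constructor
        · intro h3
          have := dvd_sub h2 h3
          have e : x - r - (y - r) = x - y := by ring
          rwa [e] at this
        · intro h3
          have := dvd_sub h2 h3
          have e : x - r - (x - y) = y - r := by ring
          rwa [e] at this
      rw [if_pos h2, if_pos hx, one_mul]
      by_cases hy : (q : ℤ) ∣ x - y
      · rw [if_pos hy, if_pos (e2.2 hy)]
      · rw [if_neg hy, if_neg (fun h => hy (e2.1 h))]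
    · rw [if_neg (fun h => hx (e1.1 h)), if_neg hx, zero_mul]
  rw [sum_congr rfl h1, sum_ite_eq']
  rw [if_pos (mem_Ico.2 ⟨Int.emod_nonneg _ hq0.ne', Int.emod_lt_of_pos _ hq0⟩)]

lemma Ph_eq (E : ℤ → ℂ) (h q : ℕ) (k : ℤ) (hq : 1 ≤ q) :
    ((Ph E h q k : ℝ) : ℂ) = ∑ i ∈ range h, ∑ j ∈ range h, E (k * h + i) * (starRingEnd ℂ) (E (k * h + j)) *
      (if (q : ℤ) ∣ (k * h + i) - (k * h + j) then 1 else 0) := by
  have h1 : ∀ r : ℤ, ((‖cl E h q k r‖ ^ 2 : ℝ) : ℂ) = ∑ i ∈ range h, ∑ j ∈ range h,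
      E (k * h + i) * (starRingEnd ℂ) (E (k * h + j)) * ((if (q : ℤ) ∣ (k * h + i) - r then (1 : ℂ) else 0) *
        (if (q : ℤ) ∣ (k * h + j) - r then 1 else 0)) := by
    intro r
    push_cast
    rw [← Complex.mul_conj']
    unfold cl
    rw [sum_filter, sum_Ico_range, map_sum, sum_mul_sum]
    refine sum_congr rfl fun i _ => sum_congr rfl fun j _ => ?_
    split_ifs <;> simp
  unfold Ph
  push_cast
  push_cast at h1
  simp only [h1]
  rw [sum_comm]
  refine sum_congr rfl fun i _ => ?_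
  rw [sum_comm]
  refine sum_congr rfl fun j _ => ?_
  rw [← mul_sum, cls_count q hq]

/-- Parseval -/
lemma Ph_parseval (E : ℤ → ℂ) (h q : ℕ) (k : ℤ) (hq : 1 ≤ q) :
    ∑ b ∈ range q, ‖ES (k * h) h E ((b : ℝ) / q)‖ ^ 2 = q * Ph E h q k := by
  have hC : ((∑ b ∈ range q, ‖ES (k * h) h E ((b : ℝ) / q)‖ ^ 2 : ℝ) : ℂ) = ((q * Ph E h q k : ℝ) : ℂ) := by
    push_cast
    rw [Ph_eq E h q k hq]
    have h1 : ∀ b : ℕ, (‖ES (k * h) h E ((b : ℝ) / q)‖ : ℂ) ^ 2 = ∑ i ∈ range h, ∑ j ∈ range h,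
        E (k * h + i) * (starRingEnd ℂ) (E (k * h + j)) *
          ee ((((k * h + i) - (k * h + j) : ℤ) : ℝ) * ((b : ℝ) / q)) := by
      intro b
      rw [← Complex.mul_conj']
      unfold ES
      rw [map_sum, sum_mul_sum]
      refine sum_congr rfl fun i _ => sum_congr rfl fun j _ => ?_
      rw [map_mul, ls_conj_ee]
      have : ((((k * h + i) - (k * h + j) : ℤ) : ℝ) * ((b : ℝ) / q)) =
          ((k * h + i : ℤ) : ℝ) * ((b : ℝ) / q) + -(((k * h + j : ℤ) : ℝ) * ((b : ℝ) / q)) := by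
        push_cast
        ring
      rw [this, ls_ee_add]
      ring
    simp only [h1]
    rw [sum_comm, mul_sum]
    refine sum_congr rfl fun i _ => ?_
    rw [sum_comm, mul_sum]
    refine sum_congr rfl fun j _ => ?_
    rw [← mul_sum, orth q hq]
    split_ifs
    · ring
    · ring
  exact_mod_cast hC

/-- the sum over the reduced fractions with denominator `d` -/
noncomputable def TR (E : ℤ → ℂ) (s : ℤ) (h d : ℕ) : ℝ :=
  ∑ a ∈ (range d).filter (fun a => a.Coprime d), ‖ES s h E ((a : ℝ) / d)‖ ^ 2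

lemma TR_nonneg (E : ℤ → ℂ) (s : ℤ) (h d : ℕ) : 0 ≤ TR E s h d := sum_nonneg fun _ _ => by positivity

lemma sum_Ph (E : ℤ → ℂ) (h Q : ℕ) (k : ℤ) :
    ∑ q ∈ Icc 1 Q, Ph E h q k = ∑ d ∈ Icc 1 Q, TR E (k * h) h d * ∑ q ∈ (Icc 1 Q).filter (fun q => d ∣ q), 1 / (q : ℝ) := by
  have h1 : ∀ q ∈ Icc 1 Q, Ph E h q k = ∑ d ∈ Icc 1 Q, if d ∣ q then TR E (k * h) h d * (1 / (q : ℝ)) else 0 := by
    intro q hq
    rw [mem_Icc] at hq
    have hq0 : (q : ℝ) ≠ 0 := by
      have : 1 ≤ q := hq.1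
      positivity
    have h2 := Ph_parseval E h q k hq.1
    rw [sum_reduced (fun t => ‖ES (k * h) h E t‖ ^ 2) q hq.1] at h2
    have h3 : Ph E h q k = (∑ d ∈ q.divisors, TR E (k * h) h d) * (1 / (q : ℝ)) := by
      unfold TR
      rw [h2]
      field_simp
    rw [h3, sum_mul, ← sum_filter]
    refine sum_congr ?_ fun _ _ => rfl
    ext d
    rw [Nat.mem_divisors, mem_filter, mem_Icc]
    constructor
    · rintro ⟨h, h'⟩
      exact ⟨⟨Nat.pos_of_dvd_of_pos h hq.1, (Nat.le_of_dvd hq.1 h).trans hq.2⟩, h⟩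
    · rintro ⟨_, h⟩
      exact ⟨h, by omega⟩
  rw [sum_congr rfl h1, sum_comm]
  refine sum_congr rfl fun d _ => ?_
  rw [mul_sum, sum_filter]

lemma TR_sum (E : ℤ → ℂ) (s : ℤ) (h m : ℕ) (V : ℝ) (hV : ∑ j ∈ range h, ‖E (s + j)‖ ^ 2 ≤ V) :
    ∑ d ∈ Icc 1 m, TR E s h d ≤ (6 * V) * (h + (m : ℝ) ^ 2) := by
  classical
  have hV0 : 0 ≤ V := le_trans (by positivity) hV
  rcases Nat.eq_zero_or_pos m with hm | hm
  · subst hm
    simp only [Icc_eq_empty_of_lt (show (0 : ℕ) < 1 by norm_num), Finset.sum_empty]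
    positivity
  have h1 := ls_int (FR m) fv (m ^ 2) (Nat.one_le_pow _ _ hm) (FR_sep m) s h E
  unfold FR at h1
  rw [Finset.sum_sigma] at h1
  push_cast at h1
  refine le_trans (le_of_eq ?_) (h1.trans ?_)
  · unfold TR fv
    rfl
  · calc 6 * ((h : ℝ) + (m : ℝ) ^ 2) * ∑ j ∈ range h, ‖E (s + j)‖ ^ 2 ≤ 6 * ((h : ℝ) + (m : ℝ) ^ 2) * V := by gcongr
      _ = _ := by ring

/-- the mean square in one cell -/
theorem bdh_cell (E : ℤ → ℂ) (k : ℤ) (h D Q : ℕ) (hD : 1 ≤ D) (hDQ : D ≤ Q) (V sm : ℝ)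
    (hV : ∑ j ∈ range h, ‖E (k * h + j)‖ ^ 2 ≤ V) (hsm : ∀ r ∈ FR D, ‖ES (k * h) h E (fv r)‖ ≤ sm) :
    ∑ q ∈ Icc 1 Q, Ph E h q k ≤ (1 + Real.log Q) * (D * sm ^ 2 + 6 * V * (h / D + 2 * Q)) := by
  have hQ1 : 1 ≤ Q := hD.trans hDQ
  have hV0 : 0 ≤ V := le_trans (by positivity) hV
  have hD0 : (0 : ℝ) < D := by exact_mod_cast hD
  have hQ0 : (0 : ℝ) < Q := by exact_mod_cast hQ1
  have hl0 : 0 ≤ Real.log Q := Real.log_natCast_nonneg Q
  rw [sum_Ph]
  have h1 : ∑ d ∈ Icc 1 Q, TR E (k * h) h d * ∑ q ∈ (Icc 1 Q).filter (fun q => d ∣ q), 1 / (q : ℝ) ≤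
      (1 + Real.log Q) * ∑ d ∈ Icc 1 Q, TR E (k * h) h d / d := by
    rw [mul_sum]
    refine sum_le_sum fun d hd => ?_
    rw [mem_Icc] at hd
    have h2 := mul_le_mul_of_nonneg_left (harm_mult Q d hQ1 hd.1) (TR_nonneg E (k * h) h d)
    refine h2.trans (le_of_eq ?_)
    ring
  refine h1.trans (mul_le_mul_of_nonneg_left ?_ (by positivity))
  have h2 : ∑ d ∈ Icc 1 Q, TR E (k * h) h d / d = ∑ d ∈ Icc 1 D, TR E (k * h) h d / d +
      ∑ d ∈ Ioc D Q, TR E (k * h) h d / d := by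
    rw [← sum_union]
    · congr 1
      ext d
      simp only [mem_Icc, mem_union, mem_Ioc]
      omega
    · rw [disjoint_left]
      intro d hd hd'
      rw [mem_Icc] at hd
      rw [mem_Ioc] at hd'
      omega
  have h3 : ∑ d ∈ Icc 1 D, TR E (k * h) h d / d ≤ D * sm ^ 2 := by
    have h4 : ∀ d ∈ Icc 1 D, TR E (k * h) h d / d ≤ sm ^ 2 := by
      intro d hd
      rw [mem_Icc] at hd
      have hd0 : (0 : ℝ) < d := by exact_mod_cast hd.1
      rw [div_le_iff₀ hd0]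
      unfold TR
      have h5 : ∀ a ∈ (range d).filter (fun a => a.Coprime d), ‖ES (k * h) h E ((a : ℝ) / d)‖ ^ 2 ≤ sm ^ 2 := by
        intro a ha
        apply pow_le_pow_left₀ (norm_nonneg _)
        have h6 := hsm ⟨d, a⟩ (by
          unfold FR
          rw [mem_sigma, mem_Icc]
          exact ⟨hd, ha⟩)
        exact h6
      refine (sum_le_card_nsmul _ _ _ h5).trans ?_
      rw [nsmul_eq_mul, mul_comm]
      apply mul_le_mul_of_nonneg_left _ (by positivity)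
      have := card_filter_le (range d) (fun a => a.Coprime d)
      rw [card_range] at this
      exact_mod_cast this
    refine (sum_le_card_nsmul _ _ _ h4).trans ?_
    rw [nsmul_eq_mul, Nat.card_Icc, Nat.add_sub_cancel]
  have h4 := tail_bound (TR E (k * h) h) (6 * V) h D (by positivity) (TR_nonneg E (k * h) h)
    (fun m => TR_sum E (k * h) h m V hV) Q hDQ
  have h5 : (∑ d ∈ Ioc D Q, TR E (k * h) h d) / (Q + 1) ≤ (6 * V) * (h + (Q : ℝ) ^ 2) / (Q + 1) := by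
    apply div_le_div_of_nonneg_right _ (by positivity)
    refine le_trans ?_ (TR_sum E (k * h) h Q V hV)
    apply sum_le_sum_of_subset_of_nonneg
    · intro d hd
      rw [mem_Ioc] at hd
      rw [mem_Icc]
      omega
    · intro d _ _
      exact TR_nonneg _ _ _ _
  have h6 : (6 * V) * (h + (Q : ℝ) ^ 2) / (Q + 1) + 6 * V * (h * (1 / (D + 1) - 1 / (Q + 1))) + 6 * V * (Q - D) ≤
      6 * V * (h / D + 2 * Q) := by
    have e1 : (6 * V) * (h + (Q : ℝ) ^ 2) / (Q + 1) + 6 * V * (h * (1 / (D + 1) - 1 / (Q + 1))) + 6 * V * (Q - D) =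
        6 * V * ((Q : ℝ) ^ 2 / (Q + 1) + h * (1 / (D + 1)) + (Q - D)) := by
      field_simp
      ring
    rw [e1]
    apply mul_le_mul_of_nonneg_left _ (by positivity)
    have e2 : (Q : ℝ) ^ 2 / (Q + 1) ≤ Q := by
      rw [div_le_iff₀ (by positivity)]
      nlinarith
    have e3 : (h : ℝ) * (1 / (D + 1)) ≤ h / D := by
      rw [mul_one_div]
      apply div_le_div_of_nonneg_left (by positivity) hD0 (by linarith)
    linarith
  rw [h2]
  linarith

end Pool.Agent.K9h10.LR
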