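import Mathlib
import Pool.Agent.K9h10.LR.D1

/-!
# Sums over sparse sequences of functions constant on long cells
-/

set_option autoImplicit false

namespace Pool.Agent.K9h10.LR

open Finset

lemma abel_mono (ρ : ℕ → ℂ) (w : ℕ → ℝ) (R : ℝ) (hw : ∀ j, w (j + 1) ≤ w j) (J : ℕ)
    (h0 : ρ 0 = 0) (hρ : ∀ j ≤ J, ‖ρ j‖ ≤ R) :
    ‖∑ j ∈ range J, (w j : ℂ) * (ρ (j + 1) - ρ j) - (w J : ℂ) * ρ J‖ ≤ R * (w 0 - w J) := by
  induction J with
  | zero => simp [h0]
  | succ J ih =>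
    have h1 := ih (fun j hj => hρ j (by omega))
    rw [sum_range_succ]
    have e : ∑ j ∈ range J, (w j : ℂ) * (ρ (j + 1) - ρ j) + (w J : ℂ) * (ρ (J + 1) - ρ J) - (w (J + 1) : ℂ) * ρ (J + 1) =
        (∑ j ∈ range J, (w j : ℂ) * (ρ (j + 1) - ρ j) - (w J : ℂ) * ρ J) + ((w J - w (J + 1) : ℝ) : ℂ) * ρ (J + 1) := by
      push_cast
      ring
    rw [e]
    refine (norm_add_le _ _).trans ?_
    have h2 : ‖((w J - w (J + 1) : ℝ) : ℂ) * ρ (J + 1)‖ ≤ (w J - w (J + 1)) * R := by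
      rw [norm_mul, Complex.norm_real, Real.norm_eq_abs, abs_of_nonneg (by linarith [hw J])]
      exact mul_le_mul_of_nonneg_left (hρ _ le_rfl) (by linarith [hw J])
    linarith

/-- the sum of a function, constant on the cells of length `h`, over a convex sequence -/
theorem samp (x : ℕ → ℤ) (s : ℤ → ℂ) (h : ℤ) (hh : 0 < h) (κ : ℂ) (S0 R : ℝ) (hS0 : 0 ≤ S0) (J : ℕ)
    (hx : ∀ j, x j < x (j + 1)) (hconv : ∀ j, x (j + 1) - x j ≤ x (j + 2) - x (j + 1))
    (hs : ∀ t t' : ℤ, t / h = t' / h → s t = s t') (hsb : ∀ j < J, ∀ t ∈ Ico (x j) (x (j + 1)), ‖s t‖ ≤ S0)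
    (hP : ∀ j ≤ J, ‖∑ t ∈ Ico (x 0) (x j), s t - κ * ((x j - x 0 : ℤ) : ℂ)‖ ≤ R) :
    ‖∑ j ∈ range J, s (x j) - κ * J‖ ≤ 2 * S0 * ((x J / h - x 0 / h : ℤ) : ℝ) + R / ((x 1 - x 0 : ℤ) : ℝ) := by
  have hmono : ∀ i j : ℕ, i ≤ j → x i ≤ x j := by
    intro i j hij
    induction j, hij using Nat.le_induction with
    | base => exact le_rfl
    | succ j _ ih => exact ih.trans (hx j).le
  have hR : 0 ≤ R := (norm_nonneg _).trans (hP 0 (Nat.zero_le _))
  obtain ⟨w, hw⟩ : ∃ w : ℕ → ℝ, w = fun j => 1 / ((x (j + 1) - x j : ℤ) : ℝ) := ⟨_, rfl⟩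
  have hd0 : ∀ j, (0 : ℝ) < ((x (j + 1) - x j : ℤ) : ℝ) := by
    intro j
    have : 0 < x (j + 1) - x j := by linarith [hx j]
    exact_mod_cast this
  have hw1 : ∀ j, w (j + 1) ≤ w j := by
    intro j
    rw [hw]
    apply one_div_le_one_div_of_le (hd0 j)
    exact_mod_cast hconv j
  have hw0 : ∀ j, 0 ≤ w j := by
    intro j
    rw [hw]
    have := hd0 j
    positivity
  obtain ⟨ρ, hρ⟩ : ∃ ρ : ℕ → ℂ, ρ = fun j => ∑ t ∈ Ico (x 0) (x j), s t - κ * ((x j - x 0 : ℤ) : ℂ) := ⟨_, rfl⟩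
  have hρ0 : ρ 0 = 0 := by rw [hρ]; simp
  have hab := abel_mono ρ w R hw1 J hρ0 (fun j hj => by rw [hρ]; exact hP j hj)
  have hρJ : ‖ρ J‖ ≤ R := by rw [hρ]; exact hP J le_rfl
  -- termwise comparison
  have h1 : ∀ j ∈ range J, ‖s (x j) - κ - (w j : ℂ) * (ρ (j + 1) - ρ j)‖ ≤
      2 * S0 * ((x (j + 1) / h - x j / h : ℤ) : ℝ) := by
    intro j hj
    rw [mem_range] at hj
    have e1 : ρ (j + 1) - ρ j = ∑ t ∈ Ico (x j) (x (j + 1)), s t - κ * ((x (j + 1) - x j : ℤ) : ℂ) := by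
      rw [hρ]
      have : ∑ t ∈ Ico (x 0) (x (j + 1)), s t = ∑ t ∈ Ico (x 0) (x j), s t + ∑ t ∈ Ico (x j) (x (j + 1)), s t := by
        rw [← sum_union]
        · congr 1
          ext t
          simp only [mem_Ico, mem_union]
          have := hmono 0 j (Nat.zero_le _)
          have := hx j
          omega
        · rw [disjoint_left]
          intro t ht ht'
          rw [mem_Ico] at ht ht'
          omega
      simp only [this]
      push_cast
      ring
    have hdC : ((x (j + 1) - x j : ℤ) : ℂ) ≠ 0 := by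
      have := (hd0 j).ne'
      exact_mod_cast this
    have e2 : (w j : ℂ) * (κ * ((x (j + 1) - x j : ℤ) : ℂ)) = κ := by
      rw [hw]
      push_cast
      push_cast at hdC
      field_simp
    have hcard : (((Ico (x j) (x (j + 1))).card : ℕ) : ℝ) = ((x (j + 1) - x j : ℤ) : ℝ) := by
      rw [Int.card_Ico]
      have : (((x (j + 1) - x j).toNat : ℕ) : ℤ) = x (j + 1) - x j := by have := hx j; omega
      exact_mod_cast congrArg (fun z : ℤ => (z : ℝ)) this
    have e3 : s (x j) - κ - (w j : ℂ) * (ρ (j + 1) - ρ j) =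
        (w j : ℂ) * ∑ t ∈ Ico (x j) (x (j + 1)), (s (x j) - s t) := by
      have e4 : (w j : ℂ) * ∑ _t ∈ Ico (x j) (x (j + 1)), s (x j) = s (x j) := by
        rw [sum_const, nsmul_eq_mul]
        have : (((Ico (x j) (x (j + 1))).card : ℕ) : ℂ) = ((x (j + 1) - x j : ℤ) : ℂ) := by
          exact_mod_cast congrArg (fun z : ℝ => (z : ℂ)) hcard
        rw [this, hw]
        push_cast
        push_cast at hdC
        field_simp
      rw [sum_sub_distrib, e1]
      linear_combination (-1) * e4 + e2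
    rw [e3]
    have hcells : x j / h ≤ x (j + 1) / h := Int.ediv_le_ediv hh (hx j).le
    rcases hcells.eq_or_lt with hc | hc
    · have h2 : ∑ t ∈ Ico (x j) (x (j + 1)), (s (x j) - s t) = 0 := by
        apply sum_eq_zero
        intro t ht
        rw [mem_Ico] at ht
        have k1 := Int.ediv_le_ediv hh ht.1
        have k2 := Int.ediv_le_ediv hh ht.2.le
        rw [hs (x j) t (by omega), sub_self]
      rw [h2, mul_zero, norm_zero, hc]
      simp
    · have h2 : ‖(w j : ℂ) * ∑ t ∈ Ico (x j) (x (j + 1)), (s (x j) - s t)‖ ≤ 2 * S0 := by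
        rw [norm_mul, Complex.norm_real, Real.norm_eq_abs, abs_of_nonneg (hw0 j)]
        have h3 : ‖∑ t ∈ Ico (x j) (x (j + 1)), (s (x j) - s t)‖ ≤ ((x (j + 1) - x j : ℤ) : ℝ) * (2 * S0) := by
          refine (norm_sum_le _ _).trans ?_
          have h4 : ∀ t ∈ Ico (x j) (x (j + 1)), ‖s (x j) - s t‖ ≤ 2 * S0 := by
            intro t ht
            refine (norm_sub_le _ _).trans ?_
            have k1 := hsb j hj t ht
            have k2 := hsb j hj (x j) (mem_Ico.2 ⟨le_rfl, hx j⟩)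
            linarith
          refine (sum_le_card_nsmul _ _ _ h4).trans ?_
          rw [nsmul_eq_mul, hcard]
        have h5 : w j * (((x (j + 1) - x j : ℤ) : ℝ) * (2 * S0)) = 2 * S0 := by
          rw [hw]
          have := (hd0 j).ne'
          field_simp
        calc w j * _ ≤ w j * (((x (j + 1) - x j : ℤ) : ℝ) * (2 * S0)) :=
              mul_le_mul_of_nonneg_left h3 (hw0 j)
          _ = 2 * S0 := h5
      refine h2.trans ?_
      have h6 : (1 : ℝ) ≤ ((x (j + 1) / h - x j / h : ℤ) : ℝ) := by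
        have : 1 ≤ x (j + 1) / h - x j / h := by omega
        exact_mod_cast this
      nlinarith
  have h2 : ∑ j ∈ range J, s (x j) - κ * J = ∑ j ∈ range J, (s (x j) - κ - (w j : ℂ) * (ρ (j + 1) - ρ j)) +
      ((∑ j ∈ range J, (w j : ℂ) * (ρ (j + 1) - ρ j) - (w J : ℂ) * ρ J) + (w J : ℂ) * ρ J) := by
    rw [sum_sub_distrib, sum_sub_distrib, sum_const, card_range, nsmul_eq_mul]
    ring
  rw [h2]
  refine (norm_add_le _ _).trans (add_le_add ?_ ?_)
  · refine (norm_sum_le _ _).trans ((sum_le_sum h1).trans ?_)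
    rw [← mul_sum]
    apply le_of_eq
    congr 1
    have h3 := sum_range_sub (fun j => ((x j / h : ℤ) : ℝ)) J
    push_cast at h3 ⊢
    rw [← h3]
  · refine (norm_add_le _ _).trans ?_
    have h3 : ‖(w J : ℂ) * ρ J‖ ≤ w J * R := by
      rw [norm_mul, Complex.norm_real, Real.norm_eq_abs, abs_of_nonneg (hw0 J)]
      exact mul_le_mul_of_nonneg_left hρJ (hw0 J)
    have h4 : R / ((x 1 - x 0 : ℤ) : ℝ) = R * w 0 := by
      rw [hw]
      ring
    rw [h4]
    linarith

end Pool.Agent.K9h10.LR
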