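import Mathlib
import Pool.Agent.K9h10.LR.A2

/-!
# The mean square of the error term, with explicit parameters
-/

set_option autoImplicit false

namespace Pool.Agent.K9h10.LR

open Finset
open Pool.Agent.Helper112

/-- the model on the cells of length `h` -/
noncomputable def md (h D : ℕ) (u : ℤ → ℂ) (x : ℤ) : ℂ := mdl ((x / h) * h) h D u x

/-- the difference -/
noncomputable def Er (h D : ℕ) (u : ℤ → ℂ) (x : ℤ) : ℂ := u x - md h D u x

lemma cell_of (h : ℕ) (k : ℤ) {j : ℕ} (hj : j ∈ range h) : (k * h + j) / (h : ℤ) = k := by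
  rw [mem_range] at hj
  have hh : (0 : ℤ) < h := by omega
  rw [cell_iff hh]
  constructor <;> omega

lemma Er_cell (h D : ℕ) (u : ℤ → ℂ) (k : ℤ) {j : ℕ} (hj : j ∈ range h) :
    Er h D u (k * h + j) = u (k * h + j) - mdl (k * h) h D u (k * h + j) := by
  unfold Er md
  rw [cell_of h k hj]

lemma Er_ES (h D : ℕ) (u : ℤ → ℂ) (k : ℤ) (t : ℝ) :
    ES (k * h) h (Er h D u) t = ES (k * h) h (fun x => u x - mdl (k * h) h D u x) t := by
  unfold ES
  exact sum_congr rfl fun j hj => by rw [Er_cell h D u k hj]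

theorem V1 {a b X N N' : ℤ} {h D L0 : ℕ} (ha : 0 < a) (hb : 0 ≤ b) (hN : 0 < N) (hNN : N ≤ N') (hN2 : N' ≤ 2 * N)
    (hX : 0 ≤ X) (hh : 1 ≤ h) (hD : 1 ≤ D) (hDh : (D : ℝ) ^ 2 ≤ h) (hqh : 2 * a * N ≤ h) (hDN : (D : ℤ) ≤ 2 * a * N)
    (hL0 : 0 < L0) (u : ℤ → ℂ) (U G lam : ℝ) (hU : 0 ≤ U) (hlam : 0 < lam)
    (hu : ∀ x : ℤ, 0 ≤ x → (x : ℝ) ≤ G + h → ‖u x‖ ≤ U) (hG : ((gq a b N' + X : ℤ) : ℝ) ≤ G)
    (hlow : 0 ≤ gq a b N - X) (hhG : (h : ℝ) ≤ G) :
    ∑ c ∈ Icc (-X) X, ‖∑ n ∈ Ioc N N', Er h D u (gq a b n + c)‖ ^ 2 ≤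
      (2 * X + 1) * N * (1 + 2 * L0) * (2 * D ^ 2 * U) ^ 2 + N * (lam * (2 * G * (290 * U ^ 2))) +
      lam⁻¹ * (2 * (2 * (X : ℝ) / h) * (((X : ℝ) / (a * N) + 1) *
          (2 * G / h * ((1 + Real.log (2 * a * N)) * (D * (D ^ 4 * U) ^ 2 +
            6 * (290 * (h * U ^ 2)) * (h / D + 2 * (2 * a * N)))))) +
        8 * (N * ((G + 1) * (((h : ℝ) / (2 * a * L0) + 1) * (2 * D ^ 2 * U)) ^ 2))) := by
  classical
  have ha' : (0 : ℝ) < a := by exact_mod_cast ha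
  have hN' : (0 : ℝ) < N := by exact_mod_cast hN
  have hh' : (0 : ℝ) < h := by exact_mod_cast hh
  have hhZ : (0 : ℤ) < h := by exact_mod_cast hh
  have hX' : (0 : ℝ) ≤ X := by exact_mod_cast hX
  have hD' : (1 : ℝ) ≤ D := by exact_mod_cast hD
  have hG0 : 0 < G := lt_of_lt_of_le hh' hhG
  have hD2 : (1 : ℝ) ≤ (D : ℝ) ^ 2 := one_le_pow₀ hD'
  -- cells
  have hKK : ∀ k ∈ KK a b X N N' h, 0 ≤ k * (h : ℤ) ∧ ((k * (h : ℤ) : ℤ) : ℝ) ≤ G := by
    intro k hk
    unfold KK at hk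
    rw [mem_Icc] at hk
    have h1 : 0 ≤ (gq a b N - X) / (h : ℤ) := Int.ediv_nonneg hlow hhZ.le
    have h2 : k * (h : ℤ) ≤ gq a b N' + X := by
      calc k * (h : ℤ) ≤ ((gq a b N' + X) / (h : ℤ)) * h := mul_le_mul_of_nonneg_right hk.2 hhZ.le
        _ ≤ gq a b N' + X := Int.ediv_mul_le _ hhZ.ne'
    refine ⟨mul_nonneg (h1.trans hk.1) hhZ.le, ?_⟩
    refine le_trans ?_ hG
    exact_mod_cast h2
  have hcu : ∀ k ∈ KK a b X N N' h, ∀ j ∈ range h, ‖u (k * h + j)‖ ≤ U := by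
    intro k hk j hj
    obtain ⟨g1, g2⟩ := hKK k hk
    rw [mem_range] at hj
    apply hu
    · omega
    · push_cast at g2 ⊢
      have : (j : ℝ) ≤ h := by exact_mod_cast hj.le
      linarith
  have hcellE : ∀ k ∈ KK a b X N N' h, ∀ j ∈ range h, ‖Er h D u (k * h + j)‖ ≤ 2 * D ^ 2 * U := by
    intro k hk j hj
    rw [Er_cell h D u k hj]
    refine (norm_sub_le _ _).trans ?_
    have g1 := hcu k hk j hj
    have g2 := mdl_le (k * h) h D hh u U hU (hcu k hk) (k * h + j)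
    nlinarith
  have hdec : ∀ x ∈ Ms a b X N N', ∃ k ∈ KK a b X N N' h, ∃ j ∈ range h, x = k * h + j := by
    intro x hx
    unfold Ms at hx
    rw [mem_Icc] at hx
    refine ⟨x / h, ?_, (x % h).toNat, ?_, ?_⟩
    · unfold KK
      rw [mem_Icc]
      exact ⟨Int.ediv_le_ediv hhZ hx.1, Int.ediv_le_ediv hhZ hx.2⟩
    · rw [mem_range]
      have g1 := Int.emod_nonneg x hhZ.ne'
      have g2 := Int.emod_lt_of_pos x hhZ
      omega
    · have g1 := Int.emod_nonneg x hhZ.ne'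
      have g2 := Int.emod_add_mul_ediv x h
      rw [Int.toNat_of_nonneg g1]
      linarith
  have hE : ∀ x ∈ Ms a b X N N', ‖Er h D u x‖ ≤ 2 * D ^ 2 * U := by
    intro x hx
    obtain ⟨k, hk, j, hj, rfl⟩ := hdec x hx
    exact hcellE k hk j hj
  have hKc : ((KK a b X N N' h).card : ℝ) ≤ 2 * G / h := by
    have g1 : ((KK a b X N N' h).card : ℝ) ≤ G / h + 1 := by
      apply card_le_diam _ _ (by positivity)
      intro x hx y hy
      rw [le_div_iff₀ hh']
      have k1 := (hKK x hx).1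
      have k2 := (hKK y hy).2
      push_cast at k2 ⊢
      have k3 : (0 : ℝ) ≤ x * h := by exact_mod_cast k1
      linarith
    have g2 : (1 : ℝ) ≤ G / h := by rwa [le_div_iff₀ hh', one_mul]
    have g3 : 2 * G / h = G / h + G / h := by ring
    linarith
  have hMc : ((Ms a b X N N').card : ℝ) ≤ G + 1 := by
    apply card_le_diam _ _ hG0.le
    intro x hx y hy
    unfold Ms at hx hy
    rw [mem_Icc] at hx hy
    refine le_trans ?_ hG
    have : y - x ≤ gq a b N' + X := by linarith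
    exact_mod_cast this
  have hV : ∀ k ∈ KK a b X N N' h, ∑ j ∈ range h, ‖Er h D u (k * h + j)‖ ^ 2 ≤ 290 * (h * U ^ 2) := by
    intro k hk
    refine le_trans (le_of_eq ?_) (diff_sq (k * h) h D hh hD hDh u U hU (hcu k hk))
    exact sum_congr rfl fun j hj => by rw [Er_cell h D u k hj]
  have hMsq : ∑ m ∈ Ms a b X N N', ‖Er h D u m‖ ^ 2 ≤ 2 * G * (290 * U ^ 2) := by
    have g1 : ∑ m ∈ Ms a b X N N', ‖Er h D u m‖ ^ 2 ≤
        ∑ k ∈ KK a b X N N' h, ∑ j ∈ range h, ‖Er h D u (k * h + j)‖ ^ 2 := by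
      have hmap : ∀ x ∈ Ms a b X N N', x / h ∈ KK a b X N N' h := by
        intro x hx
        unfold Ms at hx
        rw [mem_Icc] at hx
        unfold KK
        rw [mem_Icc]
        exact ⟨Int.ediv_le_ediv hhZ hx.1, Int.ediv_le_ediv hhZ hx.2⟩
      rw [← sum_fiberwise_of_maps_to hmap]
      refine sum_le_sum fun k _ => ?_
      have e1 := sum_Ico_range (k * h) h (fun x => ‖Er h D u x‖ ^ 2)
      rw [← e1]
      apply sum_le_sum_of_subset_of_nonneg
      · intro x hx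
        rw [mem_filter] at hx
        rw [mem_Ico]
        exact (cell_iff hhZ _ _).1 hx.2
      · intro x _ _
        positivity
    refine g1.trans ((sum_le_card_nsmul _ _ _ hV).trans ?_)
    rw [nsmul_eq_mul]
    calc ((KK a b X N N' h).card : ℝ) * (290 * (h * U ^ 2)) ≤ 2 * G / h * (290 * (h * U ^ 2)) := by gcongr
      _ = 2 * G * (290 * U ^ 2) := by field_simp
  -- the classes
  obtain ⟨Q, hQ⟩ : ∃ Q : ℕ, Q = (2 * a * N).toNat := ⟨_, rfl⟩
  have hq0 : 0 < 2 * a * N := by positivity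
  have hQZ : (Q : ℤ) = 2 * a * N := by rw [hQ]; exact Int.toNat_of_nonneg hq0.le
  have hQR : (Q : ℝ) = 2 * a * N := by exact_mod_cast congrArg (fun z : ℤ => (z : ℝ)) hQZ
  have hDQ : D ≤ Q := by
    have : (D : ℤ) ≤ Q := by rw [hQZ]; exact hDN
    exact_mod_cast this
  have hbdh : ∀ k ∈ KK a b X N N' h, ∑ l ∈ Ioc 0 N, Ph (Er h D u) h (2 * a * l) k ≤
      (1 + Real.log (2 * a * N)) * (D * (D ^ 4 * U) ^ 2 + 6 * (290 * (h * U ^ 2)) * (h / D + 2 * (2 * a * N))) := by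
    intro k hk
    have g1 := bdh_cell (Er h D u) k h D Q hD hDQ (290 * (h * U ^ 2)) (D ^ 4 * U) (hV k hk) (fun r hr => by
      rw [Er_ES]
      exact ES_mdl (k * h) h D hh hD u U hU (hcu k hk) r hr)
    rw [hQR] at g1
    refine le_trans ?_ g1
    have hinj : Set.InjOn (fun l : ℤ => (2 * a * l).toNat) (Ioc 0 N : Finset ℤ) := by
      intro l hl l' hl' hll
      rw [mem_coe, mem_Ioc] at hl hl'
      simp only at hll
      have k1 : 0 < 2 * a * l := by have := hl.1; positivity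
      have k2 : 0 < 2 * a * l' := by have := hl'.1; positivity
      have k3 : 2 * a * l = 2 * a * l' := by omega
      exact mul_left_cancel₀ (by positivity : (2 * a : ℤ) ≠ 0) k3
    have e1 : ∑ l ∈ Ioc 0 N, Ph (Er h D u) h (2 * a * l) k =
        ∑ q ∈ (Ioc 0 N).image (fun l : ℤ => (2 * a * l).toNat), Ph (Er h D u) h q k := by
      rw [sum_image hinj]
      refine sum_congr rfl fun l hl => ?_
      rw [mem_Ioc] at hl
      have k1 : 0 < 2 * a * l := by have := hl.1; positivity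
      rw [Int.toNat_of_nonneg k1.le]
    rw [e1]
    apply sum_le_sum_of_subset_of_nonneg
    · intro q hq
      rw [mem_image] at hq
      obtain ⟨l, hl, rfl⟩ := hq
      rw [mem_Ioc] at hl
      rw [mem_Icc]
      have k1 : 0 < 2 * a * l := by have := hl.1; positivity
      have k2 : 2 * a * l ≤ Q := by rw [hQZ]; nlinarith [hl.2]
      omega
    · intro q _ _
      exact Ph_nonneg _ _ _ _
  have hmain := disp (N' := N') (h := h) (L0 := L0) ha hb hN hNN hN2 hX hhZ hqh (by exact_mod_cast hL0) (Er h D u)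
    (2 * D ^ 2 * U) (2 * (X : ℝ) / h) lam (by positivity) hlam hE le_rfl
  refine hmain.trans ?_
  have hll : (0 : ℝ) ≤ Real.log (2 * a * N) := by
    rw [← hQR]
    exact Real.log_natCast_nonneg Q
  have g1 : ∑ k ∈ KK a b X N N' h, ∑ l ∈ Ioc 0 N, Ph (Er h D u) h (2 * a * l) k ≤
      2 * G / h * ((1 + Real.log (2 * a * N)) * (D * (D ^ 4 * U) ^ 2 +
        6 * (290 * (h * U ^ 2)) * (h / D + 2 * (2 * a * N)))) := by
    refine (sum_le_card_nsmul _ _ _ hbdh).trans ?_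
    rw [nsmul_eq_mul]
    gcongr
  have hLc : ((L0 : ℤ) : ℝ) = (L0 : ℝ) := by norm_cast
  have hhc : ((h : ℤ) : ℝ) = (h : ℝ) := by norm_cast
  rw [hLc, hhc]
  gcongr

end Pool.Agent.K9h10.LR
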