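import Mathlib
import Pool.Agent.K9h10.LR.V1
import Pool.Agent.K9h10.LR.S1

/-!
# The main term, with explicit parameters
-/

set_option autoImplicit false

namespace Pool.Agent.K9h10.LR

open Finset
open Pool.Agent.Helper112

/-- the local averages of `u(t) e(t b / d)` -/
noncomputable def sr (h : ℕ) (u : ℤ → ℂ) (r : Σ _ : ℕ, ℕ) (x : ℤ) : ℂ := (1 / (h : ℂ)) * ES ((x / h) * h) h u (fv r)

lemma md_eq (h D : ℕ) (u : ℤ → ℂ) (x : ℤ) : md h D u x = ∑ r ∈ FR D, sr h u r x * ee (-((x : ℝ) * fv r)) := by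
  unfold md mdl sr
  rw [mul_sum]
  exact sum_congr rfl fun r _ => by ring

lemma sr_le (h : ℕ) (hh : 1 ≤ h) (u : ℤ → ℂ) (r : Σ _ : ℕ, ℕ) (U : ℝ) (x : ℤ)
    (hu : ∀ j ∈ range h, ‖u ((x / h) * h + j)‖ ≤ U) : ‖sr h u r x‖ ≤ U := by
  have hh0 : (0 : ℝ) < h := by exact_mod_cast hh
  unfold sr
  rw [norm_mul, norm_div, norm_one, Complex.norm_natCast]
  calc 1 / (h : ℝ) * ‖ES ((x / h) * h) h u (fv r)‖ ≤ 1 / (h : ℝ) * (h * U) := by
        gcongr
        exact ES_le _ h u U hu _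
    _ = U := by field_simp

/-- the partial sums of the local averages -/
lemma sr_cells (h : ℕ) (hh : 1 ≤ h) (u : ℤ → ℂ) (r : Σ _ : ℕ, ℕ) (k : ℕ) :
    ∑ t ∈ Ico (0 : ℤ) (k * h), sr h u r t = ∑ t ∈ Ico (0 : ℤ) (k * h), u t * ee ((t : ℝ) * fv r) := by
  have hhC : (h : ℂ) ≠ 0 := by exact_mod_cast (by omega : h ≠ 0)
  induction k with
  | zero => simp
  | succ k ih =>
    have e1 : ∀ F : ℤ → ℂ, ∑ t ∈ Ico (0 : ℤ) (((k + 1 : ℕ) : ℤ) * h), F t =
        ∑ t ∈ Ico (0 : ℤ) (k * h), F t + ∑ t ∈ Ico ((k : ℤ) * h) (k * h + h), F t := by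
      intro F
      rw [← sum_union]
      · congr 1
        ext t
        simp only [mem_Ico, mem_union]
        push_cast
        have : (0 : ℤ) ≤ k * h := by positivity
        constructor
        · rintro ⟨h1, h2⟩
          rcases lt_or_ge t (k * h) with h3 | h3
          · exact Or.inl ⟨h1, h3⟩
          · exact Or.inr ⟨h3, by linarith⟩
        · rintro (⟨h1, h2⟩ | ⟨h1, h2⟩)
          · refine ⟨h1, ?_⟩
            have : (0 : ℤ) ≤ h := by positivity
            linarith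
          · exact ⟨by linarith, by linarith⟩
      · rw [disjoint_left]
        intro t ht ht'
        rw [mem_Ico] at ht ht'
        omega
    rw [e1, e1, ih]
    congr 1
    rw [sum_Ico_range, sum_Ico_range]
    have e2 : ∀ j ∈ range h, sr h u r ((k : ℤ) * h + j) = (1 / (h : ℂ)) * ES ((k : ℤ) * h) h u (fv r) := by
      intro j hj
      unfold sr
      rw [cell_of h k hj]
    rw [sum_congr rfl e2, sum_const, card_range, nsmul_eq_mul, ← mul_assoc, mul_one_div_cancel hhC, one_mul]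
    rfl

lemma sr_partial (h : ℕ) (hh : 1 ≤ h) (u : ℤ → ℂ) (r : Σ _ : ℕ, ℕ) (U G : ℝ) (hU : 0 ≤ U)
    (hu : ∀ x : ℤ, 0 ≤ x → (x : ℝ) ≤ G + h → ‖u x‖ ≤ U) (y : ℤ) (hy0 : 0 ≤ y) (hy : (y : ℝ) ≤ G) :
    ‖∑ t ∈ Ico 0 y, sr h u r t - ∑ t ∈ Ico 0 y, u t * ee ((t : ℝ) * fv r)‖ ≤ 2 * h * U := by
  have hhZ : (0 : ℤ) < h := by exact_mod_cast hh
  obtain ⟨k, hk⟩ : ∃ k : ℕ, (k : ℤ) = y / h := by
    obtain ⟨k, hk⟩ := Int.eq_ofNat_of_zero_le (Int.ediv_nonneg hy0 hhZ.le)
    exact ⟨k, hk.symm⟩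
  have h1 := (cell_iff hhZ y k).1 hk.symm
  have e1 : ∀ F : ℤ → ℂ, ∑ t ∈ Ico (0 : ℤ) y, F t =
      ∑ t ∈ Ico (0 : ℤ) (k * h), F t + ∑ t ∈ Ico ((k : ℤ) * h) y, F t := by
    intro F
    rw [← sum_union]
    · congr 1
      ext t
      simp only [mem_Ico, mem_union]
      have : (0 : ℤ) ≤ k * h := by positivity
      omega
    · rw [disjoint_left]
      intro t ht ht'
      rw [mem_Ico] at ht ht'
      omega
  rw [e1, e1, sr_cells h hh]
  have e2 : ∀ p q s : ℂ, p + q - (p + s) = q - s := fun p q s => by ring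
  rw [e2, ← sum_sub_distrib]
  refine (norm_sum_le _ _).trans ?_
  have h2 : ∀ t ∈ Ico ((k : ℤ) * h) y, ‖sr h u r t - u t * ee ((t : ℝ) * fv r)‖ ≤ 2 * U := by
    intro t ht
    rw [mem_Ico] at ht
    refine (norm_sub_le _ _).trans ?_
    have k0 : (0 : ℤ) ≤ k * h := by positivity
    have k1 : t / (h : ℤ) = k := (cell_iff hhZ t k).2 ⟨ht.1, by linarith⟩
    have k2 : ‖sr h u r t‖ ≤ U := by
      apply sr_le h hh u r U t
      intro j hj
      rw [mem_range] at hj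
      rw [k1]
      apply hu
      · omega
      · have : ((k : ℤ) * h + j : ℤ) ≤ y + h := by omega
        have : ((((k : ℤ) * h + j : ℤ)) : ℝ) ≤ ((y + h : ℤ) : ℝ) := by exact_mod_cast this
        push_cast at this ⊢
        linarith
    have k3 : ‖u t * ee ((t : ℝ) * fv r)‖ ≤ U := by
      rw [norm_mul, ls_norm_ee, mul_one]
      apply hu
      · omega
      · have : (t : ℝ) ≤ y := by exact_mod_cast ht.2.le
        have : (0 : ℝ) ≤ h := by positivity
        linarith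
    linarith
  refine (sum_le_card_nsmul _ _ _ h2).trans ?_
  rw [nsmul_eq_mul, Int.card_Ico]
  have h3 : (((y - k * h).toNat : ℕ) : ℝ) ≤ h := by
    have : ((y - k * h).toNat : ℤ) ≤ h := by omega
    exact_mod_cast this
  calc (((y - k * h).toNat : ℕ) : ℝ) * (2 * U) ≤ h * (2 * U) := by gcongr
    _ = 2 * h * U := by ring

/-- sums in blocks -/
lemma sum_blocks (F : ℕ → ℂ) (d J : ℕ) :
    ∑ i ∈ range (d * J), F i = ∑ ν ∈ range d, ∑ j ∈ range J, F (ν + d * j) := by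
  induction J with
  | zero => simp
  | succ J ih =>
    rw [mul_add, mul_one, sum_range_add, ih, ← sum_add_distrib]
    refine sum_congr rfl fun ν _ => ?_
    rw [sum_range_succ, add_comm (d * J) ν]

lemma sum_shift (φ : ℕ → ℂ) (d : ℕ) (hφ : ∀ n, φ (n + d) = φ n) (m : ℕ) :
    ∑ ν ∈ range d, φ (m + ν) = ∑ ν ∈ range d, φ ν := by
  induction m with
  | zero => simp
  | succ m ih =>
    rw [← ih]
    have e1 := sum_range_succ (fun ν => φ (m + ν)) d
    have e2 := sum_range_succ' (fun ν => φ (m + ν)) d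
    rw [e1] at e2
    have e3 : φ (m + d) = φ (m + 0) := by rw [add_zero]; exact hφ m
    rw [e3] at e2
    have e4 : ∑ ν ∈ range d, φ (m + ν) = ∑ ν ∈ range d, φ (m + (ν + 1)) := by
      exact add_right_cancel e2
    rw [e4]
    refine sum_congr rfl fun ν _ => ?_
    congr 1
    ring

/-- the phases -/
noncomputable def phs (a b c : ℤ) (r : Σ _ : ℕ, ℕ) (n : ℕ) : ℂ := ee (-(((gq a b n + c : ℤ) : ℝ) * fv r))

lemma phs_per (a b c : ℤ) (r : Σ _ : ℕ, ℕ) (hr : 0 < r.1) (n : ℕ) : phs a b c r (n + r.1) = phs a b c r n := by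
  unfold phs fv gq
  have hd : (r.1 : ℝ) ≠ 0 := by exact_mod_cast hr.ne'
  have e : -(((a * ((n + r.1 : ℕ) : ℤ) ^ 2 + b * ((n + r.1 : ℕ) : ℤ) + c : ℤ) : ℝ) * ((r.2 : ℝ) / r.1)) =
      -(((a * (n : ℤ) ^ 2 + b * (n : ℤ) + c : ℤ) : ℝ) * ((r.2 : ℝ) / r.1)) +
      ((-((a * (2 * n + r.1) + b) * r.2) : ℤ) : ℝ) := by
    push_cast
    field_simp
    ring
  rw [e, ls_ee_add, ls_ee_int, mul_one]

lemma phs_per' (a b c : ℤ) (r : Σ _ : ℕ, ℕ) (hr : 0 < r.1) (n j : ℕ) :
    phs a b c r (n + r.1 * j) = phs a b c r n := by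
  induction j with
  | zero => simp
  | succ j ih =>
    have : n + r.1 * (j + 1) = n + r.1 * j + r.1 := by ring
    rw [this, phs_per a b c r hr, ih]

/-- the local factor at one fraction -/
noncomputable def om (a b c : ℤ) (r : Σ _ : ℕ, ℕ) : ℂ := (1 / (r.1 : ℂ)) * ∑ ν ∈ range r.1, phs a b c r ν

/-- the truncated singular series -/
noncomputable def SS (D : ℕ) (κ : (Σ _ : ℕ, ℕ) → ℂ) (a b c : ℤ) : ℂ := ∑ r ∈ FR D, κ r * om a b c r

lemma phs_norm (a b c : ℤ) (r : Σ _ : ℕ, ℕ) (n : ℕ) : ‖phs a b c r n‖ = 1 := ls_norm_ee _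

lemma om_norm (a b c : ℤ) (r : Σ _ : ℕ, ℕ) (hr : 0 < r.1) : ‖om a b c r‖ ≤ 1 := by
  have hd : (0 : ℝ) < r.1 := by exact_mod_cast hr
  unfold om
  rw [norm_mul, norm_div, norm_one, Complex.norm_natCast]
  have h1 : ‖∑ ν ∈ range r.1, phs a b c r ν‖ ≤ r.1 := by
    refine (norm_sum_le _ _).trans ?_
    simp only [phs_norm, sum_const, card_range, nsmul_eq_mul, mul_one]
    exact le_rfl
  calc 1 / (r.1 : ℝ) * ‖∑ ν ∈ range r.1, phs a b c r ν‖ ≤ 1 / (r.1 : ℝ) * r.1 := by gcongr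
    _ = 1 := by field_simp

/-- the main term at one fraction -/
lemma main_one {a b c : ℤ} (ha : 0 < a) (hb : 0 ≤ b) (N M h : ℕ) (hN : 1 ≤ N) (hh : 1 ≤ h) (r : Σ _ : ℕ, ℕ)
    (hr : 0 < r.1) (hMN : M ≤ N) (hrN : r.1 ≤ N) (u : ℤ → ℂ) (U G W : ℝ) (hU : 0 ≤ U) (κ : ℂ) (hκ : ‖κ‖ ≤ 1)
    (hlow : 0 ≤ gq a b N + c) (hG : ((gq a b (3 * N) + c : ℤ) : ℝ) ≤ G)
    (hu : ∀ x : ℤ, 0 ≤ x → (x : ℝ) ≤ G + h → ‖u x‖ ≤ U)
    (hW : ∀ y : ℤ, gq a b N + c ≤ y → (y : ℝ) ≤ G → ‖∑ t ∈ Ico 0 y, u t * ee ((t : ℝ) * fv r) - κ * y‖ ≤ W) :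
    ‖∑ i ∈ range M, sr h u r (gq a b (N + 1 + i) + c) * phs a b c r (N + 1 + i) - κ * om a b c r * M‖ ≤
      r.1 * (2 * U * (G / h + 1) + 2 * (2 * h * U + W) / N + U + 1) := by
  have hN0 : (0 : ℝ) < N := by exact_mod_cast hN
  have hh0 : (0 : ℝ) < h := by exact_mod_cast hh
  have hhZ : (0 : ℤ) < h := by exact_mod_cast hh
  have hd0 : (0 : ℝ) < r.1 := by exact_mod_cast hr
  have hdC : (r.1 : ℂ) ≠ 0 := by exact_mod_cast hr.ne'
  obtain ⟨J, hJ⟩ : ∃ J, J = M / r.1 := ⟨_, rfl⟩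
  obtain ⟨e, he⟩ : ∃ e, e = M % r.1 := ⟨_, rfl⟩
  have hMJ : M = r.1 * J + e := by rw [hJ, he]; exact (Nat.div_add_mod M r.1).symm
  have her : e < r.1 := by rw [he]; exact Nat.mod_lt _ hr
  have hGmono : ∀ n : ℕ, N ≤ n → n ≤ 3 * N → gq a b N + c ≤ gq a b n + c ∧ ((gq a b n + c : ℤ) : ℝ) ≤ G := by
    intro n h1 h2
    have g1 := gq_mono ha hb (n := (N : ℤ)) (m := (n : ℤ)) (by positivity) (by exact_mod_cast h1)
    have g2 := gq_mono ha hb (n := (n : ℤ)) (m := (3 * N : ℤ)) (by positivity) (by exact_mod_cast h2)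
    refine ⟨by linarith, le_trans ?_ hG⟩
    have : gq a b n + c ≤ gq a b (3 * N) + c := by linarith
    exact_mod_cast this
  have hG0 : 0 ≤ G := by
    have := (hGmono N le_rfl (by omega)).2
    have h1 : (0 : ℝ) ≤ ((gq a b N + c : ℤ) : ℝ) := by exact_mod_cast hlow
    linarith
  have hW0 : 0 ≤ W := by
    have h1 := hW (gq a b N + c) le_rfl (hGmono N le_rfl (by omega)).2
    exact (norm_nonneg _).trans h1
  have hsrU : ∀ x : ℤ, 0 ≤ x → (x : ℝ) ≤ G → ‖sr h u r x‖ ≤ U := by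
    intro x hx0 hxG
    apply sr_le h hh u r U x
    intro j hj
    rw [mem_range] at hj
    have h1 : 0 ≤ x / (h : ℤ) := Int.ediv_nonneg hx0 hhZ.le
    have h2 : x / (h : ℤ) * h ≤ x := Int.ediv_mul_le _ hhZ.ne'
    have h3 : 0 ≤ x / (h : ℤ) * h := mul_nonneg h1 hhZ.le
    apply hu
    · omega
    · have : (x / (h : ℤ) * h + j : ℤ) ≤ x + h := by omega
      have : (((x / (h : ℤ) * h + j : ℤ)) : ℝ) ≤ ((x + h : ℤ) : ℝ) := by exact_mod_cast this
      push_cast at this ⊢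
      linarith
  -- the blocks
  have h1 : ∑ i ∈ range M, sr h u r (gq a b (N + 1 + i) + c) * phs a b c r (N + 1 + i) =
      ∑ ν ∈ range r.1, phs a b c r (N + 1 + ν) * ∑ j ∈ range J, sr h u r (gq a b (N + 1 + ν + r.1 * j) + c) +
      ∑ i ∈ range e, sr h u r (gq a b (N + 1 + (r.1 * J + i)) + c) * phs a b c r (N + 1 + (r.1 * J + i)) := by
    rw [hMJ, sum_range_add]
    push_cast
    congr 1
    have e1 := sum_blocks (fun i => sr h u r (gq a b (N + 1 + i) + c) * phs a b c r (N + 1 + i)) r.1 J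
    push_cast at e1
    rw [e1]
    refine sum_congr rfl fun ν _ => ?_
    rw [mul_sum]
    refine sum_congr rfl fun j _ => ?_
    have e2 : N + 1 + (ν + r.1 * j) = N + 1 + ν + r.1 * j := by ring
    have e3 : ((N : ℤ) + 1 + (ν + r.1 * j)) = (N : ℤ) + 1 + ν + r.1 * j := by ring
    rw [e2, e3, phs_per' a b c r hr]
    ring
  -- one class
  have h2 : ∀ ν ∈ range r.1, ‖∑ j ∈ range J, sr h u r (gq a b (N + 1 + ν + r.1 * j) + c) - κ * J‖ ≤
      2 * U * (G / h + 1) + 2 * (2 * h * U + W) / N := by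
    intro ν hν
    rw [mem_range] at hν
    rcases Nat.eq_zero_or_pos J with hJ0 | hJ0
    · rw [hJ0]
      simp only [range_zero, sum_empty, Nat.cast_zero, mul_zero, sub_zero, norm_zero]
      positivity
    have hlast : N + 1 + ν + r.1 * J ≤ 3 * N := by
      have : r.1 * J ≤ N := by rw [hJ]; exact (Nat.mul_div_le M r.1).trans hMN
      omega
    have key := samp (fun j : ℕ => gq a b ((N : ℤ) + 1 + ν + r.1 * j) + c) (fun x => sr h u r x) h hhZ κ U
      (2 * (2 * h * U + W)) hU J ?_ ?_ ?_ ?_ ?_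
    · refine key.trans (add_le_add ?_ ?_)
      · apply mul_le_mul_of_nonneg_left _ (by positivity)
        obtain ⟨x0, hx0⟩ : ∃ x0, x0 = gq a b ((N : ℤ) + 1 + ν + r.1 * (0 : ℕ)) + c := ⟨_, rfl⟩
        obtain ⟨x1, hx1⟩ : ∃ x1, x1 = gq a b ((N : ℤ) + 1 + ν + r.1 * J) + c := ⟨_, rfl⟩
        rw [← hx0, ← hx1]
        have g1 := hGmono (N + 1 + ν) (by omega) (by omega)
        have g2 := hGmono (N + 1 + ν + r.1 * J) (by omega) hlast
        push_cast at g1 g2
        have g3 : 0 ≤ x0 := by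
          rw [hx0]
          push_cast
          rw [mul_zero, add_zero]
          linarith [g1.1]
        have g4 : (x1 : ℝ) ≤ G := by
          rw [hx1]
          push_cast
          push_cast at g2
          exact g2.2
        have g5 : 0 ≤ x0 / (h : ℤ) := Int.ediv_nonneg g3 hhZ.le
        have g6 : x1 / (h : ℤ) * h ≤ x1 := Int.ediv_mul_le _ hhZ.ne'
        have g7 : ((x1 / (h : ℤ) - x0 / (h : ℤ) : ℤ) : ℝ) ≤ G / h := by
          rw [le_div_iff₀ hh0]
          have g8 : (x1 / (h : ℤ) - x0 / (h : ℤ)) * h ≤ x1 := by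
            have : 0 ≤ x0 / (h : ℤ) * h := mul_nonneg g5 hhZ.le
            linarith
          have g9 : (((x1 / (h : ℤ) - x0 / (h : ℤ)) * h : ℤ) : ℝ) ≤ x1 := by exact_mod_cast g8
          push_cast at g9 ⊢
          linarith
        linarith
      · have g1 : (N : ℝ) ≤ ((gq a b ((N : ℤ) + 1 + ν + r.1 * (1 : ℕ)) + c -
            (gq a b ((N : ℤ) + 1 + ν + r.1 * (0 : ℕ)) + c) : ℤ) : ℝ) := by
          have g2 := gq_gap ha hb (N := (N : ℤ)) (n := (N : ℤ) + 1 + ν) (m := (N : ℤ) + 1 + ν + r.1) (by positivity)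
            (by omega) (by omega)
          have g3 : (N : ℤ) ≤ ((N : ℤ) + 1 + ν + r.1 - ((N : ℤ) + 1 + ν)) * (2 * a * N) := by
            have e1 : ((N : ℤ) + 1 + ν + r.1 - ((N : ℤ) + 1 + ν)) = r.1 := by ring
            rw [e1]
            have e2 : (1 : ℤ) ≤ r.1 := by exact_mod_cast hr
            have e3 : (0 : ℤ) < N := by exact_mod_cast hN
            nlinarith [mul_pos ha e3, mul_le_mul_of_nonneg_left e2 (mul_pos ha e3).le]
          have g4 : (N : ℤ) ≤ gq a b ((N : ℤ) + 1 + ν + r.1 * (1 : ℕ)) + c -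
            (gq a b ((N : ℤ) + 1 + ν + r.1 * (0 : ℕ)) + c) := by
            push_cast
            rw [mul_one, mul_zero, add_zero]
            linarith
          exact_mod_cast g4
        apply div_le_div_of_nonneg_left (by positivity) hN0
        exact g1
    · intro j
      have hlt : (N : ℤ) + 1 + ν + r.1 * (j : ℕ) < (N : ℤ) + 1 + ν + r.1 * ((j + 1 : ℕ) : ℤ) := by
        push_cast
        have : (0 : ℤ) < r.1 := by exact_mod_cast hr
        linarith
      have g2 := gq_gap ha hb (N := (N : ℤ)) (n := (N : ℤ) + 1 + ν + r.1 * (j : ℕ))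
        (m := (N : ℤ) + 1 + ν + r.1 * ((j + 1 : ℕ) : ℤ)) (by positivity)
        (by have : (0 : ℤ) ≤ r.1 * (j : ℕ) := by positivity
            omega) hlt.le
      have g3 : 0 < ((N : ℤ) + 1 + ν + r.1 * ((j + 1 : ℕ) : ℤ) - ((N : ℤ) + 1 + ν + r.1 * (j : ℕ))) * (2 * a * N) := by
        have : (0 : ℤ) < N := by exact_mod_cast hN
        apply mul_pos (by linarith) (by positivity)
      linarith
    · intro j
      unfold gq
      push_cast
      have e1 : (0 : ℤ) ≤ a * (r.1 : ℤ) ^ 2 := by positivity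
      nlinarith
    · intro t t' htt
      unfold sr
      rw [htt]
    · intro j hj t ht
      rw [mem_Ico] at ht
      have hjJ : N + 1 + ν + r.1 * (j + 1) ≤ 3 * N := by
        have : r.1 * (j + 1) ≤ r.1 * J := Nat.mul_le_mul_left _ (by omega)
        omega
      have g1 := hGmono (N + 1 + ν + r.1 * (j + 1)) (by
        have : 0 ≤ r.1 * (j + 1) := Nat.zero_le _
        omega) hjJ
      have g2 := hGmono (N + 1 + ν + r.1 * j) (by
        have : 0 ≤ r.1 * j := Nat.zero_le _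
        omega) (by
        have : r.1 * j ≤ r.1 * (j + 1) := Nat.mul_le_mul_left _ (by omega)
        omega)
      push_cast at g1 g2 ht
      apply hsrU t (by linarith [g2.1, ht.1])
      have : (t : ℝ) ≤ ((gq a b ((N : ℤ) + 1 + ν + r.1 * ((j : ℤ) + 1)) + c : ℤ) : ℝ) := by exact_mod_cast ht.2.le
      push_cast at this g1
      linarith [g1.2]
    · intro j hj
      have hjJ : N + 1 + ν + r.1 * j ≤ 3 * N := by
        have : r.1 * j ≤ r.1 * J := Nat.mul_le_mul_left _ (by omega)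
        omega
      have g1 := hGmono (N + 1 + ν + r.1 * j) (by
        have : 0 ≤ r.1 * j := Nat.zero_le _
        omega) hjJ
      have g0 := hGmono (N + 1 + ν) (by omega) (by omega)
      obtain ⟨x0, hx0⟩ : ∃ x0, x0 = gq a b ((N : ℤ) + 1 + ν + r.1 * (0 : ℕ)) + c := ⟨_, rfl⟩
      obtain ⟨x1, hx1⟩ : ∃ x1, x1 = gq a b ((N : ℤ) + 1 + ν + r.1 * (j : ℕ)) + c := ⟨_, rfl⟩
      rw [← hx0, ← hx1]
      have k0 : gq a b N + c ≤ x0 ∧ (x0 : ℝ) ≤ G := by
        rw [hx0]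
        push_cast
        push_cast at g0
        rw [mul_zero, add_zero]
        exact g0
      have k1 : gq a b N + c ≤ x1 ∧ (x1 : ℝ) ≤ G := by
        rw [hx1]
        push_cast
        push_cast at g1
        exact g1
      have k2 : x0 ≤ x1 := by
        rw [hx0, hx1]
        have := gq_mono ha hb (n := (N : ℤ) + 1 + ν + r.1 * (0 : ℕ)) (m := (N : ℤ) + 1 + ν + r.1 * (j : ℕ))
          (by positivity) (by
            have : (0 : ℤ) ≤ r.1 * (j : ℕ) := by positivity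
            push_cast
            linarith)
        linarith
      have e1 : ∑ t ∈ Ico x0 x1, sr h u r t = ∑ t ∈ Ico 0 x1, sr h u r t - ∑ t ∈ Ico 0 x0, sr h u r t := by
        rw [eq_sub_iff_add_eq, add_comm, ← sum_union]
        · congr 1
          ext t
          simp only [mem_Ico, mem_union]
          have := k0.1
          omega
        · rw [disjoint_left]
          intro t ht ht'
          rw [mem_Ico] at ht ht'
          omega
      have p0 := sr_partial h hh u r U G hU hu x0 (by linarith [k0.1]) k0.2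
      have p1 := sr_partial h hh u r U G hU hu x1 (by linarith [k1.1]) k1.2
      have q0 := hW x0 k0.1 k0.2
      have q1 := hW x1 k1.1 k1.2
      rw [e1]
      have e2 : ∑ t ∈ Ico 0 x1, sr h u r t - ∑ t ∈ Ico 0 x0, sr h u r t - κ * ((x1 - x0 : ℤ) : ℂ) =
          ((∑ t ∈ Ico 0 x1, sr h u r t - ∑ t ∈ Ico 0 x1, u t * ee ((t : ℝ) * fv r)) +
            (∑ t ∈ Ico 0 x1, u t * ee ((t : ℝ) * fv r) - κ * x1)) -
          ((∑ t ∈ Ico 0 x0, sr h u r t - ∑ t ∈ Ico 0 x0, u t * ee ((t : ℝ) * fv r)) +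
            (∑ t ∈ Ico 0 x0, u t * ee ((t : ℝ) * fv r) - κ * x0)) := by
        push_cast
        ring
      rw [e2]
      refine (norm_sub_le _ _).trans ?_
      have s1 := norm_add_le (∑ t ∈ Ico 0 x1, sr h u r t - ∑ t ∈ Ico 0 x1, u t * ee ((t : ℝ) * fv r))
        (∑ t ∈ Ico 0 x1, u t * ee ((t : ℝ) * fv r) - κ * x1)
      have s2 := norm_add_le (∑ t ∈ Ico 0 x0, sr h u r t - ∑ t ∈ Ico 0 x0, u t * ee ((t : ℝ) * fv r))
        (∑ t ∈ Ico 0 x0, u t * ee ((t : ℝ) * fv r) - κ * x0)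
      linarith
  obtain ⟨T, hT⟩ : ∃ T, T = 2 * U * (G / h + 1) + 2 * (2 * h * U + W) / N := ⟨_, rfl⟩
  rw [← hT] at h2 ⊢
  -- assembly
  have h3 : ∑ ν ∈ range r.1, phs a b c r (N + 1 + ν) * (κ * J) = κ * om a b c r * (r.1 * J) := by
    rw [← sum_mul, sum_shift (phs a b c r) r.1 (phs_per a b c r hr) (N + 1)]
    unfold om
    field_simp
  have h4 : ‖∑ ν ∈ range r.1, phs a b c r (N + 1 + ν) * ∑ j ∈ range J, sr h u r (gq a b (N + 1 + ν + r.1 * j) + c) -
      κ * om a b c r * (r.1 * J)‖ ≤ r.1 * T := by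
    rw [← h3, ← sum_sub_distrib]
    refine (norm_sum_le _ _).trans ?_
    have : ∀ ν ∈ range r.1, ‖phs a b c r (N + 1 + ν) * ∑ j ∈ range J, sr h u r (gq a b (N + 1 + ν + r.1 * j) + c) -
        phs a b c r (N + 1 + ν) * (κ * J)‖ ≤ T := by
      intro ν hν
      rw [← mul_sub, norm_mul, phs_norm, one_mul]
      exact h2 ν hν
    refine (sum_le_card_nsmul _ _ _ this).trans ?_
    rw [card_range, nsmul_eq_mul]
  have h5 : ‖∑ i ∈ range e, sr h u r (gq a b (N + 1 + (r.1 * J + i)) + c) * phs a b c r (N + 1 + (r.1 * J + i))‖ ≤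
      r.1 * U := by
    refine (norm_sum_le _ _).trans ?_
    have : ∀ i ∈ range e, ‖sr h u r (gq a b (N + 1 + (r.1 * J + i)) + c) * phs a b c r (N + 1 + (r.1 * J + i))‖ ≤
        U := by
      intro i hi
      rw [mem_range] at hi
      rw [norm_mul, phs_norm, mul_one]
      have g1 := hGmono (N + 1 + (r.1 * J + i)) (by omega) (by omega)
      push_cast at g1
      apply hsrU
      · linarith [g1.1]
      · push_cast
        exact g1.2
    refine (sum_le_card_nsmul _ _ _ this).trans ?_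
    rw [card_range, nsmul_eq_mul]
    have : (e : ℝ) ≤ r.1 := by exact_mod_cast her.le
    gcongr
  have h6 : ‖κ * om a b c r * (e : ℂ)‖ ≤ r.1 := by
    rw [norm_mul, norm_mul, Complex.norm_natCast]
    have g1 := om_norm a b c r hr
    have g2 : (e : ℝ) ≤ r.1 := by exact_mod_cast her.le
    calc ‖κ‖ * ‖om a b c r‖ * (e : ℝ) ≤ 1 * 1 * r.1 := by gcongr
      _ = r.1 := by ring
  rw [h1]
  have e7 : (M : ℂ) = r.1 * J + e := by
    have : ((M : ℕ) : ℂ) = ((r.1 * J + e : ℕ) : ℂ) := by rw [← hMJ]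
    rw [this]
    push_cast
    ring
  rw [e7]
  have e8 : ∀ p q s t : ℂ, p + q - κ * om a b c r * (s + t) = (p - κ * om a b c r * s) + q - κ * om a b c r * t := by
    intro p q s t
    ring
  rw [e8]
  refine (norm_sub_le _ _).trans ?_
  have := norm_add_le (∑ ν ∈ range r.1, phs a b c r (N + 1 + ν) *
    ∑ j ∈ range J, sr h u r (gq a b (N + 1 + ν + r.1 * j) + c) - κ * om a b c r * (r.1 * J))
    (∑ i ∈ range e, sr h u r (gq a b (N + 1 + (r.1 * J + i)) + c) * phs a b c r (N + 1 + (r.1 * J + i)))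
  have e9 : (r.1 : ℝ) * (T + U + 1) = r.1 * T + r.1 * U + r.1 := by ring
  rw [e9]
  linarith

end Pool.Agent.K9h10.LR
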