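import Mathlib
import Pool.Agent.K9h10.LR.V1

/-!
# The mean square of the error term: the choice of the parameters
-/

set_option autoImplicit false

namespace Pool.Agent.K9h10.LR

open Finset

lemma t1 {x n L D l0 : ℝ} {A d b2 : ℕ} (hL : 20736 ≤ L) (hx : 1 ≤ x) (hn : 0 < n) (hD0 : 0 ≤ D) (hD : D ≤ 2 * L ^ d)
    (hl : 1 ≤ l0) (hl0 : l0 * L ^ b2 ≤ n) (hb2 : b2 = 4 * d + 3 + A) :
    (2 * x + 1) * n * (1 + 2 * l0) * (2 * D ^ 2 * (3 * L)) ^ 2 ≤ x * n ^ 2 / (4 * L ^ A) := by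
  have hL0 : 0 < L := by linarith
  rw [le_div_iff₀ (by positivity)]
  calc (2 * x + 1) * n * (1 + 2 * l0) * (2 * D ^ 2 * (3 * L)) ^ 2 * (4 * L ^ A)
      ≤ (3 * x) * n * (3 * l0) * (2 * (2 * L ^ d) ^ 2 * (3 * L)) ^ 2 * (4 * L ^ A) := by
        gcongr
        · linarith
        · linarith
    _ = 20736 * (x * n * l0 * L ^ (4 * d + 2 + A)) := by ring
    _ ≤ L * (x * n * l0 * L ^ (4 * d + 2 + A)) := by gcongr
    _ = x * n * (l0 * L ^ b2) := by rw [hb2]; ring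
    _ ≤ x * n * n := by gcongr
    _ = x * n ^ 2 := by ring

lemma t2 {x n L G C : ℝ} {A s : ℕ} (hC : 1 ≤ C) (hL : 20880 * C ≤ L) (hx : 1 ≤ x) (hn : 0 < n) (hG : G = C * n ^ 2)
    (hs : s = A + 3) :
    n * (x / (n * L ^ s) * (2 * G * (290 * (3 * L) ^ 2))) ≤ x * n ^ 2 / (4 * L ^ A) := by
  have hL0 : 0 < L := by linarith
  rw [le_div_iff₀ (by positivity), hG, hs]
  have e1 : n * (x / (n * L ^ (A + 3)) * (2 * (C * n ^ 2) * (290 * (3 * L) ^ 2))) * (4 * L ^ A) =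
      (20880 * C) * (x * n ^ 2) / L := by
    rw [pow_add L A 3]
    field_simp
    ring
  rw [e1, div_le_iff₀ hL0, mul_comm (x * n ^ 2) L]
  gcongr

lemma t3 {x n L G C D h a : ℝ} {A s d : ℕ} (ha : 1 ≤ a) (hC : 1 ≤ C) (hL : 4009088 * C ≤ L) (hx : 1 ≤ x) (hn : 0 < n)
    (hnx : n ≤ x) (hG : G = C * n ^ 2) (hs : s = A + 3) (hd : d = 2 * A + 7) (hD : L ^ d ≤ D) (hh : 0 < h)
    (hlog0 : 0 ≤ Real.log (2 * a * n)) (hlog : 1 + Real.log (2 * a * n) ≤ 2 * L)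
    (hDh : 9 * L ^ 2 * D ^ 10 ≤ h ^ 2) (hnh : 4 * a * n * D ≤ h) :
    (x / (n * L ^ s))⁻¹ * (2 * (2 * x / h) * ((x / (a * n) + 1) *
          (2 * G / h * ((1 + Real.log (2 * a * n)) * (D * (D ^ 4 * (3 * L)) ^ 2 +
            6 * (290 * (h * (3 * L) ^ 2)) * (h / D + 2 * (2 * a * n))))))) ≤ x * n ^ 2 / (4 * L ^ A) := by
  have hL1 : 1 ≤ L := by linarith
  have hL0 : 0 < L := by linarith
  have hx0 : 0 < x := by linarith
  have hd0 : 0 < L ^ d := by positivity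
  have hD0 : 0 < D := lt_of_lt_of_le hd0 hD
  have hG0 : 0 < G := by rw [hG]; positivity
  have h1 : D * (D ^ 4 * (3 * L)) ^ 2 + 6 * (290 * (h * (3 * L) ^ 2)) * (h / D + 2 * (2 * a * n)) ≤
      31321 * L ^ 2 * (h ^ 2 / D) := by
    have h2 : D * (D ^ 4 * (3 * L)) ^ 2 ≤ h ^ 2 / D := by
      rw [le_div_iff₀ hD0]
      calc D * (D ^ 4 * (3 * L)) ^ 2 * D = 9 * L ^ 2 * D ^ 10 := by ring
        _ ≤ h ^ 2 := hDh
    have h3 : 2 * (2 * a * n) ≤ h / D := by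
      rw [le_div_iff₀ hD0]
      linarith
    have h4 : 6 * (290 * (h * (3 * L) ^ 2)) * (h / D + 2 * (2 * a * n)) ≤
        6 * (290 * (h * (3 * L) ^ 2)) * (h / D + h / D) := by gcongr
    have h5 : 6 * (290 * (h * (3 * L) ^ 2)) * (h / D + h / D) = 31320 * L ^ 2 * (h ^ 2 / D) := by
      field_simp
      ring
    have h6 : h ^ 2 / D ≤ L ^ 2 * (h ^ 2 / D) := le_mul_of_one_le_left (by positivity) (one_le_pow₀ hL1)
    linarith
  have h2 : (1 + Real.log (2 * a * n)) * (D * (D ^ 4 * (3 * L)) ^ 2 +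
      6 * (290 * (h * (3 * L) ^ 2)) * (h / D + 2 * (2 * a * n))) ≤ 62642 * L ^ 3 * (h ^ 2 / L ^ d) := by
    calc _ ≤ 2 * L * (31321 * L ^ 2 * (h ^ 2 / D)) := by
          apply mul_le_mul hlog h1 (by positivity) (by positivity)
      _ ≤ 2 * L * (31321 * L ^ 2 * (h ^ 2 / L ^ d)) := by gcongr
      _ = _ := by ring
  have h3 : x / (a * n) + 1 ≤ 2 * (x / n) := by
    have e1 : x / (a * n) ≤ x / n := by
      apply div_le_div_of_nonneg_left hx0.le hn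
      nlinarith
    have e2 : 1 ≤ x / n := by rwa [le_div_iff₀ hn, one_mul]
    linarith
  have h4 : (x / (n * L ^ s))⁻¹ * (2 * (2 * x / h) * ((x / (a * n) + 1) *
          (2 * G / h * ((1 + Real.log (2 * a * n)) * (D * (D ^ 4 * (3 * L)) ^ 2 +
            6 * (290 * (h * (3 * L) ^ 2)) * (h / D + 2 * (2 * a * n))))))) ≤
      (x / (n * L ^ s))⁻¹ * (2 * (2 * x / h) * (2 * (x / n) * (2 * G / h * (62642 * L ^ 3 * (h ^ 2 / L ^ d))))) := by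
    gcongr
  refine h4.trans ?_
  rw [le_div_iff₀ (by positivity), hG, hs, hd]
  have e1 : (x / (n * L ^ (A + 3)))⁻¹ * (2 * (2 * x / h) * (2 * (x / n) *
      (2 * (C * n ^ 2) / h * (62642 * L ^ 3 * (h ^ 2 / L ^ (2 * A + 7)))))) * (4 * L ^ A) =
      (4009088 * C) * (x * n ^ 2) / L := by
    have p1 : L ^ (2 * A + 7) = (L ^ A) ^ 2 * L ^ 7 := by ring
    rw [pow_add L A 3, p1]
    field_simp
    ring
  rw [e1, div_le_iff₀ hL0, mul_comm (x * n ^ 2) L]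
  gcongr

lemma t4 {x n L G C D h a l0 : ℝ} {A s d b1 b2 : ℕ} (ha : 1 ≤ a) (hC : 1 ≤ C) (hL : 147456 * C ≤ L) (hx : 1 ≤ x)
    (hn : 1 ≤ n) (hG : G = C * n ^ 2) (hs : s = A + 3) (hb1 : b1 = s + 4 * d + 3 + A)
    (hD0 : 0 ≤ D) (hD : D ≤ 2 * L ^ d) (hh0 : 0 < h) (hh : h * L ^ (b1 + b2) ≤ x) (hl : 0 < l0)
    (hl0 : n ≤ 2 * (l0 * L ^ b2)) (hlh : 2 * l0 ≤ h) :
    (x / (n * L ^ s))⁻¹ * (8 * (n * ((G + 1) * ((h / (2 * a * l0) + 1) * (2 * D ^ 2 * (3 * L))) ^ 2))) ≤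
      x * n ^ 2 / (4 * L ^ A) := by
  have hL1 : 1 ≤ L := by linarith
  have hL0 : 0 < L := by linarith
  have hx0 : 0 < x := by linarith
  have hn0 : 0 < n := by linarith
  have hG1 : 1 ≤ G := by
    rw [hG]
    have : 1 ≤ n ^ 2 := one_le_pow₀ hn
    nlinarith
  have h1 : h / (2 * a * l0) + 1 ≤ h / l0 := by
    have e1 : h / (2 * a * l0) ≤ h / (2 * l0) := by
      apply div_le_div_of_nonneg_left hh0.le (by positivity)
      nlinarith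
    have e2 : 1 ≤ h / (2 * l0) := by rwa [le_div_iff₀ (by positivity), one_mul]
    have e3 : h / l0 = h / (2 * l0) + h / (2 * l0) := by field_simp; ring
    linarith
  have h2 : h / l0 ≤ 2 * x / (n * L ^ b1) := by
    rw [div_le_div_iff₀ hl (by positivity)]
    calc h * (n * L ^ b1) ≤ h * ((2 * (l0 * L ^ b2)) * L ^ b1) := by gcongr
      _ = 2 * (h * L ^ (b1 + b2)) * l0 := by rw [pow_add]; ring
      _ ≤ 2 * x * l0 := by gcongr
  have h3 : (x / (n * L ^ s))⁻¹ * (8 * (n * ((G + 1) * ((h / (2 * a * l0) + 1) * (2 * D ^ 2 * (3 * L))) ^ 2))) ≤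
      (x / (n * L ^ s))⁻¹ * (8 * (n * ((2 * G) * ((2 * x / (n * L ^ b1)) * (2 * (2 * L ^ d) ^ 2 * (3 * L))) ^ 2))) := by
    have h4 := h1.trans h2
    gcongr
    · linarith
  refine h3.trans ?_
  rw [le_div_iff₀ (by positivity), hG]
  have e1 : (x / (n * L ^ s))⁻¹ * (8 * (n * ((2 * (C * n ^ 2)) * ((2 * x / (n * L ^ b1)) *
      (2 * (2 * L ^ d) ^ 2 * (3 * L))) ^ 2))) * (4 * L ^ A) =
      (147456 * C) * (x * n ^ 2) * (L ^ (s + 4 * d + 2 + A) / L ^ (2 * b1)) := by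
    have p1 : L ^ (s + 4 * d + 2 + A) = L ^ s * (L ^ d) ^ 4 * L ^ 2 * L ^ A := by ring
    have p2 : L ^ (2 * b1) = (L ^ b1) ^ 2 := by ring
    rw [p1, p2]
    field_simp
    ring
  rw [e1]
  have h5 : L ^ (s + 4 * d + 2 + A) / L ^ (2 * b1) ≤ 1 / L := by
    rw [div_le_div_iff₀ (by positivity) hL0, one_mul, ← pow_succ]
    apply pow_le_pow_right₀ hL1
    omega
  calc (147456 * C) * (x * n ^ 2) * (L ^ (s + 4 * d + 2 + A) / L ^ (2 * b1))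
      ≤ L * (x * n ^ 2) * (1 / L) := by gcongr
    _ = x * n ^ 2 := by field_simp

/-- powers of the logarithm -/
lemma ev_logpow (k : ℕ) (c : ℝ) : ∃ x₀ : ℕ, ∀ X : ℕ, x₀ ≤ X → c * Real.log X ^ k ≤ X := by
  have h1 : (fun x : ℝ => Real.log x ^ (k : ℝ)) =o[Filter.atTop] fun x : ℝ => x ^ (1 : ℝ) :=
    isLittleO_log_rpow_rpow_atTop (k : ℝ) one_pos
  have h3 := (h1.const_mul_left c).def (c := 1) one_pos
  obtain ⟨x0, hx0⟩ := Filter.eventually_atTop.1 (h3.and (Filter.eventually_ge_atTop (1 : ℝ)))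
  refine ⟨⌈x0⌉₊, fun X hX => ?_⟩
  obtain ⟨h4, h5⟩ := hx0 X ((Nat.le_ceil _).trans (by exact_mod_cast hX))
  rw [one_mul, Real.rpow_one, Real.norm_of_nonneg (by linarith : (0 : ℝ) ≤ X), Real.rpow_natCast] at h4
  exact (le_abs_self _).trans h4

lemma ev_loglarge (c : ℝ) : ∃ x₀ : ℕ, ∀ X : ℕ, x₀ ≤ X → c ≤ Real.log X := by
  obtain ⟨x0, hx0⟩ := Filter.eventually_atTop.1 (Real.tendsto_log_atTop.eventually_ge_atTop c)
  exact ⟨⌈x0⌉₊, fun X hX => hx0 X ((Nat.le_ceil _).trans (by exact_mod_cast hX))⟩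

/-- the denominators -/
noncomputable def Dd (d X : ℕ) : ℕ := ⌈Real.log X ^ d⌉₊

/-- the length of the cells -/
noncomputable def hc (β X : ℕ) : ℕ := ⌊(X : ℝ) / Real.log X ^ β⌋₊

theorem V2 {a b : ℤ} (ha : 0 < a) (hb : 0 ≤ b) (A : ℕ) : ∃ d β B : ℕ, 3 * d + A + 3 ≤ β ∧ ∃ X₀ : ℕ, ∀ X : ℕ, X₀ ≤ X → ∀ N N' : ℕ,
    2 * X ≤ N ^ 2 → (N : ℝ) * Real.log X ^ B ≤ X → N ≤ N' → N' ≤ 2 * N →
    ∀ u : ℤ → ℂ, (∀ x : ℤ, 0 ≤ x → (x : ℝ) ≤ (X : ℝ) ^ 3 → ‖u x‖ ≤ 3 * Real.log X) →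
    ∑ c ∈ Icc (-(X : ℤ)) X, ‖∑ n ∈ Ioc (N : ℤ) N', Er (hc β X) (Dd d X) u (gq a b n + c)‖ ^ 2 ≤
      X * (N : ℝ) ^ 2 / Real.log X ^ A := by
  obtain ⟨C, hC⟩ : ∃ C : ℝ, C = 4 * a + 2 * b + 1 := ⟨_, rfl⟩
  obtain ⟨d, hd⟩ : ∃ d, d = 2 * A + 7 := ⟨_, rfl⟩
  obtain ⟨s, hs⟩ : ∃ s, s = A + 3 := ⟨_, rfl⟩
  obtain ⟨b2, hb2⟩ : ∃ b2, b2 = 4 * d + 3 + A := ⟨_, rfl⟩
  obtain ⟨b1, hb1⟩ : ∃ b1, b1 = s + 4 * d + 3 + A := ⟨_, rfl⟩
  obtain ⟨β, hβ⟩ : ∃ β, β = b1 + b2 := ⟨_, rfl⟩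
  obtain ⟨B, hB⟩ : ∃ B, B = d + β + 1 := ⟨_, rfl⟩
  have ha1 : (1 : ℝ) ≤ a := by exact_mod_cast (by omega : 1 ≤ a)
  have hb0 : (0 : ℝ) ≤ b := by exact_mod_cast hb
  have hC1 : 1 ≤ C := by rw [hC]; linarith
  obtain ⟨x1, h1⟩ := ev_loglarge (4009088 * C + 20736 + 16 * a)
  obtain ⟨x2, h2⟩ := ev_logpow (10 * d + 2 * β + 2 * b2 + 2) 100000
  refine ⟨d, β, B, by omega, max (max x1 x2) (⌈2 * C⌉₊ + 3), fun X hX N N' hN1 hN2 hNN hNN2 u hu => ?_⟩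
  have g1 := h1 X (le_trans (le_trans (le_max_left _ _) (le_max_left _ _)) hX)
  have g2 := h2 X (le_trans (le_trans (le_max_right _ _) (le_max_left _ _)) hX)
  have g3 : ⌈2 * C⌉₊ + 3 ≤ X := le_trans (le_max_right _ _) hX
  obtain ⟨L, hL⟩ : ∃ L, L = Real.log (X : ℝ) := ⟨_, rfl⟩
  rw [← hL] at g1 g2 hN2 hu ⊢
  have hX2C : 2 * C ≤ X := by
    have := Nat.le_ceil (2 * C)
    have : ((⌈2 * C⌉₊ : ℕ) : ℝ) ≤ X := by exact_mod_cast (by omega : ⌈2 * C⌉₊ ≤ X)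
    linarith
  have hL1 : 1 ≤ L := by linarith
  have hL0 : 0 < L := by linarith
  have hXR : (1 : ℝ) ≤ X := by exact_mod_cast (by omega : 1 ≤ X)
  have hX0 : (0 : ℝ) < X := by linarith
  have hN0 : 0 < N := by
    rcases Nat.eq_zero_or_pos N with h | h
    · subst h; omega
    · exact h
  have hNR : (1 : ℝ) ≤ N := by exact_mod_cast hN0
  have hXN2 : 2 * (X : ℝ) ≤ (N : ℝ) ^ 2 := by exact_mod_cast hN1
  have hNX : (N : ℝ) ≤ X := by
    refine le_trans ?_ hN2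
    exact le_mul_of_one_le_right (by positivity) (one_le_pow₀ hL1)
  -- powers of the logarithm
  have hpow : ∀ k : ℕ, k ≤ 10 * d + 2 * β + 2 * b2 + 2 → 100000 * L ^ k ≤ X := by
    intro k hk
    refine le_trans ?_ g2
    gcongr
  -- D
  obtain ⟨D, hD⟩ : ∃ D, D = Dd d X := ⟨_, rfl⟩
  have hDlo : L ^ d ≤ D := by
    rw [hD, Dd, ← hL]
    exact Nat.le_ceil _
  have hDhi : (D : ℝ) ≤ 2 * L ^ d := by
    have := Nat.ceil_lt_add_one (show 0 ≤ L ^ d by positivity)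
    rw [hD, Dd, ← hL]
    have : 1 ≤ L ^ d := one_le_pow₀ hL1
    linarith
  have hD1 : 1 ≤ D := by
    have : (0 : ℝ) < D := lt_of_lt_of_le (by positivity) hDlo
    exact_mod_cast this
  -- h
  obtain ⟨h, hh⟩ : ∃ h, h = hc β X := ⟨_, rfl⟩
  have hhhi : (h : ℝ) * L ^ β ≤ X := by
    have := Nat.floor_le (show 0 ≤ (X : ℝ) / L ^ β by positivity)
    rw [hh, hc, ← hL]
    rwa [le_div_iff₀ (by positivity)] at this
  have hhlo : (X : ℝ) ≤ 2 * (h * L ^ β) := by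
    have e1 := Nat.lt_floor_add_one ((X : ℝ) / L ^ β)
    have e2 : (X : ℝ) / L ^ β - 1 ≤ h := by rw [hh, hc, ← hL]; linarith
    have e3 := hpow β (by omega)
    have e4 : (1 : ℝ) ≤ X / L ^ β / 2 := by
      rw [div_div, le_div_iff₀ (by positivity)]
      nlinarith [pow_pos hL0 β]
    have e5 : (X : ℝ) / L ^ β / 2 ≤ h := by linarith
    rw [div_div, div_le_iff₀ (by positivity)] at e5
    linarith
  have hh1 : 1 ≤ h := by
    have : (0 : ℝ) < h := by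
      by_contra hcon
      push Not at hcon
      have : (h : ℝ) * L ^ β ≤ 0 := mul_nonpos_of_nonpos_of_nonneg hcon (by positivity)
      linarith
    exact_mod_cast this
  have hh0 : (0 : ℝ) < h := by exact_mod_cast hh1
  have hhX : (h : ℝ) ≤ X := by
    refine le_trans ?_ hhhi
    exact le_mul_of_one_le_right hh0.le (one_le_pow₀ hL1)
  -- L0
  obtain ⟨l0, hl0⟩ : ∃ l0 : ℕ, l0 = ⌊(N : ℝ) / L ^ b2⌋₊ := ⟨_, rfl⟩
  have hN2b : 2 * L ^ b2 ≤ N := by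
    have e1 := hpow (2 * b2) (by omega)
    have e2 : (2 * L ^ b2) ^ 2 ≤ (N : ℝ) ^ 2 := by
      calc (2 * L ^ b2) ^ 2 = 4 * L ^ (2 * b2) := by ring
        _ ≤ 2 * X := by nlinarith [pow_pos hL0 (2 * b2)]
        _ ≤ (N : ℝ) ^ 2 := hXN2
    exact le_of_sq_le_sq e2 (by positivity)
  have hl0hi : (l0 : ℝ) * L ^ b2 ≤ N := by
    have := Nat.floor_le (show 0 ≤ (N : ℝ) / L ^ b2 by positivity)
    rw [hl0]
    rwa [le_div_iff₀ (by positivity)] at this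
  have hl0lo : (N : ℝ) ≤ 2 * (l0 * L ^ b2) := by
    have e1 := Nat.lt_floor_add_one ((N : ℝ) / L ^ b2)
    have e2 : (N : ℝ) / L ^ b2 - 1 ≤ l0 := by rw [hl0]; linarith
    have e4 : (1 : ℝ) ≤ N / L ^ b2 / 2 := by
      rw [div_div, le_div_iff₀ (by positivity)]
      linarith
    have e5 : (N : ℝ) / L ^ b2 / 2 ≤ l0 := by linarith
    rw [div_div, div_le_iff₀ (by positivity)] at e5
    linarith
  have hl01 : 1 ≤ l0 := by
    have : (0 : ℝ) < l0 := by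
      by_contra hcon
      push Not at hcon
      have : (l0 : ℝ) * L ^ b2 ≤ 0 := mul_nonpos_of_nonpos_of_nonneg hcon (by positivity)
      linarith
    exact_mod_cast this
  have hl0N : (l0 : ℝ) ≤ N := by
    refine le_trans ?_ hl0hi
    exact le_mul_of_one_le_right (by positivity) (one_le_pow₀ hL1)
  -- the conditions
  have hBd : L ^ B = L ^ d * L ^ β * L := by rw [hB]; ring
  have c1 : (D : ℝ) ^ 2 ≤ h := by
    have e1 := hpow (2 * d + β) (by omega)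
    have e2 : (D : ℝ) ^ 2 ≤ (2 * L ^ d) ^ 2 := by gcongr
    have e3 : (2 * L ^ d) ^ 2 * L ^ β ≤ h * L ^ β := by
      calc (2 * L ^ d) ^ 2 * L ^ β = 4 * L ^ (2 * d + β) := by ring
        _ ≤ X / 2 := by
            have := pow_pos hL0 (2 * d + β)
            rw [le_div_iff₀ (by norm_num)]
            linarith
        _ ≤ h * L ^ β := by linarith
    exact e2.trans (le_of_mul_le_mul_right e3 (by positivity))
  have c2 : 4 * (a : ℝ) * N * D ≤ h := by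
    have e1 : 4 * (a : ℝ) * N * D * L ^ β * 2 ≤ X := by
      calc 4 * (a : ℝ) * N * D * L ^ β * 2 ≤ 4 * (a : ℝ) * N * (2 * L ^ d) * L ^ β * 2 := by gcongr
        _ = (16 * a) * (N * (L ^ d * L ^ β)) := by ring
        _ ≤ L * (N * (L ^ d * L ^ β)) := by
            gcongr
            linarith
        _ = N * L ^ B := by rw [hBd]; ring
        _ ≤ X := hN2
    have e2 : 4 * (a : ℝ) * N * D * L ^ β ≤ h * L ^ β := by linarith
    exact le_of_mul_le_mul_right e2 (by positivity)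
  have c3 : 2 * (a : ℝ) * N ≤ h := by
    refine le_trans ?_ c2
    have e1 : (1 : ℝ) ≤ D := by exact_mod_cast hD1
    have e2 : (0 : ℝ) < a * N := by positivity
    nlinarith
  have c4 : (D : ℝ) ≤ 2 * a * N := by
    have e1 := hpow (2 * d) (by omega)
    have e2 : (2 * L ^ d) ^ 2 ≤ (N : ℝ) ^ 2 := by
      calc (2 * L ^ d) ^ 2 = 4 * L ^ (2 * d) := by ring
        _ ≤ 2 * X := by nlinarith [pow_pos hL0 (2 * d)]
        _ ≤ (N : ℝ) ^ 2 := hXN2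
    have e3 := le_of_sq_le_sq e2 (by positivity : (0 : ℝ) ≤ N)
    nlinarith
  have c5 : 9 * L ^ 2 * (D : ℝ) ^ 10 ≤ (h : ℝ) ^ 2 := by
    have e1 := hpow (10 * d + 2 * β + 2) (by omega)
    have e2 : 9 * L ^ 2 * (D : ℝ) ^ 10 ≤ 9 * L ^ 2 * (2 * L ^ d) ^ 10 := by gcongr
    have e3 : 9 * L ^ 2 * (2 * L ^ d) ^ 10 * (2 * L ^ β) ^ 2 ≤ (h : ℝ) ^ 2 * (2 * L ^ β) ^ 2 := by
      calc 9 * L ^ 2 * (2 * L ^ d) ^ 10 * (2 * L ^ β) ^ 2 = 36864 * L ^ (10 * d + 2 * β + 2) := by ring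
        _ ≤ X := by linarith [pow_pos hL0 (10 * d + 2 * β + 2)]
        _ ≤ (X : ℝ) ^ 2 := by nlinarith
        _ ≤ (2 * (h * L ^ β)) ^ 2 := by gcongr
        _ = (h : ℝ) ^ 2 * (2 * L ^ β) ^ 2 := by ring
    exact e2.trans (le_of_mul_le_mul_right e3 (by positivity))
  have c6 : Real.log (2 * a * N) ≤ L := by
    rw [hL]
    apply Real.log_le_log (by positivity)
    exact c3.trans hhX
  have c7 : 0 ≤ Real.log (2 * a * N) := Real.log_nonneg (by nlinarith)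
  have c8 : 2 * (l0 : ℝ) ≤ h := by
    refine le_trans ?_ c3
    nlinarith
  -- integers
  have hZ1 : 2 * a * (N : ℤ) ≤ (h : ℤ) := by exact_mod_cast c3
  have hZ2 : (D : ℤ) ≤ 2 * a * (N : ℤ) := by exact_mod_cast c4
  obtain ⟨G, hG⟩ : ∃ G, G = C * (N : ℝ) ^ 2 := ⟨_, rfl⟩
  have hXN : (X : ℝ) ≤ (N : ℝ) ^ 2 := by linarith
  have hG1 : ((gq a b (N' : ℤ) + (X : ℤ) : ℤ) : ℝ) ≤ G := by
    unfold gq
    push_cast
    have e1 : (N' : ℝ) ≤ 2 * N := by exact_mod_cast hNN2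
    have e2 : (N : ℝ) ≤ (N : ℝ) ^ 2 := by nlinarith
    calc (a : ℝ) * (N' : ℝ) ^ 2 + b * N' + X ≤ a * (2 * N) ^ 2 + b * (2 * N) + X := by gcongr
      _ ≤ a * (2 * N) ^ 2 + b * (2 * (N : ℝ) ^ 2) + (N : ℝ) ^ 2 := by gcongr
      _ = G := by rw [hG, hC]; ring
  have hhG : (h : ℝ) ≤ G := by
    rw [hG]
    have : (N : ℝ) ^ 2 ≤ C * (N : ℝ) ^ 2 := le_mul_of_one_le_left (by positivity) hC1
    linarith
  have hlow : 0 ≤ gq a b (N : ℤ) - (X : ℤ) := by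
    unfold gq
    have e1 : (2 : ℤ) * X ≤ (N : ℤ) ^ 2 := by exact_mod_cast hN1
    have e2 : (N : ℤ) ^ 2 ≤ a * (N : ℤ) ^ 2 := by nlinarith [sq_nonneg (N : ℤ)]
    have e3 : 0 ≤ b * (N : ℤ) := by positivity
    have e4 : (0 : ℤ) ≤ X := by positivity
    linarith
  have hmain := V1 (a := a) (b := b) (X := (X : ℤ)) (N := (N : ℤ)) (N' := (N' : ℤ)) (h := h) (D := D) (L0 := l0)
    ha hb (by exact_mod_cast hN0) (by exact_mod_cast hNN) (by exact_mod_cast hNN2) (by positivity) hh1 hD1 c1 hZ1 hZ2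
    hl01 u (3 * L) G (X / (N * L ^ s)) (by positivity) (by positivity) (fun x hx0 hx1 => hu x hx0 (by
      refine hx1.trans ?_
      calc G + h ≤ G + G := by linarith
        _ = 2 * C * (N : ℝ) ^ 2 := by rw [hG]; ring
        _ ≤ X * (X : ℝ) ^ 2 := by gcongr
        _ = (X : ℝ) ^ 3 := by ring)) hG1 hlow hhG
  rw [← hD, ← hh]
  refine hmain.trans ?_
  push_cast
  have s1 := t1 (x := X) (n := N) (L := L) (D := D) (l0 := l0) (A := A) (d := d) (b2 := b2) (by linarith) hXR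
    (by positivity) (by positivity) hDhi (by exact_mod_cast hl01) hl0hi hb2
  have s2 := t2 (x := X) (n := N) (L := L) (G := G) (C := C) (A := A) (s := s) hC1 (by linarith) hXR (by positivity)
    hG hs
  have s3 := t3 (x := X) (n := N) (L := L) (G := G) (C := C) (D := D) (h := h) (a := a) (A := A) (s := s) (d := d)
    ha1 hC1 (by linarith) hXR (by positivity) hNX hG hs hd hDlo hh0 c7 (by linarith) c5 c2
  have s4 := t4 (x := X) (n := N) (L := L) (G := G) (C := C) (D := D) (h := h) (a := a) (l0 := l0) (A := A) (s := s)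
    (d := d) (b1 := b1) (b2 := b2) ha1 hC1 (by linarith) hXR hNR hG hs hb1 (by positivity) hDhi hh0
    (by rw [← hβ]; exact hhhi) (by exact_mod_cast hl01) hl0lo c8
  have s5 : (X : ℝ) * (N : ℝ) ^ 2 / L ^ A = 4 * (X * (N : ℝ) ^ 2 / (4 * L ^ A)) := by
    field_simp
  rw [s5]
  rw [mul_add] at *
  linarith

end Pool.Agent.K9h10.LR
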