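import Mathlib
import Pool.Agent.K9h10.LR.V2
import Pool.Agent.K9h10.LR.M1
import Pool.Agent.TH445.OI.A3
import Pool.Agent.R460.SB.Main

/-!
# The main term: the theorem of Siegel and Walfisz and the choice of the parameters
-/

set_option autoImplicit false

namespace Pool.Agent.K9h10.LR

open Finset
open Pool.Agent.Helper112
open Pool.Agent.R460.SQ (thp ppw vm_split ppw_nn)
open Pool.Agent.R460.SB (sum_ppw')
open Pool.Agent.TH445.OI (kap kap_norm sw_rat)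

/-- the logarithm on the primes -/
noncomputable def up (x : ℤ) : ℂ := (thp x.toNat : ℂ)

open Classical in
/-- the mean value of `e(p b / d)` -/
noncomputable def kp (r : Σ _ : ℕ, ℕ) : ℂ :=
  if h : r.1 = 0 then 0 else @kap r.1 ⟨h⟩ ((r.2 : ℕ) : ZMod r.1)

lemma kp_norm (r : Σ _ : ℕ, ℕ) : ‖kp r‖ ≤ 1 := by
  unfold kp
  split_ifs with h
  · simp
  · exact @kap_norm r.1 ⟨h⟩ _

lemma sw_up (U K : ℕ) : ∃ y0 : ℕ, ∀ y : ℕ, y0 ≤ y → ∀ r : (Σ _ : ℕ, ℕ), 0 < r.1 → (r.1 : ℝ) ≤ Real.log y ^ K →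
    ‖∑ t ∈ Ico (0 : ℤ) y, up t * ee ((t : ℝ) * fv r) - kp r * y‖ ≤ 2 * (y / Real.log y ^ U) := by
  obtain ⟨y1, h1⟩ := sw_rat U K
  obtain ⟨y2, h2⟩ := ev_logpow (2 * U + 2) 4
  obtain ⟨y3, h3⟩ := ev_loglarge 1
  refine ⟨max (max y1 y2) (max y3 1), fun y hy r hr hrK => ?_⟩
  have g1 := h1 y (by omega)
  have g2 := h2 y (by omega)
  have g3 := h3 y (by omega)
  have hy1 : 1 ≤ y := by omega
  have hyR : (1 : ℝ) ≤ y := by exact_mod_cast hy1
  have hL0 : 0 < Real.log y := by linarith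
  have : NeZero r.1 := ⟨hr.ne'⟩
  have g4 := g1 r.1 hrK ((r.2 : ℕ) : ZMod r.1)
  have ekp : kp r = kap r.1 ((r.2 : ℕ) : ZMod r.1) := by
    unfold kp
    rw [dif_neg hr.ne']
  have esac : ∀ n : ℕ, ee ((n : ℝ) * fv r) = ZMod.stdAddChar ((n : ZMod r.1) * ((r.2 : ℕ) : ZMod r.1)) := by
    intro n
    have e1 : (n : ZMod r.1) * ((r.2 : ℕ) : ZMod r.1) = (((n : ℤ) * r.2 : ℤ) : ZMod r.1) := by push_cast; rfl
    rw [e1, ZMod.stdAddChar_coe]
    unfold ee fv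
    congr 1
    push_cast
    ring
  have e1 : ∑ t ∈ Ico (0 : ℤ) y, up t * ee ((t : ℝ) * fv r) =
      ∑ n ∈ range y, (thp n : ℂ) * ZMod.stdAddChar ((n : ZMod r.1) * ((r.2 : ℕ) : ZMod r.1)) := by
    have := sum_Ico_range 0 y (fun t => up t * ee ((t : ℝ) * fv r))
    rw [zero_add] at this
    rw [this]
    refine sum_congr rfl fun n _ => ?_
    rw [← esac n]
    unfold up
    simp
  have e2 : ∑ t ∈ Ico (0 : ℤ) y, up t * ee ((t : ℝ) * fv r) - kp r * y =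
      ∑ d ∈ range y, ((ArithmeticFunction.vonMangoldt d : ℂ) *
        ZMod.stdAddChar ((d : ZMod r.1) * ((r.2 : ℕ) : ZMod r.1)) - kap r.1 ((r.2 : ℕ) : ZMod r.1)) -
      ∑ n ∈ range y, (ppw n : ℂ) * ZMod.stdAddChar ((n : ZMod r.1) * ((r.2 : ℕ) : ZMod r.1)) := by
    rw [e1, ekp, sum_sub_distrib, sum_const, card_range, nsmul_eq_mul]
    have e3 : ∑ d ∈ range y, ((ArithmeticFunction.vonMangoldt d : ℝ) : ℂ) *
        ZMod.stdAddChar ((d : ZMod r.1) * ((r.2 : ℕ) : ZMod r.1)) =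
        ∑ n ∈ range y, (thp n : ℂ) * ZMod.stdAddChar ((n : ZMod r.1) * ((r.2 : ℕ) : ZMod r.1)) +
        ∑ n ∈ range y, (ppw n : ℂ) * ZMod.stdAddChar ((n : ZMod r.1) * ((r.2 : ℕ) : ZMod r.1)) := by
      rw [← sum_add_distrib]
      refine sum_congr rfl fun n _ => ?_
      rw [vm_split]
      push_cast
      ring
    rw [e3]
    ring
  rw [e2]
  refine (norm_sub_le _ _).trans ?_
  have e3 : ‖∑ n ∈ range y, (ppw n : ℂ) * ZMod.stdAddChar ((n : ZMod r.1) * ((r.2 : ℕ) : ZMod r.1))‖ ≤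
      y / Real.log y ^ U := by
    refine (norm_sum_le _ _).trans ?_
    have k1 : ∀ n ∈ range y, ‖(ppw n : ℂ) * (ZMod.stdAddChar ((n : ZMod r.1) * ((r.2 : ℕ) : ZMod r.1)) : ℂ)‖ ≤
        ppw n := by
      intro n _
      rw [← esac n, norm_mul, ls_norm_ee, mul_one, Complex.norm_real, Real.norm_eq_abs, abs_of_nonneg (ppw_nn n)]
    refine (sum_le_sum k1).trans ?_
    have k2 : ∑ n ∈ range y, ppw n ≤ ∑ n ∈ range (y + 1), ppw n := by
      rw [sum_range_succ]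
      linarith [ppw_nn y]
    refine k2.trans ((sum_ppw' hy1).trans ?_)
    rw [le_div_iff₀ (by positivity)]
    have k3 : 2 * Real.log y ^ (U + 1) ≤ Real.sqrt y := by
      apply Real.le_sqrt_of_sq_le
      calc (2 * Real.log y ^ (U + 1)) ^ 2 = 4 * Real.log y ^ (2 * U + 2) := by ring
        _ ≤ y := g2
    calc 2 * Real.sqrt y * Real.log y * Real.log y ^ U = Real.sqrt y * (2 * Real.log y ^ (U + 1)) := by ring
      _ ≤ Real.sqrt y * Real.sqrt y := by gcongr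
      _ = y := Real.mul_self_sqrt (by positivity)
  linarith

lemma thp_le (n : ℕ) {z : ℝ} (hz : (n : ℝ) ≤ z) (hz1 : 1 ≤ z) : thp n ≤ Real.log z := by
  unfold thp
  split_ifs with h
  · exact Real.log_le_log (by exact_mod_cast h.pos) hz
  · exact Real.log_nonneg hz1

lemma thp_nn (n : ℕ) : 0 ≤ thp n := by
  unfold thp
  split_ifs
  · exact Real.log_natCast_nonneg n
  · exact le_rfl

lemma up_le {X : ℕ} (hX : 1 ≤ X) (x : ℤ) (hx : 0 ≤ x) (hx3 : (x : ℝ) ≤ (X : ℝ) ^ 3) : ‖up x‖ ≤ 3 * Real.log X := by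
  unfold up
  have hXR : (1 : ℝ) ≤ X := by exact_mod_cast hX
  rw [Complex.norm_real, Real.norm_eq_abs, abs_of_nonneg (thp_nn _)]
  have e : ((x.toNat : ℕ) : ℝ) = x := by
    have : ((x.toNat : ℕ) : ℤ) = x := Int.toNat_of_nonneg hx
    exact_mod_cast congrArg (fun z : ℤ => (z : ℝ)) this
  have h1 := thp_le x.toNat (z := (X : ℝ) ^ 3) (by rw [e]; exact hx3) (one_le_pow₀ hXR)
  rw [Real.log_pow] at h1
  exact_mod_cast h1

theorem M2 {a b : ℤ} (ha : 0 < a) (hb : 0 ≤ b) (A d β : ℕ) (hβ : 3 * d + A + 3 ≤ β) : ∃ B : ℕ, ∃ X₀ : ℕ,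
    ∀ X : ℕ, X₀ ≤ X → ∀ N N' : ℕ,
    2 * X ≤ N ^ 2 → (N : ℝ) * Real.log X ^ B ≤ X → N ≤ N' → N' ≤ 2 * N → ∀ c : ℤ, |c| ≤ X →
    ‖∑ n ∈ Ioc (N : ℤ) N', md (hc β X) (Dd d X) up (gq a b n + c) -
      ((N' - N : ℤ) : ℂ) * SS (Dd d X) kp a b c‖ ≤ N / Real.log X ^ A := by
  obtain ⟨C, hC⟩ : ∃ C : ℝ, C = 9 * a + 3 * b + 1 := ⟨_, rfl⟩
  have ha1 : (1 : ℝ) ≤ a := by exact_mod_cast (by omega : 1 ≤ a)
  have hb0 : (0 : ℝ) ≤ b := by exact_mod_cast hb
  have hC1 : 1 ≤ C := by rw [hC]; linarith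
  obtain ⟨U', hU'⟩ : ∃ U', U' = 3 * d + A + 1 := ⟨_, rfl⟩
  obtain ⟨B, hB⟩ : ∃ B, B = β + 3 * d + A + 2 := ⟨_, rfl⟩
  obtain ⟨y0, hy0⟩ := sw_up U' (d + 1)
  obtain ⟨x1, h1⟩ := ev_loglarge (1000 * C)
  obtain ⟨x2, h2⟩ := ev_logpow (2 * (3 * d + 2 + A + β)) 1000000
  refine ⟨B, max (max x1 x2) (max (⌈2 * C⌉₊ + 3) y0), fun X hX N N' hN1 hN2 hNN hNN2 c hc => ?_⟩
  have g1 := h1 X (by omega)
  have g2 := h2 X (by omega)
  have g3 : ⌈2 * C⌉₊ + 3 ≤ X := by omega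
  have g4 : y0 ≤ X := by omega
  obtain ⟨L, hL⟩ : ∃ L, L = Real.log (X : ℝ) := ⟨_, rfl⟩
  rw [← hL] at g1 g2 hN2 ⊢
  have hX2C : 2 * C ≤ X := by
    have := Nat.le_ceil (2 * C)
    have : ((⌈2 * C⌉₊ : ℕ) : ℝ) ≤ X := by exact_mod_cast (by omega : ⌈2 * C⌉₊ ≤ X)
    linarith
  have hL1 : 1 ≤ L := by linarith
  have hL0 : 0 < L := by linarith
  have hX1 : 1 ≤ X := by omega
  have hXR : (1 : ℝ) ≤ X := by exact_mod_cast hX1
  have hX0 : (0 : ℝ) < X := by linarith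
  have hN0 : 0 < N := by
    rcases Nat.eq_zero_or_pos N with h | h
    · subst h; omega
    · exact h
  have hNR : (1 : ℝ) ≤ N := by exact_mod_cast hN0
  have hXN2 : 2 * (X : ℝ) ≤ (N : ℝ) ^ 2 := by exact_mod_cast hN1
  have hXN : (X : ℝ) ≤ (N : ℝ) ^ 2 := by linarith
  have hNX : (N : ℝ) ≤ X := by
    refine le_trans ?_ hN2
    exact le_mul_of_one_le_right (by positivity) (one_le_pow₀ hL1)
  have hpow : ∀ k : ℕ, k ≤ 2 * (3 * d + 2 + A + β) → 1000000 * L ^ k ≤ X := by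
    intro k hk
    refine le_trans ?_ g2
    gcongr
  obtain ⟨D, hD⟩ : ∃ D, D = Dd d X := ⟨_, rfl⟩
  have hDlo : L ^ d ≤ D := by
    rw [hD, Dd, ← hL]
    exact Nat.le_ceil _
  have hDhi : (D : ℝ) ≤ 2 * L ^ d := by
    have := Nat.ceil_lt_add_one (show 0 ≤ L ^ d by positivity)
    rw [hD, Dd, ← hL]
    have : 1 ≤ L ^ d := one_le_pow₀ hL1
    linarith
  have hD1 : 1 ≤ D := by
    have : (0 : ℝ) < D := lt_of_lt_of_le (by positivity) hDlo
    exact_mod_cast this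
  obtain ⟨h, hh⟩ : ∃ h, h = LR.hc β X := ⟨_, rfl⟩
  have hhhi : (h : ℝ) * L ^ β ≤ X := by
    have := Nat.floor_le (show 0 ≤ (X : ℝ) / L ^ β by positivity)
    rw [hh, LR.hc, ← hL]
    rwa [le_div_iff₀ (by positivity)] at this
  have hhlo : (X : ℝ) ≤ 2 * (h * L ^ β) := by
    have e1 := Nat.lt_floor_add_one ((X : ℝ) / L ^ β)
    have e2 : (X : ℝ) / L ^ β - 1 ≤ h := by rw [hh, LR.hc, ← hL]; linarith
    have e3 := hpow β (by omega)
    have e4 : (1 : ℝ) ≤ X / L ^ β / 2 := by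
      rw [div_div, le_div_iff₀ (by positivity)]
      nlinarith [pow_pos hL0 β]
    have e5 : (X : ℝ) / L ^ β / 2 ≤ h := by linarith
    rw [div_div, div_le_iff₀ (by positivity)] at e5
    linarith
  have hh1 : 1 ≤ h := by
    have : (0 : ℝ) < h := by
      by_contra hcon
      push Not at hcon
      have : (h : ℝ) * L ^ β ≤ 0 := mul_nonpos_of_nonpos_of_nonneg hcon (by positivity)
      linarith
    exact_mod_cast this
  have hh0 : (0 : ℝ) < h := by exact_mod_cast hh1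
  have hhX : (h : ℝ) ≤ X := by
    refine le_trans ?_ hhhi
    exact le_mul_of_one_le_right hh0.le (one_le_pow₀ hL1)
  obtain ⟨G, hG⟩ : ∃ G, G = C * (N : ℝ) ^ 2 := ⟨_, rfl⟩
  have hcR : |(c : ℝ)| ≤ X := by exact_mod_cast hc
  have hcR' := abs_le.1 hcR
  have hcZ := abs_le.1 hc
  have hG1 : ((gq a b (3 * (N : ℤ)) + c : ℤ) : ℝ) ≤ G := by
    unfold gq
    push_cast
    have e2 : (N : ℝ) ≤ (N : ℝ) ^ 2 := by nlinarith
    calc (a : ℝ) * (3 * (N : ℝ)) ^ 2 + b * (3 * N) + c ≤ a * (3 * N) ^ 2 + b * (3 * N) + X := by linarith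
      _ ≤ a * (3 * N) ^ 2 + b * (3 * (N : ℝ) ^ 2) + (N : ℝ) ^ 2 := by gcongr
      _ = G := by rw [hG, hC]; ring
  have hhG : (h : ℝ) ≤ G := by
    rw [hG]
    have : (N : ℝ) ^ 2 ≤ C * (N : ℝ) ^ 2 := le_mul_of_one_le_left (by positivity) hC1
    linarith
  have hlow : (X : ℤ) ≤ gq a b (N : ℤ) + c := by
    unfold gq
    have e1 : (2 : ℤ) * X ≤ (N : ℤ) ^ 2 := by exact_mod_cast hN1
    have e2 : (N : ℤ) ^ 2 ≤ a * (N : ℤ) ^ 2 := by nlinarith [sq_nonneg (N : ℤ)]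
    have e3 : 0 ≤ b * (N : ℤ) := by positivity
    linarith [hcZ.1]
  have hlow0 : 0 ≤ gq a b (N : ℤ) + c := by
    have : (0 : ℤ) ≤ X := by positivity
    linarith
  have hu : ∀ x : ℤ, 0 ≤ x → (x : ℝ) ≤ G + h → ‖up x‖ ≤ 3 * L := by
    intro x hx0 hx1
    rw [hL]
    refine up_le hX1 x hx0 (hx1.trans ?_)
    calc G + h ≤ G + G := by linarith
      _ = 2 * C * (N : ℝ) ^ 2 := by rw [hG]; ring
      _ ≤ X * (X : ℝ) ^ 2 := by gcongr
      _ = (X : ℝ) ^ 3 := by ring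
  obtain ⟨W, hWd⟩ : ∃ W, W = 2 * (G / L ^ U') := ⟨_, rfl⟩
  have hG0 : 0 < G := by linarith
  have hW0 : 0 ≤ W := by rw [hWd]; positivity
  have hDN : (D : ℝ) ^ 3 * 10 * L ≤ N / (4 * L ^ A) := by
    rw [le_div_iff₀ (by positivity)]
    have e1 := hpow (2 * (3 * d + 1 + A)) (by omega)
    have e2 : (D : ℝ) ^ 3 * 10 * L * (4 * L ^ A) ≤ 320 * L ^ (3 * d + 1 + A) := by
      calc (D : ℝ) ^ 3 * 10 * L * (4 * L ^ A) ≤ (2 * L ^ d) ^ 3 * 10 * L * (4 * L ^ A) := by gcongr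
        _ = 320 * L ^ (3 * d + 1 + A) := by ring
    refine e2.trans ?_
    have e3 : (320 * L ^ (3 * d + 1 + A)) ^ 2 ≤ (N : ℝ) ^ 2 := by
      calc (320 * L ^ (3 * d + 1 + A)) ^ 2 = 102400 * L ^ (2 * (3 * d + 1 + A)) := by ring
        _ ≤ X := by linarith [pow_pos hL0 (2 * (3 * d + 1 + A))]
        _ ≤ (N : ℝ) ^ 2 := hXN
    exact le_of_sq_le_sq e3 (by positivity)
  have hDNN : D ≤ N := by
    have e1 : (D : ℝ) ≤ N := by
      have e2 : N / (4 * L ^ A) ≤ (N : ℝ) := by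
        apply div_le_self (by positivity)
        have : 1 ≤ L ^ A := one_le_pow₀ hL1
        linarith
      have e3 : (D : ℝ) ≤ (D : ℝ) ^ 3 * 10 * L := by
        have hDR : (1 : ℝ) ≤ D := by exact_mod_cast hD1
        have : (D : ℝ) ≤ (D : ℝ) ^ 3 := le_self_pow₀ hDR (by norm_num)
        nlinarith [mul_pos (lt_of_lt_of_le one_pos hDR) hL0]
      linarith
    exact_mod_cast e1
  -- the theorem of Siegel and Walfisz
  have hsw : ∀ r ∈ FR D, ∀ y : ℤ, gq a b (N : ℤ) + c ≤ y → (y : ℝ) ≤ G →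
      ‖∑ t ∈ Ico 0 y, up t * ee ((t : ℝ) * fv r) - kp r * y‖ ≤ W := by
    intro r hr y hy1 hy2
    unfold FR at hr
    rw [mem_sigma, mem_Icc] at hr
    obtain ⟨m, hm⟩ := Int.eq_ofNat_of_zero_le (show 0 ≤ y by linarith)
    subst hm
    have hmX : X ≤ m := by
      have : (X : ℤ) ≤ m := by linarith
      exact_mod_cast this
    have hmR : (X : ℝ) ≤ m := by exact_mod_cast hmX
    have hLm : L ≤ Real.log m := by
      rw [hL]
      exact Real.log_le_log hX0 hmR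
    have e1 : (r.1 : ℝ) ≤ Real.log m ^ (d + 1) := by
      have k1 : (r.1 : ℝ) ≤ D := by exact_mod_cast hr.1.2
      calc (r.1 : ℝ) ≤ 2 * L ^ d := k1.trans hDhi
        _ ≤ L * L ^ d := by
            gcongr
            linarith
        _ = L ^ (d + 1) := by ring
        _ ≤ Real.log m ^ (d + 1) := by gcongr
    have e2 := hy0 m (by omega) r (by omega) e1
    have e3 : (m : ℝ) / Real.log m ^ U' ≤ G / L ^ U' := by
      have k1 : (m : ℝ) ≤ G := by exact_mod_cast hy2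
      gcongr
    rw [hWd]
    push_cast at e2 ⊢
    linarith
  -- the sum over the fractions
  have hcast : ∀ F : ℤ → ℂ, ∑ n ∈ Ioc (N : ℤ) N', F n = ∑ i ∈ range (N' - N), F ((N : ℤ) + 1 + i) := by
    intro F
    have e1 := sum_Ico_range ((N : ℤ) + 1) (N' - N) F
    rw [← e1]
    congr 1
    ext x
    rw [mem_Ioc, mem_Ico]
    omega
  rw [← hD, ← hh, hcast]
  obtain ⟨T, hT⟩ : ∃ T : ℝ, T = 2 * (3 * L) * (G / h + 1) + 2 * (2 * h * (3 * L) + W) / N + 3 * L + 1 := ⟨_, rfl⟩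
  have hT0 : 0 ≤ T := by rw [hT]; positivity
  have hone : ∀ r ∈ FR D, ‖∑ i ∈ range (N' - N), sr h up r (gq a b (N + 1 + i) + c) * phs a b c r (N + 1 + i) -
      kp r * om a b c r * ((N' - N : ℕ) : ℂ)‖ ≤ D * T := by
    intro r hr
    have hr' := hr
    unfold FR at hr'
    rw [mem_sigma, mem_Icc] at hr'
    have k0 : r.1 ≤ D := hr'.1.2
    have k1 := main_one (a := a) (b := b) (c := c) ha hb N (N' - N) h hN0 hh1 r (by omega) (by omega)
      (by omega) up (3 * L) G W (by positivity) (kp r) (kp_norm r) hlow0 hG1 hu (hsw r hr)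
    refine k1.trans ?_
    rw [hT]
    have : (r.1 : ℝ) ≤ D := by exact_mod_cast k0
    gcongr
  have hsum : ∑ i ∈ range (N' - N), md h D up (gq a b ((N : ℤ) + 1 + i) + c) -
      ((N' - N : ℤ) : ℂ) * SS D kp a b c =
      ∑ r ∈ FR D, (∑ i ∈ range (N' - N), sr h up r (gq a b (N + 1 + i) + c) * phs a b c r (N + 1 + i) -
      kp r * om a b c r * ((N' - N : ℕ) : ℂ)) := by
    rw [sum_sub_distrib, sum_comm]
    have e1 : ((N' - N : ℤ) : ℂ) = ((N' - N : ℕ) : ℂ) := by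
      push_cast [Nat.cast_sub hNN]
      ring
    congr 1
    · refine sum_congr rfl fun i _ => ?_
      rw [md_eq]
      refine sum_congr rfl fun r _ => ?_
      unfold phs
      push_cast
      rfl
    · rw [e1]
      unfold SS
      rw [mul_sum]
      refine sum_congr rfl fun r _ => ?_
      ring
  rw [hsum]
  refine (norm_sum_le _ _).trans ((sum_le_card_nsmul _ _ _ hone).trans ?_)
  rw [nsmul_eq_mul]
  have hfin : ((FR D).card : ℝ) * (D * T) ≤ (D : ℝ) ^ 3 * T := by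
    calc ((FR D).card : ℝ) * (D * T) ≤ (D : ℝ) ^ 2 * (D * T) := by
          gcongr
          exact FR_card D
      _ = (D : ℝ) ^ 3 * T := by ring
  refine hfin.trans ?_
  have hD3 : (D : ℝ) ^ 3 ≤ 8 * L ^ (3 * d) := by
    calc (D : ℝ) ^ 3 ≤ (2 * L ^ d) ^ 3 := by gcongr
      _ = 8 * L ^ (3 * d) := by ring
  -- the four parts
  have p1 : (D : ℝ) ^ 3 * (2 * (3 * L) * (G / h)) ≤ N / (4 * L ^ A) := by
    have e1 : G / h ≤ 2 * C * N * L ^ β / L ^ B := by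
      rw [div_le_div_iff₀ hh0 (by positivity), hG]
      calc C * (N : ℝ) ^ 2 * L ^ B = C * N * (N * L ^ B) := by ring
        _ ≤ C * N * X := by gcongr
        _ ≤ C * N * (2 * (h * L ^ β)) := by gcongr
        _ = 2 * C * N * L ^ β * h := by ring
    calc (D : ℝ) ^ 3 * (2 * (3 * L) * (G / h)) ≤ 8 * L ^ (3 * d) * (2 * (3 * L) * (2 * C * N * L ^ β / L ^ B)) := by
          gcongr
      _ ≤ N / (4 * L ^ A) := by
          rw [le_div_iff₀ (by positivity), hB]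
          have e2 : L ^ (β + 3 * d + A + 2) = L ^ β * L ^ (3 * d) * L ^ A * L ^ 2 := by ring
          rw [e2]
          have e3 : 8 * L ^ (3 * d) * (2 * (3 * L) * (2 * C * N * L ^ β / (L ^ β * L ^ (3 * d) * L ^ A * L ^ 2))) *
              (4 * L ^ A) = (384 * C) * N / L := by
            field_simp
            ring
          rw [e3, div_le_iff₀ hL0, mul_comm (N : ℝ) L]
          gcongr
          linarith
  have p2 : (D : ℝ) ^ 3 * (2 * (2 * h * (3 * L)) / N) ≤ N / (4 * L ^ A) := by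
    have e1 : (h : ℝ) ≤ N ^ 2 / L ^ β := by
      rw [le_div_iff₀ (by positivity)]
      linarith
    calc (D : ℝ) ^ 3 * (2 * (2 * h * (3 * L)) / N) ≤ 8 * L ^ (3 * d) * (2 * (2 * (N ^ 2 / L ^ β) * (3 * L)) / N) := by
          gcongr
      _ ≤ N / (4 * L ^ A) := by
          rw [le_div_iff₀ (by positivity)]
          have e3 : 8 * L ^ (3 * d) * (2 * (2 * ((N : ℝ) ^ 2 / L ^ β) * (3 * L)) / N) * (4 * L ^ A) =
              384 * N * (L ^ (3 * d + A + 1) / L ^ β) := by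
            have e2 : L ^ (3 * d + A + 1) = L ^ (3 * d) * L ^ A * L := by ring
            rw [e2]
            field_simp
            ring
          rw [e3]
          have e4 : L ^ (3 * d + A + 1) / L ^ β ≤ 1 / L := by
            rw [div_le_div_iff₀ (by positivity) hL0, one_mul, ← pow_succ]
            apply pow_le_pow_right₀ hL1
            omega
          calc 384 * (N : ℝ) * (L ^ (3 * d + A + 1) / L ^ β) ≤ L * N * (1 / L) := by
                gcongr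
                linarith
            _ = N := by field_simp
  have p3 : (D : ℝ) ^ 3 * (2 * W / N) ≤ N / (4 * L ^ A) := by
    rw [hWd, hG, hU']
    calc (D : ℝ) ^ 3 * (2 * (2 * (C * (N : ℝ) ^ 2 / L ^ (3 * d + A + 1))) / N) ≤
        8 * L ^ (3 * d) * (2 * (2 * (C * (N : ℝ) ^ 2 / L ^ (3 * d + A + 1))) / N) := by gcongr
      _ ≤ N / (4 * L ^ A) := by
          rw [le_div_iff₀ (by positivity)]
          have e2 : L ^ (3 * d + A + 1) = L ^ (3 * d) * L ^ A * L := by ring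
          rw [e2]
          have e3 : 8 * L ^ (3 * d) * (2 * (2 * (C * (N : ℝ) ^ 2 / (L ^ (3 * d) * L ^ A * L))) / N) * (4 * L ^ A) =
              (128 * C) * N / L := by
            field_simp
            ring
          rw [e3, div_le_iff₀ hL0, mul_comm (N : ℝ) L]
          gcongr
          linarith
  have p4 : (D : ℝ) ^ 3 * (2 * (3 * L) + 3 * L + 1) ≤ N / (4 * L ^ A) := by
    refine le_trans ?_ hDN
    have : 2 * (3 * L) + 3 * L + 1 ≤ 10 * L := by linarith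
    calc (D : ℝ) ^ 3 * (2 * (3 * L) + 3 * L + 1) ≤ (D : ℝ) ^ 3 * (10 * L) := by gcongr
      _ = (D : ℝ) ^ 3 * 10 * L := by ring
  have e1 : (D : ℝ) ^ 3 * T = (D : ℝ) ^ 3 * (2 * (3 * L) * (G / h)) + (D : ℝ) ^ 3 * (2 * (2 * h * (3 * L)) / N) +
      (D : ℝ) ^ 3 * (2 * W / N) + (D : ℝ) ^ 3 * (2 * (3 * L) + 3 * L + 1) := by
    rw [hT]
    ring
  have e2 : (N : ℝ) / L ^ A = 4 * (N / (4 * L ^ A)) := by
    field_simp
  rw [e1, e2]
  linarith

end Pool.Agent.K9h10.LR
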