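import Mathlib
import Pool.Agent.K9h10.LR.M2

/-!
# Almost all constant terms
-/

set_option autoImplicit false

namespace Pool.Agent.K9h10.LR

open Finset
open Pool.Agent.R460.SQ (thp)

/-- the weighted number of the primes -/
noncomputable def Th (a b : ℤ) (N N' : ℕ) (c : ℤ) : ℝ := ∑ n ∈ Ioc (N : ℤ) N', thp (gq a b n + c).toNat

lemma Th_cast (a b : ℤ) (N N' : ℕ) (c : ℤ) : ((Th a b N N' c : ℝ) : ℂ) = ∑ n ∈ Ioc (N : ℤ) N', up (gq a b n + c) := by
  unfold Th up
  push_cast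
  rfl

theorem C1 {a b : ℤ} (ha : 0 < a) (hb : 0 ≤ b) (A : ℕ) : ∃ B X₀ : ℕ, ∀ X : ℕ, X₀ ≤ X → ∃ SG : ℤ → ℂ,
    ∀ N N' : ℕ, 2 * X ≤ N ^ 2 → (N : ℝ) * Real.log X ^ B ≤ X → N ≤ N' → N' ≤ 2 * N →
    (((Icc (-(X : ℤ)) X).filter (fun c => N / Real.log X ^ A <
      ‖(Th a b N N' c : ℂ) - ((N' - N : ℤ) : ℂ) * SG c‖)).card : ℝ) ≤ X / Real.log X ^ A := by
  classical
  obtain ⟨d, β, B1, hβ, X1, h1⟩ := V2 ha hb (3 * A + 1)
  obtain ⟨B2, X2, h2⟩ := M2 ha hb (A + 1) d β (by omega)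
  obtain ⟨X3, h3⟩ := ev_loglarge 4
  refine ⟨max B1 B2, max (max X1 X2) (max X3 1), fun X hX => ⟨SS (Dd d X) kp a b, fun N N' hN1 hN2 hNN hNN2 => ?_⟩⟩
  have g3 := h3 X (by omega)
  have hX1 : 1 ≤ X := by omega
  have hXR : (1 : ℝ) ≤ X := by exact_mod_cast hX1
  have hup := up_le hX1
  obtain ⟨L, hL⟩ : ∃ L, L = Real.log (X : ℝ) := ⟨_, rfl⟩
  rw [← hL] at g3 hN2 ⊢
  have hL1 : 1 ≤ L := by linarith
  have hL0 : 0 < L := by linarith
  have hN0 : 0 < N := by
    rcases Nat.eq_zero_or_pos N with h | h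
    · subst h; omega
    · exact h
  have hNR : (1 : ℝ) ≤ N := by exact_mod_cast hN0
  have hNR0 : (0 : ℝ) < N := by linarith
  have q1 : (N : ℝ) * L ^ B1 ≤ X := by
    refine le_trans ?_ hN2
    gcongr
    exact le_max_left _ _
  have q2 : (N : ℝ) * L ^ B2 ≤ X := by
    refine le_trans ?_ hN2
    gcongr
    exact le_max_right _ _
  have hV := h1 X (by omega) N N' hN1 (by rw [← hL]; exact q1) hNN hNN2 up (fun x hx0 hx1 => hup x hx0 hx1)
  have hM := h2 X (by omega) N N' hN1 (by rw [← hL]; exact q2) hNN hNN2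
  rw [← hL] at hV
  simp only [← hL] at hM
  obtain ⟨F, hF⟩ : ∃ F, F = (Icc (-(X : ℤ)) X).filter (fun c => N / L ^ A <
      ‖(Th a b N N' c : ℂ) - ((N' - N : ℤ) : ℂ) * SS (Dd d X) kp a b c‖) := ⟨_, rfl⟩
  rw [← hF]
  have h4 : ∀ c ∈ F, (N / (2 * L ^ A)) ^ 2 ≤
      ‖∑ n ∈ Ioc (N : ℤ) N', Er (hc β X) (Dd d X) up (gq a b n + c)‖ ^ 2 := by
    intro c hc
    rw [hF, mem_filter, mem_Icc] at hc
    obtain ⟨⟨k1, k2⟩, k3⟩ := hc
    have k4 := hM c (abs_le.2 ⟨k1, k2⟩)
    have e1 : (Th a b N N' c : ℂ) - ((N' - N : ℤ) : ℂ) * SS (Dd d X) kp a b c =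
        ∑ n ∈ Ioc (N : ℤ) N', Er (hc β X) (Dd d X) up (gq a b n + c) +
        (∑ n ∈ Ioc (N : ℤ) N', md (hc β X) (Dd d X) up (gq a b n + c) -
          ((N' - N : ℤ) : ℂ) * SS (Dd d X) kp a b c) := by
      rw [Th_cast]
      have e2 : ∑ n ∈ Ioc (N : ℤ) N', up (gq a b n + c) =
          ∑ n ∈ Ioc (N : ℤ) N', Er (hc β X) (Dd d X) up (gq a b n + c) +
          ∑ n ∈ Ioc (N : ℤ) N', md (hc β X) (Dd d X) up (gq a b n + c) := by
        rw [← sum_add_distrib]
        refine sum_congr rfl fun n _ => ?_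
        unfold Er
        ring
      rw [e2]
      ring
    rw [e1] at k3
    have k5 := norm_add_le (∑ n ∈ Ioc (N : ℤ) N', Er (hc β X) (Dd d X) up (gq a b n + c))
      (∑ n ∈ Ioc (N : ℤ) N', md (hc β X) (Dd d X) up (gq a b n + c) - ((N' - N : ℤ) : ℂ) * SS (Dd d X) kp a b c)
    have k6 : (N : ℝ) / L ^ (A + 1) ≤ N / (2 * L ^ A) := by
      apply div_le_div_of_nonneg_left (by positivity) (by positivity)
      rw [pow_succ, mul_comm]
      gcongr
      linarith
    have k7 : (N : ℝ) / L ^ A = N / (2 * L ^ A) + N / (2 * L ^ A) := by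
      field_simp
      ring
    apply pow_le_pow_left₀ (by positivity)
    linarith
  have h5 : (F.card : ℝ) * (N / (2 * L ^ A)) ^ 2 ≤ X * (N : ℝ) ^ 2 / L ^ (3 * A + 1) := by
    have e1 := card_nsmul_le_sum F (fun c => ‖∑ n ∈ Ioc (N : ℤ) N', Er (hc β X) (Dd d X) up (gq a b n + c)‖ ^ 2)
      _ h4
    rw [nsmul_eq_mul] at e1
    refine e1.trans (le_trans ?_ hV)
    apply sum_le_sum_of_subset_of_nonneg
    · rw [hF]
      exact filter_subset _ _
    · intro c _ _
      positivity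
  have h6 : (F.card : ℝ) ≤ 4 * X / L ^ (A + 1) := by
    rw [le_div_iff₀ (by positivity)]
    have e1 : (F.card : ℝ) * (N / (2 * L ^ A)) ^ 2 = (F.card : ℝ) * (N ^ 2 / (4 * (L ^ A) ^ 2)) := by ring
    rw [e1, le_div_iff₀ (by positivity)] at h5
    have e2 : (F.card : ℝ) * ((N : ℝ) ^ 2 / (4 * (L ^ A) ^ 2)) * L ^ (3 * A + 1) =
        (F.card * L ^ (A + 1)) * ((N : ℝ) ^ 2 / 4) := by
      have : L ^ (3 * A + 1) = (L ^ A) ^ 2 * L ^ (A + 1) := by ring
      rw [this]
      field_simp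
    rw [e2] at h5
    have e3 : (X : ℝ) * (N : ℝ) ^ 2 = (4 * X) * ((N : ℝ) ^ 2 / 4) := by ring
    rw [e3] at h5
    exact le_of_mul_le_mul_right h5 (by positivity)
  refine h6.trans ?_
  rw [div_le_div_iff₀ (by positivity) (by positivity), pow_succ]
  have : 0 ≤ (X : ℝ) * L ^ A := by positivity
  nlinarith

lemma Th_nn (a b : ℤ) (N N' : ℕ) (c : ℤ) : 0 ≤ Th a b N N' c := sum_nonneg fun _ _ => thp_nn _

lemma Th_add (a b : ℤ) {N M N' : ℕ} (h1 : N ≤ M) (h2 : M ≤ N') (c : ℤ) :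
    Th a b N N' c = Th a b N M c + Th a b M N' c := by
  unfold Th
  rw [← sum_union]
  · congr 1
    ext x
    simp only [mem_Ioc, mem_union]
    omega
  · rw [disjoint_left]
    intro x hx hx'
    rw [mem_Ioc] at hx hx'
    omega

lemma Th_le {a b : ℤ} (ha : 0 < a) (hb : 0 ≤ b) {X N : ℕ} (hX : 1 ≤ X) (hXab : 4 * a + 2 * b + 1 ≤ X) (hN1 : 2 * X ≤ N ^ 2)
    (hNX : N ≤ X) (c : ℤ) (hc : |c| ≤ X) {N' : ℕ} (hNN : N ≤ N') (hN2 : N' ≤ 2 * N) :
    Th a b N N' c ≤ ((N' - N : ℕ) : ℝ) * (3 * Real.log X) := by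
  unfold Th
  have hXR : (1 : ℝ) ≤ X := by exact_mod_cast hX
  have hcZ := abs_le.1 hc
  have h1 : ∀ n ∈ Ioc (N : ℤ) N', thp (gq a b n + c).toNat ≤ 3 * Real.log X := by
    intro n hn
    rw [mem_Ioc] at hn
    have g1 := gq_mono ha hb (n := (N : ℤ)) (m := n) (by positivity) hn.1.le
    have g2 := gq_mono ha hb (n := n) (m := 2 * (N : ℤ)) (by omega) (by omega)
    have g3 : (X : ℤ) ≤ gq a b (N : ℤ) + c := by
      unfold gq
      have e1 : (2 : ℤ) * X ≤ (N : ℤ) ^ 2 := by exact_mod_cast hN1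
      have e2 : (N : ℤ) ^ 2 ≤ a * (N : ℤ) ^ 2 := by nlinarith [sq_nonneg (N : ℤ)]
      have e3 : 0 ≤ b * (N : ℤ) := by positivity
      linarith [hcZ.1]
    have g4 : gq a b (2 * (N : ℤ)) + c ≤ (X : ℤ) ^ 3 := by
      unfold gq
      have e0 : (N : ℤ) ≤ X := by exact_mod_cast hNX
      have e00 : (0 : ℤ) ≤ N := by positivity
      have e1 : (N : ℤ) ^ 2 ≤ (X : ℤ) ^ 2 := pow_le_pow_left₀ e00 e0 2
      have e2 : (1 : ℤ) ≤ X := by exact_mod_cast hX
      have e3 : (X : ℤ) ≤ (X : ℤ) ^ 2 := by nlinarith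
      calc a * (2 * (N : ℤ)) ^ 2 + b * (2 * N) + c ≤ a * (4 * (N : ℤ) ^ 2) + b * (2 * N) + X := by
            linarith [hcZ.2]
        _ ≤ a * (4 * (X : ℤ) ^ 2) + b * (2 * (X : ℤ) ^ 2) + (X : ℤ) ^ 2 := by
            have : b * (2 * (N : ℤ)) ≤ b * (2 * (X : ℤ) ^ 2) := by
              apply mul_le_mul_of_nonneg_left _ hb
              linarith
            have : a * (4 * (N : ℤ) ^ 2) ≤ a * (4 * (X : ℤ) ^ 2) := by
              apply mul_le_mul_of_nonneg_left _ ha.le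
              linarith
            linarith
        _ = (4 * a + 2 * b + 1) * (X : ℤ) ^ 2 := by ring
        _ ≤ X * (X : ℤ) ^ 2 := by
            apply mul_le_mul_of_nonneg_right hXab (by positivity)
        _ = (X : ℤ) ^ 3 := by ring
    have g5 : 0 ≤ gq a b n + c := by
      have : (0 : ℤ) ≤ X := by positivity
      linarith
    have g6 : (((gq a b n + c : ℤ)) : ℝ) ≤ (X : ℝ) ^ 3 := by
      have : gq a b n + c ≤ (X : ℤ) ^ 3 := by linarith
      exact_mod_cast this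
    have g7 := up_le hX _ g5 g6
    unfold up at g7
    rw [Complex.norm_real, Real.norm_eq_abs, abs_of_nonneg (thp_nn _)] at g7
    exact g7
  refine (sum_le_card_nsmul _ _ _ h1).trans ?_
  rw [nsmul_eq_mul, Int.card_Ioc]
  apply le_of_eq
  congr 2
  omega

/-- all the end points at the same time -/
theorem C2 {a b : ℤ} (ha : 0 < a) (hb : 0 ≤ b) (A : ℕ) : ∃ B X₀ : ℕ, ∀ X : ℕ, X₀ ≤ X → ∃ SG : ℤ → ℂ,
    ∀ N : ℕ, 2 * X ≤ N ^ 2 → (N : ℝ) * Real.log X ^ B ≤ X →
    ∃ Bad : Finset ℤ, (Bad.card : ℝ) ≤ X / Real.log X ^ A ∧ ∀ c : ℤ, |c| ≤ X → c ∉ Bad →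
      ‖SG c‖ ≤ 4 * Real.log X ∧ ∀ y : ℕ, N ≤ y → y ≤ 2 * N →
        ‖(Th a b N y c : ℂ) - ((y - N : ℤ) : ℂ) * SG c‖ ≤ N / Real.log X ^ A := by
  classical
  obtain ⟨B, X1, h1⟩ := C1 ha hb (2 * A + 2)
  obtain ⟨X2, h2⟩ := ev_loglarge 100
  obtain ⟨X3, h3⟩ := ev_logpow (2 * (A + 1)) 10000
  refine ⟨B, max (max X1 X2) (max X3 ((4 * a + 2 * b + 1).toNat + 1)), fun X hX => ?_⟩
  obtain ⟨SG, h4⟩ := h1 X (by omega)
  refine ⟨SG, fun N hN1 hN2 => ?_⟩
  have g2 := h2 X (by omega)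
  have g3 := h3 X (by omega)
  have hX1 : 1 ≤ X := by omega
  have hXab : 4 * a + 2 * b + 1 ≤ X := by
    have : (4 * a + 2 * b + 1).toNat + 1 ≤ X := by omega
    omega
  have hXR : (1 : ℝ) ≤ X := by exact_mod_cast hX1
  have h5 := h4 N
  have hTl := fun c hc y hy1 hy2 => Th_le ha hb (X := X) (N := N) hX1 hXab hN1 (by
    have : (N : ℝ) ≤ X := by
      refine le_trans ?_ hN2
      exact le_mul_of_one_le_right (by positivity) (one_le_pow₀ (by linarith))
    exact_mod_cast this) c hc (N' := y) hy1 hy2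
  obtain ⟨L, hL⟩ : ∃ L, L = Real.log (X : ℝ) := ⟨_, rfl⟩
  rw [← hL] at g2 g3 hN2 ⊢
  simp only [← hL] at h5 hTl
  have hL1 : 1 ≤ L := by linarith
  have hL0 : 0 < L := by linarith
  have hN0 : 0 < N := by
    rcases Nat.eq_zero_or_pos N with h | h
    · subst h; omega
    · exact h
  have hNR : (1 : ℝ) ≤ N := by exact_mod_cast hN0
  have hNR0 : (0 : ℝ) < N := by linarith
  -- the grid
  obtain ⟨T, hT⟩ : ∃ T : ℕ, T = ⌈32 * L ^ (A + 1)⌉₊ := ⟨_, rfl⟩
  have hTlo : 32 * L ^ (A + 1) ≤ T := by rw [hT]; exact Nat.le_ceil _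
  have hThi : (T : ℝ) ≤ 33 * L ^ (A + 1) := by
    have := Nat.ceil_lt_add_one (show 0 ≤ 32 * L ^ (A + 1) by positivity)
    rw [← hT] at this
    have : 1 ≤ L ^ (A + 1) := one_le_pow₀ hL1
    linarith
  have hT0 : 0 < T := by
    have : (0 : ℝ) < T := lt_of_lt_of_le (by positivity) hTlo
    exact_mod_cast this
  have hTR : (0 : ℝ) < T := by exact_mod_cast hT0
  have hTN : (T : ℝ) ≤ N := by
    refine hThi.trans ?_
    have e3 : (33 * L ^ (A + 1)) ^ 2 ≤ (N : ℝ) ^ 2 := by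
      calc (33 * L ^ (A + 1)) ^ 2 = 1089 * L ^ (2 * (A + 1)) := by ring
        _ ≤ X := by linarith [pow_pos hL0 (2 * (A + 1))]
        _ ≤ 2 * X := by linarith
        _ ≤ (N : ℝ) ^ 2 := by exact_mod_cast hN1
    exact le_of_sq_le_sq e3 (by positivity)
  obtain ⟨P, hP⟩ : ∃ P : ℕ → ℕ, P = fun t => N + t * N / T := ⟨_, rfl⟩
  have hPN : ∀ t, N ≤ P t := fun t => by rw [hP]; exact Nat.le_add_right _ _
  have hP2N : ∀ t ≤ T, P t ≤ 2 * N := by
    intro t ht
    rw [hP]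
    have : t * N / T ≤ N := by
      apply Nat.div_le_of_le_mul
      exact Nat.mul_le_mul_right N ht
    simp only
    omega
  obtain ⟨Bad, hBad⟩ : ∃ Bad : Finset ℤ, Bad = (range (T + 1)).biUnion (fun t =>
    (Icc (-(X : ℤ)) X).filter (fun c => N / L ^ (2 * A + 2) < ‖(Th a b N (P t) c : ℂ) - ((P t - N : ℤ) : ℂ) * SG c‖)) :=
    ⟨_, rfl⟩
  refine ⟨Bad, ?_, ?_⟩
  · have e1 : (Bad.card : ℝ) ≤ ∑ _t ∈ range (T + 1), (X : ℝ) / L ^ (2 * A + 2) := by
      have e2 : (Bad.card : ℝ) ≤ ∑ t ∈ range (T + 1), (((Icc (-(X : ℤ)) X).filter (fun c => N / L ^ (2 * A + 2) <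
          ‖(Th a b N (P t) c : ℂ) - ((P t - N : ℤ) : ℂ) * SG c‖)).card : ℝ) := by
        rw [hBad]
        exact_mod_cast card_biUnion_le
      refine e2.trans (sum_le_sum fun t ht => ?_)
      rw [mem_range] at ht
      exact h5 (P t) hN1 hN2 (hPN t) (hP2N t (by omega))
    rw [sum_const, card_range, nsmul_eq_mul] at e1
    refine e1.trans ?_
    push_cast
    calc ((T : ℝ) + 1) * (X / L ^ (2 * A + 2)) ≤ (34 * L ^ (A + 1)) * (X / L ^ (2 * A + 2)) := by
          have : 1 ≤ L ^ (A + 1) := one_le_pow₀ hL1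
          gcongr
          linarith
      _ ≤ (L * L ^ (A + 1)) * (X / L ^ (2 * A + 2)) := by
          gcongr
          linarith
      _ = X / L ^ A := by
          have : L ^ (2 * A + 2) = L ^ A * L ^ (A + 1) * L := by ring
          rw [this]
          field_simp
  · intro c hc hcB
    have hgrid : ∀ t ≤ T, ‖(Th a b N (P t) c : ℂ) - ((P t - N : ℤ) : ℂ) * SG c‖ ≤ N / L ^ (2 * A + 2) := by
      intro t ht
      by_contra hcon
      push Not at hcon
      apply hcB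
      rw [hBad, mem_biUnion]
      refine ⟨t, mem_range.2 (by omega), ?_⟩
      rw [mem_filter, mem_Icc]
      exact ⟨abs_le.1 hc, hcon⟩
    have hPT : P T = 2 * N := by
      rw [hP]
      simp only
      rw [Nat.mul_div_cancel_left _ hT0]
      ring
    have hpe : (N : ℝ) / L ^ (2 * A + 2) ≤ N := by
      apply div_le_self hNR0.le
      exact one_le_pow₀ hL1
    -- the bound for the constant
    have hSG : ‖SG c‖ ≤ 4 * L := by
      have k1 := hgrid T le_rfl
      rw [hPT] at k1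
      have k2 := hTl c hc (2 * N) (by omega) le_rfl
      have e1 : (((2 * N : ℕ) : ℤ) - (N : ℤ) : ℤ) = N := by push_cast; ring
      rw [e1] at k1
      have e2 : 2 * N - N = N := by omega
      rw [e2] at k2
      have k3 : ‖((N : ℤ) : ℂ) * SG c‖ ≤ ‖(Th a b N (2 * N) c : ℂ)‖ +
          ‖(Th a b N (2 * N) c : ℂ) - ((N : ℤ) : ℂ) * SG c‖ := by
        have := norm_sub_le (Th a b N (2 * N) c : ℂ) ((Th a b N (2 * N) c : ℂ) - ((N : ℤ) : ℂ) * SG c)
        rwa [sub_sub_cancel] at this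
      rw [norm_mul, Complex.norm_real, Real.norm_eq_abs, abs_of_nonneg (Th_nn _ _ _ _ _)] at k3
      have e3 : ‖((N : ℤ) : ℂ)‖ = N := by
        push_cast
        exact Complex.norm_natCast N
      rw [e3] at k3
      have k4 : (N : ℝ) * ‖SG c‖ ≤ N * (4 * L) := by
        calc (N : ℝ) * ‖SG c‖ ≤ N * (3 * L) + N := by linarith
          _ = N * (3 * L + 1) := by ring
          _ ≤ N * (4 * L) := by
              gcongr
              linarith
      exact le_of_mul_le_mul_left k4 hNR0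
    refine ⟨hSG, ?_⟩
    intro y hy1 hy2
    have hA2 : (N : ℝ) / L ^ (2 * A + 2) ≤ N / L ^ A / 16 := by
      rw [div_div, div_le_div_iff₀ (by positivity) (by positivity)]
      have e1 : L ^ (2 * A + 2) = L ^ A * (L ^ A * L) * L := by ring
      have e2 : 1 ≤ L ^ A := one_le_pow₀ hL1
      rw [e1]
      have e3 : L ^ A * 16 ≤ L ^ A * (L ^ A * L) * L := by
        calc L ^ A * 16 ≤ L ^ A * (1 * 1 * 16) := by linarith
          _ ≤ L ^ A * (L ^ A * L * L) := by
              gcongr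
              linarith
          _ = _ := by ring
      gcongr
    rcases Nat.lt_or_ge y (2 * N) with hy3 | hy3
    · -- the neighbours in the grid
      obtain ⟨t, ht⟩ : ∃ t, t = (y - N) * T / N := ⟨_, rfl⟩
      have htT : t < T := by
        rw [ht]
        apply Nat.div_lt_of_lt_mul
        exact Nat.mul_lt_mul_of_pos_right (by omega) hT0
      have k1 : P t ≤ y := by
        rw [hP]
        simp only
        have e1 : t * N ≤ (y - N) * T := by rw [ht]; exact Nat.div_mul_le_self _ _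
        have e2 : t * N / T ≤ y - N := Nat.div_le_of_le_mul (by rw [mul_comm T]; exact e1)
        omega
      have k2 : y ≤ P (t + 1) := by
        rw [hP]
        simp only
        have e1 : (y - N) * T < (t + 1) * N := by
          rw [ht, mul_comm (((y - N) * T / N) + 1)]
          exact Nat.lt_mul_div_succ _ hN0
        have e2 : y - N ≤ (t + 1) * N / T := (Nat.le_div_iff_mul_le hT0).2 e1.le
        omega
      have k3 : ((P (t + 1) : ℝ) - P t) ≤ 2 * (N / T) := by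
        rw [hP]
        push_cast
        have e1 : (((t + 1) * N / T : ℕ) : ℝ) ≤ ((t : ℝ) + 1) * N / T := by
          have := @Nat.cast_div_le ℝ _ _ _ ((t + 1) * N) T
          push_cast at this
          exact this
        have e2 : (t : ℝ) * N / T - 1 ≤ ((t * N / T : ℕ) : ℝ) := by
          have e3 : t * N < T * (t * N / T + 1) := Nat.lt_mul_div_succ _ hT0
          have e4 : (t : ℝ) * N < T * (((t * N / T : ℕ) : ℝ) + 1) := by exact_mod_cast e3
          rw [sub_le_iff_le_add, div_le_iff₀ hTR]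
          linarith
        have e5 : (1 : ℝ) ≤ N / T := by
          rw [le_div_iff₀ hTR]
          linarith
        have e6 : ((t : ℝ) + 1) * N / T = t * N / T + N / T := by ring
        linarith
      have k4 := hgrid t (by omega)
      have k5 := hgrid (t + 1) (by omega)
      have hk12 : P t ≤ P (t + 1) := k1.trans k2
      have k6 : Th a b (P t) (P (t + 1)) c ≤ 2 * (N / T) * (4 * L) + 2 * (N / L ^ (2 * A + 2)) := by
        have e1 := Th_add a b (hPN t) hk12 c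
        have e2 : ((Th a b (P t) (P (t + 1)) c : ℝ) : ℂ) =
            ((Th a b N (P (t + 1)) c : ℂ) - ((P (t + 1) - N : ℤ) : ℂ) * SG c) -
            ((Th a b N (P t) c : ℂ) - ((P t - N : ℤ) : ℂ) * SG c) + (((P (t + 1) : ℝ) - P t : ℝ) : ℂ) * SG c := by
          rw [e1]
          push_cast
          ring
        have e3 : Th a b (P t) (P (t + 1)) c = ‖((Th a b (P t) (P (t + 1)) c : ℝ) : ℂ)‖ := by
          rw [Complex.norm_real, Real.norm_eq_abs, abs_of_nonneg (Th_nn _ _ _ _ _)]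
        rw [e3, e2]
        refine (norm_add_le _ _).trans ?_
        have e4 := norm_sub_le ((Th a b N (P (t + 1)) c : ℂ) - ((P (t + 1) - N : ℤ) : ℂ) * SG c)
          ((Th a b N (P t) c : ℂ) - ((P t - N : ℤ) : ℂ) * SG c)
        have e5 : ‖(((P (t + 1) : ℝ) - P t : ℝ) : ℂ) * SG c‖ ≤ 2 * (N / T) * (4 * L) := by
          have e6 : (0 : ℝ) ≤ (P (t + 1) : ℝ) - P t := by
            have : (P t : ℝ) ≤ P (t + 1) := by exact_mod_cast hk12
            linarith
          rw [norm_mul, Complex.norm_real, Real.norm_eq_abs, abs_of_nonneg e6]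
          exact mul_le_mul k3 hSG (norm_nonneg _) (by positivity)
        linarith
      have k7 : (Th a b N y c : ℂ) - ((y - N : ℤ) : ℂ) * SG c =
          ((Th a b N (P t) c : ℂ) - ((P t - N : ℤ) : ℂ) * SG c) + ((Th a b (P t) y c : ℝ) : ℂ) -
          (((y : ℝ) - P t : ℝ) : ℂ) * SG c := by
        rw [Th_add a b (hPN t) k1 c]
        push_cast
        ring
      rw [k7]
      refine (norm_sub_le _ _).trans ?_
      have k8 := norm_add_le ((Th a b N (P t) c : ℂ) - ((P t - N : ℤ) : ℂ) * SG c) ((Th a b (P t) y c : ℝ) : ℂ)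
      have k9 : ‖((Th a b (P t) y c : ℝ) : ℂ)‖ ≤ Th a b (P t) (P (t + 1)) c := by
        rw [Complex.norm_real, Real.norm_eq_abs, abs_of_nonneg (Th_nn _ _ _ _ _), Th_add a b k1 k2 c]
        linarith [Th_nn a b y (P (t + 1)) c]
      have k10 : ‖(((y : ℝ) - P t : ℝ) : ℂ) * SG c‖ ≤ 2 * (N / T) * (4 * L) := by
        have e6 : (0 : ℝ) ≤ (y : ℝ) - P t := by
          have : (P t : ℝ) ≤ y := by exact_mod_cast k1
          linarith
        have e7 : (y : ℝ) ≤ P (t + 1) := by exact_mod_cast k2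
        rw [norm_mul, Complex.norm_real, Real.norm_eq_abs, abs_of_nonneg e6]
        exact mul_le_mul (by linarith) hSG (norm_nonneg _) (by positivity)
      have k11 : 2 * ((N : ℝ) / T) * (4 * L) ≤ N / L ^ A / 4 := by
        have e1 : (N : ℝ) / T ≤ N / (32 * L ^ (A + 1)) := by gcongr
        calc 2 * ((N : ℝ) / T) * (4 * L) ≤ 2 * (N / (32 * L ^ (A + 1))) * (4 * L) := by gcongr
          _ = N / L ^ A / 4 := by
              rw [pow_succ]
              field_simp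
              ring
      have k12 : (0 : ℝ) ≤ N / L ^ A := by positivity
      linarith
    · have e1 : y = P T := by rw [hPT]; omega
      rw [e1]
      have := hgrid T le_rfl
      have k12 : (0 : ℝ) ≤ N / L ^ A := by positivity
      linarith

end Pool.Agent.K9h10.LR
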