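import Mathlib
import Pool.Agent.K9h10.LR.C1
import Pool.Agent.R460.SC.Fc

/-!
# Almost all constant terms: all the ranges at the same time, and the constant
-/

set_option autoImplicit false

namespace Pool.Agent.K9h10.LR

open Finset Filter Topology
open Pool.Agent.R460.SQ (thp)
open Pool.Agent.R460.SB (Sz)
open Pool.Agent.R460.SC (GoodW fin_w)

/-- the initial point -/
def n0 (X : ℕ) : ℕ := Nat.sqrt (2 * X) + 1

lemma n0_lo (X : ℕ) : 2 * X ≤ n0 X ^ 2 := by
  unfold n0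
  have := Nat.lt_succ_sqrt' (2 * X)
  simp only [Nat.succ_eq_add_one] at this
  omega

lemma n0_hi (X : ℕ) : (n0 X : ℝ) ≤ Real.sqrt (2 * X) + 1 := by
  unfold n0
  push_cast
  have : ((Nat.sqrt (2 * X) : ℕ) : ℝ) ≤ Real.sqrt (2 * X) := by
    apply Real.le_sqrt_of_sq_le
    have := Nat.sqrt_le' (2 * X)
    exact_mod_cast this
  linarith

lemma n0_pos (X : ℕ) : 1 ≤ n0 X := by unfold n0; omega

theorem C3 {a b : ℤ} (ha : 0 < a) (hb : 0 ≤ b) (A : ℕ) : ∃ B X₀ : ℕ, ∀ X : ℕ, X₀ ≤ X → ∃ SG : ℤ → ℂ,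
    ∃ Bad : Finset ℤ, (Bad.card : ℝ) ≤ X / Real.log X ^ A ∧ ∀ c : ℤ, |c| ≤ X → c ∉ Bad →
      ‖SG c‖ ≤ 4 * Real.log X ∧ ∀ y : ℕ, n0 X ≤ y → (y : ℝ) * Real.log X ^ B ≤ X →
        ‖(Th a b (n0 X) y c : ℂ) - ((y - n0 X : ℤ) : ℂ) * SG c‖ ≤ 2 * (y / Real.log X ^ A) := by
  classical
  obtain ⟨B, X1, h1⟩ := C2 ha hb (A + 2)
  obtain ⟨X2, h2⟩ := ev_loglarge 100
  obtain ⟨X3, h3⟩ := ev_logpow (2 * B) 10000
  refine ⟨B, max (max X1 X2) (max X3 100), fun X hX => ?_⟩
  obtain ⟨SG, h4⟩ := h1 X (by omega)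
  have g2 := h2 X (by omega)
  have g3 := h3 X (by omega)
  have hX1 : 1 ≤ X := by omega
  have hXR : (100 : ℝ) ≤ X := by exact_mod_cast (by omega : 100 ≤ X)
  obtain ⟨L, hL⟩ : ∃ L, L = Real.log (X : ℝ) := ⟨_, rfl⟩
  rw [← hL] at g2 g3
  simp only [← hL] at h4 ⊢
  have hL1 : 1 ≤ L := by linarith
  have hL0 : 0 < L := by linarith
  obtain ⟨n, hn⟩ : ∃ n, n = n0 X := ⟨_, rfl⟩
  have hn1 : 1 ≤ n := by rw [hn]; exact n0_pos X
  have hnlo : 2 * X ≤ n ^ 2 := by rw [hn]; exact n0_lo X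
  have hnhi : (n : ℝ) ≤ Real.sqrt (2 * X) + 1 := by rw [hn]; exact n0_hi X
  rw [← hn]
  obtain ⟨Js, hJs⟩ : ∃ Js : Finset ℕ, Js = (range (Nat.log 2 X + 1)).filter
    (fun j => ((2 ^ j * n : ℕ) : ℝ) * L ^ B ≤ X) := ⟨_, rfl⟩
  have hj : ∀ j ∈ Js, ∃ Bad : Finset ℤ, (Bad.card : ℝ) ≤ X / L ^ (A + 2) ∧ ∀ c : ℤ, |c| ≤ X → c ∉ Bad →
      ‖SG c‖ ≤ 4 * L ∧ ∀ y : ℕ, 2 ^ j * n ≤ y → y ≤ 2 * (2 ^ j * n) →
        ‖(Th a b (2 ^ j * n) y c : ℂ) - ((y - (2 ^ j * n : ℕ) : ℤ) : ℂ) * SG c‖ ≤ (2 ^ j * n : ℕ) / L ^ (A + 2) := by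
    intro j hj
    rw [hJs, mem_filter] at hj
    apply h4 (2 ^ j * n) _ hj.2
    calc 2 * X ≤ n ^ 2 := hnlo
      _ ≤ (2 ^ j * n) ^ 2 := Nat.pow_le_pow_left (Nat.le_mul_of_pos_left n (by positivity)) 2
  choose! Bd hBd1 hBd2 using hj
  have hlog2 : ((Nat.log 2 X : ℕ) : ℝ) ≤ 2 * L := by
    have e1 : ((2 : ℝ)) ^ (Nat.log 2 X) ≤ X := by exact_mod_cast Nat.pow_log_le_self 2 (by omega)
    have e2 := Real.log_le_log (by positivity) e1
    rw [Real.log_pow, ← hL] at e2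
    have e3 : (1 : ℝ) / 2 ≤ Real.log 2 := by linarith [Real.log_two_gt_d9]
    have e4 : ((Nat.log 2 X : ℕ) : ℝ) * (1 / 2) ≤ (Nat.log 2 X : ℕ) * Real.log 2 := by gcongr
    linarith
  refine ⟨SG, Js.biUnion Bd, ?_, ?_⟩
  · have e1 : ((Js.biUnion Bd).card : ℝ) ≤ ∑ j ∈ Js, ((Bd j).card : ℝ) := by exact_mod_cast card_biUnion_le
    refine e1.trans ((sum_le_sum (fun j hj => hBd1 j hj)).trans ?_)
    rw [sum_const, nsmul_eq_mul]
    have e2 : (Js.card : ℝ) ≤ 3 * L := by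
      have : Js.card ≤ Nat.log 2 X + 1 := by
        rw [hJs]
        refine (card_filter_le _ _).trans ?_
        rw [card_range]
      have : (Js.card : ℝ) ≤ (Nat.log 2 X : ℕ) + 1 := by exact_mod_cast this
      linarith
    calc (Js.card : ℝ) * (X / L ^ (A + 2)) ≤ (3 * L) * (X / L ^ (A + 2)) := by gcongr
      _ ≤ (L * L) * (X / L ^ (A + 2)) := by
          gcongr
          linarith
      _ = X / L ^ A := by
          rw [pow_add]
          field_simp
  · intro c hc hcB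
    rw [mem_biUnion] at hcB
    push Not at hcB
    have hmemJ : ∀ j : ℕ, ((2 ^ j * n : ℕ) : ℝ) * L ^ B ≤ X → j ∈ Js := by
      intro j hj
      rw [hJs, mem_filter, mem_range]
      refine ⟨?_, hj⟩
      have e1 : ((2 ^ j : ℕ) : ℝ) ≤ X := by
        refine le_trans ?_ hj
        have k1 : ((2 ^ j : ℕ) : ℝ) ≤ ((2 ^ j * n : ℕ) : ℝ) := by exact_mod_cast Nat.le_mul_of_pos_right _ hn1
        have k2 : 1 ≤ L ^ B := one_le_pow₀ hL1
        calc ((2 ^ j : ℕ) : ℝ) ≤ ((2 ^ j * n : ℕ) : ℝ) * 1 := by linarith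
          _ ≤ _ := by gcongr
      have e2 : 2 ^ j ≤ X := by exact_mod_cast e1
      have e3 : j ≤ Nat.log 2 X := (Nat.le_log_iff_pow_le (by norm_num) (by omega)).2 e2
      omega
    have hpe : ∀ z : ℝ, 0 ≤ z → z / L ^ (A + 2) ≤ z / L ^ A / 2 := by
      intro z hz
      rw [div_div]
      apply div_le_div_of_nonneg_left hz (by positivity)
      rw [pow_add]
      have : (2 : ℝ) ≤ L ^ 2 := by nlinarith
      gcongr
    -- the points 2 ^ j n
    have hdy : ∀ j : ℕ, ((2 ^ j * n : ℕ) : ℝ) * L ^ B ≤ X →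
        ‖(Th a b n (2 ^ j * n) c : ℂ) - (((2 ^ j * n : ℕ) - n : ℤ) : ℂ) * SG c‖ ≤ ((2 ^ j * n : ℕ) : ℝ) / L ^ A := by
      intro j
      induction j with
      | zero =>
        intro _
        simp only [pow_zero, one_mul, sub_self, Int.cast_zero, zero_mul, sub_zero]
        have : Th a b n n c = 0 := by unfold Th; simp
        rw [this]
        simp only [Complex.ofReal_zero, norm_zero]
        positivity
      | succ j ih =>
        intro hj
        have e0 : ((2 ^ j * n : ℕ) : ℝ) ≤ ((2 ^ (j + 1) * n : ℕ) : ℝ) := by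
          have : 2 ^ j * n ≤ 2 ^ (j + 1) * n := by
            rw [pow_succ]
            nlinarith [Nat.zero_le (2 ^ j * n)]
          exact_mod_cast this
        have hj' : ((2 ^ j * n : ℕ) : ℝ) * L ^ B ≤ X := by
          refine le_trans ?_ hj
          gcongr
        have h5 := ih hj'
        have h6 := (hBd2 j (hmemJ j hj') c hc (hcB j (hmemJ j hj'))).2 (2 * (2 ^ j * n)) (by omega) le_rfl
        have e1 : 2 ^ (j + 1) * n = 2 * (2 ^ j * n) := by ring
        rw [e1]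
        have e2 : n ≤ 2 ^ j * n := Nat.le_mul_of_pos_left n (by positivity)
        have e3 := Th_add a b e2 (by omega : 2 ^ j * n ≤ 2 * (2 ^ j * n)) c
        have e4 : (Th a b n (2 * (2 ^ j * n)) c : ℂ) - (((2 * (2 ^ j * n) : ℕ) - n : ℤ) : ℂ) * SG c =
            ((Th a b n (2 ^ j * n) c : ℂ) - (((2 ^ j * n : ℕ) - n : ℤ) : ℂ) * SG c) +
            ((Th a b (2 ^ j * n) (2 * (2 ^ j * n)) c : ℂ) -
              (((2 * (2 ^ j * n) : ℕ) - (2 ^ j * n : ℕ) : ℤ) : ℂ) * SG c) := by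
          rw [e3]
          push_cast
          ring
        rw [e4]
        refine (norm_add_le _ _).trans ?_
        have e5 := hpe ((2 ^ j * n : ℕ) : ℝ) (by positivity)
        have e6 : (((2 * (2 ^ j * n) : ℕ)) : ℝ) / L ^ A = ((2 ^ j * n : ℕ) : ℝ) / L ^ A + ((2 ^ j * n : ℕ) : ℝ) / L ^ A := by
          push_cast
          ring
        rw [e6]
        have e7 : 0 ≤ ((2 ^ j * n : ℕ) : ℝ) / L ^ A := by positivity
        linarith
    have h0 : ((2 ^ 0 * n : ℕ) : ℝ) * L ^ B ≤ X := by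
      simp only [pow_zero, one_mul]
      have e1 : (n : ℝ) ≤ 3 * Real.sqrt X := by
        rw [Real.sqrt_mul (by norm_num)] at hnhi
        have e2 : Real.sqrt 2 ≤ 2 := by
          rw [Real.sqrt_le_left (by norm_num)]
          norm_num
        have e3 : 1 ≤ Real.sqrt X := by
          rw [Real.one_le_sqrt]
          linarith
        nlinarith
      have e4 : 3 * L ^ B ≤ Real.sqrt X := by
        apply Real.le_sqrt_of_sq_le
        calc (3 * L ^ B) ^ 2 = 9 * L ^ (2 * B) := by ring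
          _ ≤ X := by linarith [pow_pos hL0 (2 * B)]
      calc (n : ℝ) * L ^ B ≤ 3 * Real.sqrt X * L ^ B := by gcongr
        _ = Real.sqrt X * (3 * L ^ B) := by ring
        _ ≤ Real.sqrt X * Real.sqrt X := by gcongr
        _ = X := Real.mul_self_sqrt (by linarith)
    refine ⟨(hBd2 0 (hmemJ 0 h0) c hc (hcB 0 (hmemJ 0 h0))).1, ?_⟩
    intro y hy1 hy2
    obtain ⟨j, hj⟩ : ∃ j, j = Nat.log 2 (y / n) := ⟨_, rfl⟩
    have hyn : y / n ≠ 0 := by
      have : 1 ≤ y / n := (Nat.one_le_div_iff (by omega)).2 hy1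
      omega
    have k1 : 2 ^ j * n ≤ y := by
      have e1 : 2 ^ j ≤ y / n := by rw [hj]; exact Nat.pow_log_le_self 2 hyn
      exact (Nat.mul_le_mul_right n e1).trans (Nat.div_mul_le_self y n)
    have k2 : y ≤ 2 * (2 ^ j * n) := by
      have e1 : y / n < 2 ^ (j + 1) := by rw [hj]; exact Nat.lt_pow_succ_log_self (by norm_num) _
      have e2 : y < 2 ^ (j + 1) * n := (Nat.div_lt_iff_lt_mul (by omega)).1 e1
      have e3 : 2 ^ (j + 1) * n = 2 * (2 ^ j * n) := by ring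
      omega
    have k1R : ((2 ^ j * n : ℕ) : ℝ) ≤ y := by exact_mod_cast k1
    have k3 : ((2 ^ j * n : ℕ) : ℝ) * L ^ B ≤ X := by
      refine le_trans ?_ hy2
      gcongr
    have h5 := hdy j k3
    have h6 := (hBd2 j (hmemJ j k3) c hc (hcB j (hmemJ j k3))).2 y k1 k2
    have e2 : n ≤ 2 ^ j * n := Nat.le_mul_of_pos_left n (by positivity)
    have e3 := Th_add a b e2 k1 c
    have e4 : (Th a b n y c : ℂ) - ((y - n : ℤ) : ℂ) * SG c =
        ((Th a b n (2 ^ j * n) c : ℂ) - (((2 ^ j * n : ℕ) - n : ℤ) : ℂ) * SG c) +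
        ((Th a b (2 ^ j * n) y c : ℂ) - ((y - (2 ^ j * n : ℕ) : ℤ) : ℂ) * SG c) := by
      rw [e3]
      push_cast
      ring
    rw [e4]
    refine (norm_add_le _ _).trans ?_
    have e5 := hpe ((2 ^ j * n : ℕ) : ℝ) (by positivity)
    have e6 : ((2 ^ j * n : ℕ) : ℝ) / L ^ A ≤ y / L ^ A := by gcongr
    have e7 : 0 ≤ ((2 ^ j * n : ℕ) : ℝ) / L ^ A := by positivity
    linarith

/-- the constant -/
theorem C4 {a b : ℤ} (ha : 0 < a) (hb : 0 ≤ b) (A : ℕ) : ∃ B X₀ : ℕ, ∀ X : ℕ, X₀ ≤ X →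
    ∃ Bad : Finset ℤ, (Bad.card : ℝ) ≤ X / Real.log X ^ A ∧ ∀ c : ℤ, |c| ≤ X → c ∉ Bad →
      ∃ S : ℝ, Tendsto (fun z : ℕ => Sz (-a) (-b) c z) atTop (𝓝 S) ∧ |S| ≤ 5 * Real.log X ∧
        ∀ y : ℕ, n0 X ≤ y → (y : ℝ) * Real.log X ^ B ≤ X →
          |Th a b (n0 X) y c - S * ((y : ℝ) - n0 X)| ≤ y / Real.log X ^ A := by
  classical
  obtain ⟨B, X1, h1⟩ := C3 ha hb (A + 1)
  obtain ⟨X2, h2⟩ := ev_loglarge 100
  obtain ⟨X3, h3⟩ := ev_logpow (2 * B) 10000
  obtain ⟨X4, h4⟩ := fin_w (a := a) (b := b) ha.ne' (1 / 4) (by norm_num) (A + 2) (A + 1) 0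
  refine ⟨B, max (max X1 X2) (max (max X3 X4) 1000), fun X hX => ?_⟩
  obtain ⟨SG, Bad, h5, h6⟩ := h1 X (by omega)
  have g2 := h2 X (by omega)
  have g3 := h3 X (by omega)
  have hX1 : 1000 ≤ X := by omega
  have hXR : (1000 : ℝ) ≤ X := by exact_mod_cast hX1
  have hXR0 : (0 : ℝ) < X := by linarith
  have g4 := h4 (16 * X) (by omega) 1 le_rfl (by
    have : (1 : ℝ) ≤ ((16 * X : ℕ) : ℝ) := by exact_mod_cast (by omega : 1 ≤ 16 * X)
    simpa using Real.one_le_rpow this (by norm_num : (0 : ℝ) ≤ 1 / 2 - 1 / 4)) (by simp) 0 (by simp)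
  have hlogY : Real.log X ≤ Real.log ((16 * X : ℕ) : ℝ) := by
    apply Real.log_le_log hXR0
    push_cast
    linarith
  obtain ⟨L, hL⟩ : ∃ L, L = Real.log (X : ℝ) := ⟨_, rfl⟩
  rw [← hL] at g2 g3 h5 hlogY
  simp only [← hL] at h6 ⊢
  have hL1 : 1 ≤ L := by linarith
  have hL0 : 0 < L := by linarith
  obtain ⟨Bd, hBd⟩ : ∃ Bd, Bd = (Icc (-((16 * X : ℕ) : ℤ)) ((16 * X : ℕ) : ℤ)).filter
    (fun c : ℤ => c ≡ 0 [ZMOD ((1 : ℕ) : ℤ)] ∧ ¬ GoodW a b (A + 1) (16 * X) c) := ⟨_, rfl⟩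
  have hBdc : (Bd.card : ℝ) ≤ 16 * X / L ^ (A + 2) := by
    rw [hBd]
    refine le_trans ?_ (g4.trans ?_)
    · apply le_of_eq
      congr 2
    · push_cast
      rw [one_mul]
      push_cast at hlogY
      gcongr
  obtain ⟨n, hn⟩ : ∃ n, n = n0 X := ⟨_, rfl⟩
  have hn1 : 1 ≤ n := by rw [hn]; exact n0_pos X
  have hnlo : 2 * X ≤ n ^ 2 := by rw [hn]; exact n0_lo X
  have hnhi : (n : ℝ) ≤ Real.sqrt (2 * X) + 1 := by rw [hn]; exact n0_hi X
  rw [← hn] at h6 ⊢
  have hsX : 1 ≤ Real.sqrt X := by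
    rw [Real.one_le_sqrt]
    linarith
  have hn2 : ((2 * n) ^ 2 : ℕ) ≤ 16 * X := by
    have e1 : ((2 * n : ℝ)) ^ 2 ≤ 16 * X := by
      have e2 : (n : ℝ) ≤ Real.sqrt (4 * X) := by
        have e3 : Real.sqrt (2 * X) + 1 ≤ Real.sqrt (4 * X) := by
          apply Real.le_sqrt_of_sq_le
          have e4 : Real.sqrt (2 * X) ^ 2 = 2 * X := Real.sq_sqrt (by positivity)
          have e5 : Real.sqrt (2 * X) ≤ 2 * X / 40 := by
            rw [Real.sqrt_le_left (by positivity)]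
            nlinarith
          nlinarith
        linarith
      have e6 : (n : ℝ) ^ 2 ≤ 4 * X := by
        calc (n : ℝ) ^ 2 ≤ (Real.sqrt (4 * X)) ^ 2 := pow_le_pow_left₀ (by positivity) e2 2
          _ = (4 * X : ℝ) := Real.sq_sqrt (by positivity)
      nlinarith
    exact_mod_cast e1
  have hnX : Real.sqrt X ≤ n := by
    rw [Real.sqrt_le_left (by positivity)]
    have : (2 : ℝ) * X ≤ (n : ℝ) ^ 2 := by exact_mod_cast hnlo
    linarith
  have hnR0 : (0 : ℝ) < n := by exact_mod_cast hn1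
  refine ⟨Bad ∪ Bd, ?_, ?_⟩
  · have e1 : ((Bad ∪ Bd).card : ℝ) ≤ (Bad.card : ℝ) + Bd.card := by exact_mod_cast card_union_le _ _
    have e2 : (X : ℝ) / L ^ (A + 1) ≤ X / L ^ A / 2 := by
      rw [div_div, pow_succ]
      apply div_le_div_of_nonneg_left hXR0.le (by positivity)
      gcongr
      linarith
    have e3 : 16 * (X : ℝ) / L ^ (A + 2) ≤ X / L ^ A / 2 := by
      rw [div_div, div_le_div_iff₀ (by positivity) (by positivity), pow_add]
      have : 32 ≤ L ^ 2 := by nlinarith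
      calc 16 * (X : ℝ) * (L ^ A * 2) = X * (L ^ A * 32) := by ring
        _ ≤ X * (L ^ A * L ^ 2) := by gcongr
    linarith
  · intro c hc hcB
    rw [mem_union, not_or] at hcB
    obtain ⟨h7, h8⟩ := h6 c hc hcB.1
    have hgood : GoodW a b (A + 1) (16 * X) c := by
      by_contra hcon
      apply hcB.2
      rw [hBd, mem_filter, mem_Icc]
      have := abs_le.1 hc
      push_cast
      refine ⟨⟨by linarith, by linarith⟩, ?_, hcon⟩
      exact Int.modEq_one
    obtain ⟨_, S, hS1, hS2⟩ := hgood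
    refine ⟨S, hS1, ?_⟩
    -- the comparison on (n, 2 n]
    have hTh : Th a b n (2 * n) c = ∑ m ∈ Icc 1 (2 * n), thp (Pool.Agent.R460.SB.fv (-a) (-b) c m).natAbs -
        ∑ m ∈ Icc 1 n, thp (Pool.Agent.R460.SB.fv (-a) (-b) c m).natAbs := by
      have e1 : ∑ m ∈ Icc 1 (2 * n), thp (Pool.Agent.R460.SB.fv (-a) (-b) c m).natAbs = ∑ m ∈ Icc 1 n, thp (Pool.Agent.R460.SB.fv (-a) (-b) c m).natAbs +
          ∑ m ∈ Ioc n (2 * n), thp (Pool.Agent.R460.SB.fv (-a) (-b) c m).natAbs := by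
        rw [← sum_union]
        · congr 1
          ext m
          simp only [mem_Icc, mem_union, mem_Ioc]
          omega
        · rw [disjoint_left]
          intro m hm hm'
          rw [mem_Icc] at hm
          rw [mem_Ioc] at hm'
          omega
      rw [e1, add_sub_cancel_left]
      unfold Th
      refine sum_nbij' (fun x : ℤ => x.toNat) (fun m : ℕ => (m : ℤ)) ?_ ?_ ?_ ?_ ?_
      · intro x hx
        rw [mem_Ioc] at hx ⊢
        omega
      · intro m hm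
        rw [mem_Ioc] at hm ⊢
        omega
      · intro x hx
        rw [mem_Ioc] at hx
        omega
      · intro m _
        omega
      · intro x hx
        rw [mem_Ioc] at hx
        have k1 : ((x.toNat : ℕ) : ℤ) = x := Int.toNat_of_nonneg (by omega)
        unfold Pool.Agent.R460.SB.fv
        rw [k1]
        have k2 := gq_mono ha hb (n := (n : ℤ)) (m := x) (by positivity) hx.1.le
        have k3 : (X : ℤ) ≤ gq a b (n : ℤ) + c := by
          unfold gq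
          have e1 : (2 : ℤ) * X ≤ (n : ℤ) ^ 2 := by exact_mod_cast hnlo
          have e2 : (n : ℤ) ^ 2 ≤ a * (n : ℤ) ^ 2 := by nlinarith [sq_nonneg (n : ℤ)]
          have e3 : 0 ≤ b * (n : ℤ) := by positivity
          have := abs_le.1 hc
          linarith
        have k4 : 0 ≤ gq a b x + c := by
          have : (0 : ℤ) ≤ X := by positivity
          linarith
        congr 1
        unfold gq at k4 ⊢
        have k5 : c - (-a * x ^ 2 + -b * x) = a * x ^ 2 + b * x + c := by ring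
        have k6 : a * x ^ 2 + b * x + c = a * x ^ 2 + b * x + c := rfl
        rw [k5]
        omega
    have s1 := hS2 (2 * n) hn2
    have s2 := hS2 n (by nlinarith [hn2])
    have hsY : Real.sqrt ((16 * X : ℕ) : ℝ) / Real.log ((16 * X : ℕ) : ℝ) ^ (A + 1) ≤ 4 * (n / L ^ (A + 1)) := by
      have e1 : Real.sqrt ((16 * X : ℕ) : ℝ) = 4 * Real.sqrt X := by
        push_cast
        rw [Real.sqrt_mul (by norm_num), show (16 : ℝ) = 4 ^ 2 by norm_num, Real.sqrt_sq (by norm_num)]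
      rw [e1]
      calc 4 * Real.sqrt X / Real.log ((16 * X : ℕ) : ℝ) ^ (A + 1) ≤ 4 * n / L ^ (A + 1) := by gcongr
        _ = 4 * (n / L ^ (A + 1)) := by ring
    have s3 : |Th a b n (2 * n) c - S * n| ≤ 8 * (n / L ^ (A + 1)) := by
      rw [hTh]
      push_cast at s1 s2
      have e1 : ∑ m ∈ Icc 1 (2 * n), thp (Pool.Agent.R460.SB.fv (-a) (-b) c m).natAbs -
        ∑ m ∈ Icc 1 n, thp (Pool.Agent.R460.SB.fv (-a) (-b) c m).natAbs - S * n =
        (∑ m ∈ Icc 1 (2 * n), thp (Pool.Agent.R460.SB.fv (-a) (-b) c m).natAbs - S * (2 * n)) -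
        (∑ m ∈ Icc 1 n, thp (Pool.Agent.R460.SB.fv (-a) (-b) c m).natAbs - S * n) := by ring
      rw [e1]
      refine (abs_sub _ _).trans ?_
      push_cast at hsY
      linarith
    have hnB : ((2 * n : ℕ) : ℝ) * L ^ B ≤ X := by
      push_cast
      have e1 : (n : ℝ) ≤ 3 * Real.sqrt X := by
        rw [Real.sqrt_mul (by norm_num)] at hnhi
        have e2 : Real.sqrt 2 ≤ 2 := by
          rw [Real.sqrt_le_left (by norm_num)]
          norm_num
        nlinarith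
      have e4 : 6 * L ^ B ≤ Real.sqrt X := by
        apply Real.le_sqrt_of_sq_le
        calc (6 * L ^ B) ^ 2 = 36 * L ^ (2 * B) := by ring
          _ ≤ X := by linarith [pow_pos hL0 (2 * B)]
      calc 2 * (n : ℝ) * L ^ B ≤ 2 * (3 * Real.sqrt X) * L ^ B := by gcongr
        _ = Real.sqrt X * (6 * L ^ B) := by ring
        _ ≤ Real.sqrt X * Real.sqrt X := by gcongr
        _ = X := Real.mul_self_sqrt (by linarith)
    have s4 := h8 (2 * n) (by omega) hnB
    have e5 : (((2 * n : ℕ) : ℤ) - (n : ℤ) : ℤ) = n := by push_cast; ring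
    rw [e5] at s4
    have s5 : ‖(S : ℂ) - SG c‖ ≤ 12 / L ^ (A + 1) := by
      have e1 : ((n : ℤ) : ℂ) * ((S : ℂ) - SG c) = ((Th a b n (2 * n) c : ℂ) - ((n : ℤ) : ℂ) * SG c) -
          ((Th a b n (2 * n) c - S * n : ℝ) : ℂ) := by
        push_cast
        ring
      have e2 : ‖((n : ℤ) : ℂ) * ((S : ℂ) - SG c)‖ ≤ 2 * ((2 * n : ℕ) / L ^ (A + 1)) + 8 * (n / L ^ (A + 1)) := by
        rw [e1]
        refine (norm_sub_le _ _).trans (add_le_add s4 ?_)
        rw [Complex.norm_real, Real.norm_eq_abs]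
        exact s3
      rw [norm_mul] at e2
      have e3 : ‖((n : ℤ) : ℂ)‖ = n := by
        push_cast
        exact Complex.norm_natCast n
      rw [e3] at e2
      push_cast at e2
      have e4 : 2 * (2 * (n : ℝ) / L ^ (A + 1)) + 8 * (n / L ^ (A + 1)) = n * (12 / L ^ (A + 1)) := by ring
      rw [e4] at e2
      exact le_of_mul_le_mul_left e2 hnR0
    have s6 : 12 / L ^ (A + 1) ≤ 1 := by
      rw [div_le_one (by positivity)]
      have : L ≤ L ^ (A + 1) := le_self_pow₀ hL1 (by omega)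
      linarith
    refine ⟨?_, ?_⟩
    · have e1 : |S| = ‖(S : ℂ)‖ := by rw [Complex.norm_real, Real.norm_eq_abs]
      have e2 : ‖(S : ℂ)‖ ≤ ‖(S : ℂ) - SG c‖ + ‖SG c‖ := by
        have := norm_add_le ((S : ℂ) - SG c) (SG c)
        rwa [sub_add_cancel] at this
      rw [e1]
      linarith
    · intro y hy1 hy2
      have k1 := h8 y hy1 hy2
      have hyR : (n : ℝ) ≤ y := by exact_mod_cast hy1
      have e1 : |Th a b n y c - S * ((y : ℝ) - n)| = ‖((Th a b n y c : ℂ) - ((y - n : ℤ) : ℂ) * SG c) -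
          (((y : ℝ) - n : ℝ) : ℂ) * ((S : ℂ) - SG c)‖ := by
        rw [← Real.norm_eq_abs, ← Complex.norm_real]
        congr 1
        push_cast
        ring
      rw [e1]
      refine (norm_sub_le _ _).trans ?_
      have e2 : ‖(((y : ℝ) - n : ℝ) : ℂ) * ((S : ℂ) - SG c)‖ ≤ y * (12 / L ^ (A + 1)) := by
        rw [norm_mul, Complex.norm_real, Real.norm_eq_abs, abs_of_nonneg (by linarith)]
        exact mul_le_mul (by linarith) s5 (norm_nonneg _) (by positivity)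
      have e3 : (y : ℝ) * (12 / L ^ (A + 1)) + 2 * (y / L ^ (A + 1)) = 14 * (y / L ^ (A + 1)) := by ring
      have e4 : 14 * ((y : ℝ) / L ^ (A + 1)) ≤ y / L ^ A := by
        rw [pow_succ]
        have : y / L ^ A = L * (y / (L ^ A * L)) := by
          field_simp
        rw [this]
        gcongr
        linarith
      linarith

end Pool.Agent.K9h10.LR
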