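import Mathlib
import Pool.Agent.K9h10.LR.C3

/-!
# The number of the primes, by partial summation, and all the polynomials with a given leading coefficient
-/

set_option autoImplicit false

namespace Pool.Agent.K9h10.LR

open Finset Filter Topology
open Pool.Agent.R460.SQ (thp)
open Pool.Agent.R460.SB (Sz)

open Classical in
/-- the number of the prime values -/
noncomputable def cz (a b c u v : ℤ) : ℝ := ∑ t ∈ Ioc u v, if (gq a b t + c).toNat.Prime then 1 else 0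

/-- the expected number without the constant -/
noncomputable def lz (a b c u v : ℤ) : ℝ :=
  ∑ t ∈ Ioc u v, if 2 ≤ gq a b t + c then 1 / Real.log ((gq a b t + c : ℤ) : ℝ) else 0

lemma cz_nn (a b c u v : ℤ) : 0 ≤ cz a b c u v := by
  unfold cz
  exact sum_nonneg fun t _ => by split_ifs <;> norm_num

lemma cz_le (a b c u v : ℤ) (h : u ≤ v) : cz a b c u v ≤ ((v - u : ℤ) : ℝ) := by
  unfold cz
  have h1 : ∀ t ∈ Ioc u v, (if (gq a b t + c).toNat.Prime then (1 : ℝ) else 0) ≤ 1 := by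
    intro t _
    split_ifs <;> norm_num
  refine (sum_le_card_nsmul _ _ _ h1).trans ?_
  rw [nsmul_eq_mul, mul_one, Int.card_Ioc]
  have : (((v - u).toNat : ℕ) : ℤ) = v - u := Int.toNat_of_nonneg (by omega)
  exact le_of_eq (by exact_mod_cast congrArg (fun z : ℤ => (z : ℝ)) this)

lemma log_two_le {x : ℤ} (hx : 2 ≤ x) : 1 / Real.log (x : ℝ) ≤ 3 / 2 := by
  have h1 : (2 : ℝ) ≤ x := by exact_mod_cast hx
  have h2 := Real.log_le_log (by norm_num) h1
  have h3 := Real.log_two_gt_d9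
  rw [div_le_div_iff₀ (by linarith) (by norm_num)]
  linarith

lemma lz_nn (a b c u v : ℤ) : 0 ≤ lz a b c u v := by
  unfold lz
  refine sum_nonneg fun t _ => ?_
  split_ifs with h
  · have h1 : (1 : ℝ) ≤ ((gq a b t + c : ℤ) : ℝ) := by
      have : (1 : ℤ) ≤ gq a b t + c := by omega
      exact_mod_cast this
    exact div_nonneg zero_le_one (Real.log_nonneg h1)
  · exact le_rfl

lemma lz_le (a b c u v : ℤ) (h : u ≤ v) : lz a b c u v ≤ 3 / 2 * ((v - u : ℤ) : ℝ) := by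
  unfold lz
  have h1 : ∀ t ∈ Ioc u v, (if 2 ≤ gq a b t + c then 1 / Real.log ((gq a b t + c : ℤ) : ℝ) else 0) ≤ 3 / 2 := by
    intro t _
    split_ifs with h2
    · exact log_two_le h2
    · norm_num
  refine (sum_le_card_nsmul _ _ _ h1).trans ?_
  rw [nsmul_eq_mul, Int.card_Ioc]
  have : (((v - u).toNat : ℕ) : ℤ) = v - u := Int.toNat_of_nonneg (by omega)
  apply le_of_eq
  rw [mul_comm]
  congr 1
  exact_mod_cast congrArg (fun z : ℤ => (z : ℝ)) this

lemma cz_add (a b c : ℤ) {u v w : ℤ} (h1 : u ≤ v) (h2 : v ≤ w) : cz a b c u w = cz a b c u v + cz a b c v w := by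
  unfold cz
  rw [← sum_union]
  · congr 1
    ext x
    simp only [mem_Ioc, mem_union]
    omega
  · rw [disjoint_left]
    intro x hx hx'
    rw [mem_Ioc] at hx hx'
    omega

lemma lz_add (a b c : ℤ) {u v w : ℤ} (h1 : u ≤ v) (h2 : v ≤ w) : lz a b c u w = lz a b c u v + lz a b c v w := by
  unfold lz
  rw [← sum_union]
  · congr 1
    ext x
    simp only [mem_Ioc, mem_union]
    omega
  · rw [disjoint_left]
    intro x hx hx'
    rw [mem_Ioc] at hx hx'
    omega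

/-- completing the square -/
lemma gq_shift (a b c k b0 c0 t : ℤ) (hb : b = b0 + 2 * a * k) (hc : c0 = c - a * k ^ 2 - b0 * k) :
    gq a b t + c = gq a b0 (t + k) + c0 := by
  unfold gq
  rw [hb, hc]
  ring

lemma cz_shift {a b c k b0 c0 : ℤ} (hb : b = b0 + 2 * a * k) (hc : c0 = c - a * k ^ 2 - b0 * k) (u v : ℤ) :
    cz a b c u v = cz a b0 c0 (u + k) (v + k) := by
  unfold cz
  refine sum_nbij' (fun t => t + k) (fun t => t - k) ?_ ?_ ?_ ?_ ?_
  · intro t ht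
    rw [mem_Ioc] at ht ⊢
    omega
  · intro t ht
    rw [mem_Ioc] at ht ⊢
    omega
  · intro t _
    ring
  · intro t _
    ring
  · intro t _
    rw [gq_shift a b c k b0 c0 t hb hc]

lemma lz_shift {a b c k b0 c0 : ℤ} (hb : b = b0 + 2 * a * k) (hc : c0 = c - a * k ^ 2 - b0 * k) (u v : ℤ) :
    lz a b c u v = lz a b0 c0 (u + k) (v + k) := by
  unfold lz
  refine sum_nbij' (fun t => t + k) (fun t => t - k) ?_ ?_ ?_ ?_ ?_
  · intro t ht
    rw [mem_Ioc] at ht ⊢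
    omega
  · intro t ht
    rw [mem_Ioc] at ht ⊢
    omega
  · intro t _
    ring
  · intro t _
    ring
  · intro t _
    rw [gq_shift a b c k b0 c0 t hb hc]

/-- partial summation -/
lemma unw {a b : ℤ} (ha : 0 < a) (hb : 0 ≤ b) {X n : ℕ} (hX : 3 ≤ X) (hn : 2 * X ≤ n ^ 2) (c : ℤ) (hc : |c| ≤ X)
    (S R : ℝ) (z : ℕ) (hz : n ≤ z) (h : ∀ y : ℕ, n ≤ y → y ≤ z → |Th a b n y c - S * ((y : ℝ) - n)| ≤ R) :
    |cz a b c n z - S * lz a b c n z| ≤ R := by
  classical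
  have hcZ := abs_le.1 hc
  have hval : ∀ t : ℤ, (n : ℤ) ≤ t → (X : ℤ) ≤ gq a b t + c := by
    intro t ht
    have k2 := gq_mono ha hb (n := (n : ℤ)) (m := t) (by positivity) ht
    have k3 : (X : ℤ) ≤ gq a b (n : ℤ) + c := by
      unfold gq
      have e1 : (2 : ℤ) * X ≤ (n : ℤ) ^ 2 := by exact_mod_cast hn
      have e2 : (n : ℤ) ^ 2 ≤ a * (n : ℤ) ^ 2 := by nlinarith [sq_nonneg (n : ℤ)]
      have e3 : 0 ≤ b * (n : ℤ) := by positivity
      linarith
    linarith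
  have hX3 : (3 : ℤ) ≤ X := by exact_mod_cast hX
  obtain ⟨w, hw⟩ : ∃ w : ℕ → ℝ, w = fun j : ℕ => 1 / Real.log ((gq a b ((n : ℤ) + 1 + j) + c : ℤ) : ℝ) := ⟨_, rfl⟩
  obtain ⟨ρ, hρ⟩ : ∃ ρ : ℕ → ℂ, ρ = fun j => ((Th a b n (n + j) c - S * j : ℝ) : ℂ) := ⟨_, rfl⟩
  obtain ⟨J, hJ⟩ : ∃ J, J = z - n := ⟨_, rfl⟩
  have hlog1 : ∀ j : ℕ, 1 ≤ Real.log ((gq a b ((n : ℤ) + 1 + j) + c : ℤ) : ℝ) := by
    intro j
    have g1 := hval ((n : ℤ) + 1 + j) (by omega)
    have g2 : (3 : ℝ) ≤ ((gq a b ((n : ℤ) + 1 + j) + c : ℤ) : ℝ) := by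
      have : (3 : ℤ) ≤ gq a b ((n : ℤ) + 1 + j) + c := by linarith
      exact_mod_cast this
    rw [Real.le_log_iff_exp_le (by linarith)]
    have := Real.exp_one_lt_d9
    linarith
  have hw1 : ∀ j, w (j + 1) ≤ w j := by
    intro j
    rw [hw]
    apply one_div_le_one_div_of_le (by linarith [hlog1 j])
    apply Real.log_le_log
    · have g1 := hval ((n : ℤ) + 1 + j) (by omega)
      have : (0 : ℤ) < gq a b ((n : ℤ) + 1 + j) + c := by linarith
      exact_mod_cast this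
    · have := gq_mono ha hb (n := (n : ℤ) + 1 + j) (m := (n : ℤ) + 1 + ((j + 1 : ℕ) : ℤ)) (by positivity)
        (by push_cast; linarith)
      have h2 : gq a b ((n : ℤ) + 1 + j) + c ≤ gq a b ((n : ℤ) + 1 + ((j + 1 : ℕ) : ℤ)) + c := by linarith
      exact_mod_cast h2
  have hw0 : ∀ j, 0 ≤ w j := by
    intro j
    rw [hw]
    have := hlog1 j
    simp only
    positivity
  have hρ0 : ρ 0 = 0 := by
    rw [hρ]
    simp only [add_zero, Nat.cast_zero, mul_zero, sub_zero]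
    have : Th a b n n c = 0 := by unfold Th; simp
    rw [this]
    simp
  have hρR : ∀ j ≤ J, ‖ρ j‖ ≤ R := by
    intro j hj
    have g1 := h (n + j) (by omega) (by omega)
    rw [hρ]
    rw [Complex.norm_real, Real.norm_eq_abs]
    push_cast at g1
    rw [add_sub_cancel_left] at g1
    exact g1
  have hab := abel_mono ρ w R hw1 J hρ0 hρR
  have hmain : ((cz a b c n z - S * lz a b c n z : ℝ) : ℂ) = ∑ j ∈ range J, (w j : ℂ) * (ρ (j + 1) - ρ j) := by
    have e0 : ∀ F : ℤ → ℝ, ∑ t ∈ Ioc (n : ℤ) z, F t = ∑ j ∈ range J, F ((n : ℤ) + 1 + j) := by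
      intro F
      have e1 := sum_Ico_range ((n : ℤ) + 1) J F
      rw [← e1]
      congr 1
      ext x
      rw [mem_Ioc, mem_Ico]
      omega
    unfold cz lz
    rw [e0, e0]
    push_cast
    rw [mul_sum, ← sum_sub_distrib]
    refine sum_congr rfl fun j _ => ?_
    have g1 := hval ((n : ℤ) + 1 + j) (by omega)
    have g2 : 2 ≤ gq a b ((n : ℤ) + 1 + j) + c := by linarith
    have e1 : ρ (j + 1) - ρ j = ((thp (gq a b ((n : ℤ) + 1 + j) + c).toNat - S : ℝ) : ℂ) := by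
      rw [hρ]
      simp only
      have e2 : Th a b n (n + (j + 1)) c = Th a b n (n + j) c + thp (gq a b ((n : ℤ) + 1 + j) + c).toNat := by
        rw [Th_add a b (by omega : n ≤ n + j) (by omega : n + j ≤ n + (j + 1)) c]
        congr 1
        unfold Th
        have e3 : Ioc (((n + j : ℕ)) : ℤ) ((n + (j + 1) : ℕ) : ℤ) = {(n : ℤ) + 1 + j} := by
          ext x
          rw [mem_Ioc, mem_singleton]
          push_cast
          omega
        rw [e3, sum_singleton]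
      rw [e2]
      push_cast
      ring
    rw [e1, if_pos g2]
    have hl := hlog1 j
    have e4 : ((w j : ℝ) : ℂ) = 1 / ((Real.log ((gq a b ((n : ℤ) + 1 + j) + c : ℤ) : ℝ) : ℝ) : ℂ) := by
      rw [hw]
      push_cast
      rfl
    rw [e4]
    have hl0 : Real.log ((gq a b ((n : ℤ) + 1 + j) + c : ℤ) : ℝ) ≠ 0 := by
      have : (0 : ℝ) < Real.log ((gq a b ((n : ℤ) + 1 + j) + c : ℤ) : ℝ) := by linarith
      exact this.ne'
    have hl' : ((Real.log ((gq a b ((n : ℤ) + 1 + j) + c : ℤ) : ℝ) : ℝ) : ℂ) ≠ 0 := Complex.ofReal_ne_zero.2 hl0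
    have e5 : (((gq a b ((n : ℤ) + 1 + j) + c).toNat : ℕ) : ℝ) = ((gq a b ((n : ℤ) + 1 + j) + c : ℤ) : ℝ) := by
      have : (((gq a b ((n : ℤ) + 1 + j) + c).toNat : ℕ) : ℤ) = gq a b ((n : ℤ) + 1 + j) + c :=
        Int.toNat_of_nonneg (by omega)
      exact_mod_cast congrArg (fun z : ℤ => (z : ℝ)) this
    unfold thp
    split_ifs with hp
    · rw [e5]
      push_cast
      push_cast at hl'
      field_simp
    · push_cast
      ring
  have hR0 : 0 ≤ R := (norm_nonneg _).trans (hρR 0 (Nat.zero_le _))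
  have e1 : |cz a b c n z - S * lz a b c n z| = ‖∑ j ∈ range J, (w j : ℂ) * (ρ (j + 1) - ρ j)‖ := by
    rw [← hmain, Complex.norm_real, Real.norm_eq_abs]
  rw [e1]
  have e2 : ‖(w J : ℂ) * ρ J‖ ≤ w J * R := by
    rw [norm_mul, Complex.norm_real, Real.norm_eq_abs, abs_of_nonneg (hw0 J)]
    exact mul_le_mul_of_nonneg_left (hρR J le_rfl) (hw0 J)
  have e3 := norm_add_le (∑ j ∈ range J, (w j : ℂ) * (ρ (j + 1) - ρ j) - (w J : ℂ) * ρ J) ((w J : ℂ) * ρ J)
  rw [sub_add_cancel] at e3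
  have e4 : w 0 ≤ 1 := by
    rw [hw]
    simp only
    have := hlog1 0
    rw [div_le_one (by linarith)]
    exact this
  have e5 : R * w 0 ≤ R := mul_le_of_le_one_right hR0 e4
  linarith

theorem C5 {a b : ℤ} (ha : 0 < a) (hb : 0 ≤ b) (A : ℕ) : ∃ B X₀ : ℕ, ∀ X : ℕ, X₀ ≤ X →
    ∃ Bad : Finset ℤ, (Bad.card : ℝ) ≤ X / Real.log X ^ A ∧ ∀ c : ℤ, |c| ≤ X → c ∉ Bad →
      ∃ S : ℝ, Tendsto (fun z : ℕ => Sz (-a) (-b) c z) atTop (𝓝 S) ∧ |S| ≤ 5 * Real.log X ∧
        ∀ z : ℕ, n0 X ≤ z → (z : ℝ) * Real.log X ^ B ≤ X →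
          |cz a b c (n0 X) z - S * lz a b c (n0 X) z| ≤ z / Real.log X ^ A := by
  obtain ⟨B, X1, h1⟩ := C4 ha hb A
  obtain ⟨X2, h2⟩ := ev_loglarge 1
  refine ⟨B, max X1 (max X2 3), fun X hX => ?_⟩
  obtain ⟨Bad, h3, h4⟩ := h1 X (by omega)
  have g2 := h2 X (by omega)
  refine ⟨Bad, h3, fun c hc hcB => ?_⟩
  obtain ⟨S, k1, k2, k3⟩ := h4 c hc hcB
  refine ⟨S, k1, k2, fun z hz1 hz2 => ?_⟩
  have hL0 : 0 < Real.log X := by linarith
  apply unw ha hb (X := X) (by omega) (n0_lo X) c hc S _ z hz1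
  intro y hy1 hy2
  have hyz : (y : ℝ) ≤ z := by exact_mod_cast hy2
  refine (k3 y hy1 ?_).trans ?_
  · refine le_trans ?_ hz2
    gcongr
  · gcongr

end Pool.Agent.K9h10.LR
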