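import Mathlib
import Pool.Agent.K9h10.LR.F1

/-!
# All the polynomials with a given leading coefficient, by the discriminant
-/

set_option autoImplicit false

namespace Pool.Agent.K9h10.LR

open Finset Filter Topology
open Pool.Agent.R460.SB (Sz)

lemma cz_diff (a b c : ℤ) {u v w : ℤ} (h1 : u ≤ w) (h2 : v ≤ w) : |cz a b c u w - cz a b c v w| ≤ |((u - v : ℤ) : ℝ)| := by
  rcases le_total u v with h | h
  · rw [cz_add a b c h h2, add_sub_cancel_right, abs_of_nonneg (cz_nn _ _ _ _ _)]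
    refine (cz_le a b c u v h).trans ?_
    have e : ((v - u : ℤ) : ℝ) = -((u - v : ℤ) : ℝ) := by push_cast; ring
    rw [e]
    exact neg_le_abs _
  · rw [cz_add a b c h h1, abs_sub_comm, add_sub_cancel_right, abs_of_nonneg (cz_nn _ _ _ _ _)]
    exact (cz_le a b c v u h).trans (le_abs_self _)

lemma lz_diff (a b c : ℤ) {u v w : ℤ} (h1 : u ≤ w) (h2 : v ≤ w) :
    |lz a b c u w - lz a b c v w| ≤ 3 / 2 * |((u - v : ℤ) : ℝ)| := by
  rcases le_total u v with h | h
  · rw [lz_add a b c h h2, add_sub_cancel_right, abs_of_nonneg (lz_nn _ _ _ _ _)]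
    refine (lz_le a b c u v h).trans ?_
    have e : ((v - u : ℤ) : ℝ) = -((u - v : ℤ) : ℝ) := by push_cast; ring
    rw [e]
    apply mul_le_mul_of_nonneg_left (neg_le_abs _) (by norm_num)
  · rw [lz_add a b c h h1, abs_sub_comm, add_sub_cancel_right, abs_of_nonneg (lz_nn _ _ _ _ _)]
    refine (lz_le a b c v u h).trans ?_
    apply mul_le_mul_of_nonneg_left (le_abs_self _) (by norm_num)

lemma ediv_abs {m b : ℤ} (hm : 0 < m) : |b / m| ≤ |b| := by
  have h1 := Int.ediv_mul_le b hm.ne'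
  have h2 := Int.lt_ediv_add_one_mul_self b hm
  obtain ⟨k, hk⟩ : ∃ k, k = b / m := ⟨_, rfl⟩
  rw [← hk] at h1 h2 ⊢
  rcases le_or_gt 0 b with hb | hb
  · have h3 : 0 ≤ k := by rw [hk]; exact Int.ediv_nonneg hb hm.le
    rw [abs_of_nonneg h3, abs_of_nonneg hb]
    nlinarith
  · have h3 : k < 0 := by
      by_contra hcon
      push Not at hcon
      nlinarith
    rw [abs_of_neg h3, abs_of_neg hb]
    have h4 : b ≤ k := by
      by_contra hcon
      push Not at hcon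
      have h5 : k + 1 ≤ b := by omega
      nlinarith
    linarith

theorem F2 {a : ℤ} (ha : 0 < a) (A C : ℕ) : ∃ B X₀ : ℕ, ∀ X : ℕ, X₀ ≤ X →
    ∃ ED : Finset ℤ, (ED.card : ℝ) ≤ X / Real.log X ^ A ∧
      ∀ b c : ℤ, |b ^ 2 - 4 * a * c| ≤ (X : ℤ) → b ^ 2 - 4 * a * c ∉ ED →
      ∃ S : ℝ, Tendsto (fun z : ℕ => Sz (-a) (-(b % (2 * a))) (c - a * (b / (2 * a)) ^ 2 - (b % (2 * a)) * (b / (2 * a)))
          z) atTop (𝓝 S) ∧
        ∀ y : ℕ, ((|b| : ℤ) + Real.sqrt X) * Real.log X ^ (C + 2) ≤ y → (y : ℝ) * Real.log X ^ B ≤ X →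
          |cz a b c 0 y - S * lz a b c 0 y| ≤ y / Real.log X ^ C := by
  classical
  have h0 := fun b0 : ℕ => C5 (a := a) (b := (b0 : ℤ)) ha (by positivity) (A + C + 3)
  choose Bf Xf h1 using h0
  obtain ⟨m, hm⟩ : ∃ m : ℕ, (m : ℤ) = 2 * a := by
    obtain ⟨m, hm⟩ := Int.eq_ofNat_of_zero_le (by positivity : (0 : ℤ) ≤ 2 * a)
    exact ⟨m, hm.symm⟩
  have haR : (0 : ℝ) < a := by exact_mod_cast ha
  have hmR : (m : ℝ) = 2 * a := by exact_mod_cast congrArg (fun z : ℤ => (z : ℝ)) hm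
  obtain ⟨X2, h2⟩ := ev_loglarge (100 + 2 * a)
  refine ⟨(range m).sup Bf + 1, max ((range m).sup Xf) (max X2 (100 + 4 * (a.toNat) ^ 2)), fun X hX => ?_⟩
  have hXf : ∀ b0 ∈ range m, Xf b0 ≤ X := by
    intro b0 hb0
    have := Finset.le_sup (f := Xf) hb0
    omega
  have g2 := h2 X (by omega)
  have g3 : 100 + 4 * (a.toNat) ^ 2 ≤ X := by omega
  have ha2 : 4 * a ^ 2 + 100 ≤ X := by
    have e1 : ((a.toNat : ℕ) : ℤ) = a := Int.toNat_of_nonneg ha.le
    have e2 : ((100 + 4 * (a.toNat) ^ 2 : ℕ) : ℤ) ≤ X := by exact_mod_cast g3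
    push_cast [e1] at e2
    linarith
  have hXR : (100 : ℝ) ≤ X := by exact_mod_cast (by omega : 100 ≤ X)
  have h3 : ∀ b0 ∈ range m, ∃ Bad : Finset ℤ, (Bad.card : ℝ) ≤ X / Real.log X ^ (A + C + 3) ∧
      ∀ c : ℤ, |c| ≤ X → c ∉ Bad →
      ∃ S : ℝ, Tendsto (fun z : ℕ => Sz (-a) (-(b0 : ℤ)) c z) atTop (𝓝 S) ∧ |S| ≤ 5 * Real.log X ∧
        ∀ z : ℕ, n0 X ≤ z → (z : ℝ) * Real.log X ^ Bf b0 ≤ X →
          |cz a b0 c (n0 X) z - S * lz a b0 c (n0 X) z| ≤ z / Real.log X ^ (A + C + 3) :=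
    fun b0 hb0 => h1 b0 X (hXf b0 hb0)
  choose! Bd hBd1 hBd2 using h3
  obtain ⟨L, hL⟩ : ∃ L, L = Real.log (X : ℝ) := ⟨_, rfl⟩
  rw [← hL] at g2
  simp only [← hL] at hBd1 hBd2 ⊢
  have hL1 : 1 ≤ L := by linarith
  have hL100 : 100 ≤ L := by linarith
  have hL0 : 0 < L := by linarith
  refine ⟨(range m).biUnion (fun b0 => (Bd b0).image (fun c0 => (b0 : ℤ) ^ 2 - 4 * a * c0)), ?_, ?_⟩
  · have e1 : ((((range m).biUnion (fun b0 => (Bd b0).image (fun c0 => (b0 : ℤ) ^ 2 - 4 * a * c0))).card : ℕ) : ℝ) ≤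
        ∑ _b0 ∈ range m, (X : ℝ) / L ^ (A + C + 3) := by
      have e2 : ((((range m).biUnion (fun b0 => (Bd b0).image (fun c0 => (b0 : ℤ) ^ 2 - 4 * a * c0))).card : ℕ) : ℝ) ≤
          ∑ b0 ∈ range m, (((Bd b0).image (fun c0 => (b0 : ℤ) ^ 2 - 4 * a * c0)).card : ℝ) := by
        exact_mod_cast card_biUnion_le
      refine e2.trans (sum_le_sum fun b0 hb0 => ?_)
      refine le_trans ?_ (hBd1 b0 hb0)
      exact_mod_cast card_image_le
    refine e1.trans ?_
    rw [sum_const, card_range, nsmul_eq_mul, hmR]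
    calc 2 * (a : ℝ) * (X / L ^ (A + C + 3)) ≤ L * (X / L ^ (A + C + 3)) := by
          gcongr
          linarith
      _ = X / L ^ (A + C + 2) := by
          rw [pow_succ L (A + C + 2)]
          field_simp
      _ ≤ X / L ^ A := by
          apply div_le_div_of_nonneg_left (by linarith) (by positivity)
          exact pow_le_pow_right₀ hL1 (by omega)
  · intro b c hD hDE
    obtain ⟨k, hk⟩ : ∃ k, k = b / (2 * a) := ⟨_, rfl⟩
    obtain ⟨b0, hb0⟩ : ∃ b0, b0 = b % (2 * a) := ⟨_, rfl⟩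
    obtain ⟨c0, hc0⟩ : ∃ c0, c0 = c - a * k ^ 2 - b0 * k := ⟨_, rfl⟩
    rw [← hk, ← hb0, ← hc0]
    have h2a : 0 < 2 * a := by linarith
    have hbk : b = b0 + 2 * a * k := by rw [hk, hb0]; exact (Int.emod_add_mul_ediv b (2 * a)).symm
    have hb00 : 0 ≤ b0 := by rw [hb0]; exact Int.emod_nonneg _ h2a.ne'
    have hb01 : b0 < 2 * a := by rw [hb0]; exact Int.emod_lt_of_pos _ h2a
    obtain ⟨β, hβ⟩ := Int.eq_ofNat_of_zero_le hb00
    have hβm : β ∈ range m := by
      rw [mem_range]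
      have : (β : ℤ) < m := by rw [hm, ← hβ]; exact hb01
      exact_mod_cast this
    have hDD : b ^ 2 - 4 * a * c = b0 ^ 2 - 4 * a * c0 := by rw [hc0, hbk]; ring
    have hc0X : |c0| ≤ (X : ℤ) := by
      have e1 : 4 * a * c0 = b0 ^ 2 - (b ^ 2 - 4 * a * c) := by rw [hDD]; ring
      have e2 := abs_le.1 hD
      have e3 : b0 ^ 2 ≤ 4 * a ^ 2 := by nlinarith
      have e4 : 0 ≤ b0 ^ 2 := sq_nonneg _
      rw [abs_le]
      constructor
      · by_contra hcon
        push Not at hcon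
        nlinarith
      · by_contra hcon
        push Not at hcon
        nlinarith
    have hc0B : c0 ∉ Bd β := by
      intro hcon
      apply hDE
      rw [mem_biUnion]
      refine ⟨β, hβm, ?_⟩
      rw [mem_image]
      refine ⟨c0, hcon, ?_⟩
      rw [hDD, hβ]
    obtain ⟨S, k1, k2, k3⟩ := hBd2 β hβm c0 hc0X hc0B
    have hβ' : (β : ℤ) = b0 := by rw [hβ]
    rw [hβ'] at k1 k3
    refine ⟨S, k1, fun y hy1 hy2 => ?_⟩
    rw [cz_shift hbk hc0 0 y, lz_shift hbk hc0 0 y, zero_add]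
    -- sizes
    obtain ⟨n, hn⟩ : ∃ n, n = n0 X := ⟨_, rfl⟩
    have hnhi : (n : ℝ) ≤ Real.sqrt (2 * X) + 1 := by rw [hn]; exact n0_hi X
    rw [← hn] at k3
    have hsX : 1 ≤ Real.sqrt X := by
      rw [Real.one_le_sqrt]
      linarith
    have hn3 : (n : ℝ) ≤ 3 * Real.sqrt X := by
      rw [Real.sqrt_mul (by norm_num)] at hnhi
      have e2 : Real.sqrt 2 ≤ 2 := by
        rw [Real.sqrt_le_left (by norm_num)]
        norm_num
      nlinarith
    have hkb : ((|k| : ℤ) : ℝ) ≤ ((|b| : ℤ) : ℝ) := by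
      have := ediv_abs (b := b) h2a
      rw [← hk] at this
      exact_mod_cast this
    obtain ⟨Q, hQ⟩ : ∃ Q : ℝ, Q = ((|b| : ℤ) : ℝ) + Real.sqrt X := ⟨_, rfl⟩
    rw [← hQ] at hy1
    have hb0R : (0 : ℝ) ≤ ((|b| : ℤ) : ℝ) := by exact_mod_cast abs_nonneg b
    have hQ1 : 1 ≤ Q := by rw [hQ]; linarith
    have hnk : (n : ℝ) + ((|k| : ℤ) : ℝ) ≤ 3 * Q := by rw [hQ]; linarith
    have hLC : L ≤ L ^ (C + 2) := le_self_pow₀ hL1 (by omega)
    have hy3 : 100 * Q ≤ y := by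
      calc 100 * Q ≤ L ^ (C + 2) * Q := by
            gcongr
            linarith
        _ = Q * L ^ (C + 2) := by ring
        _ ≤ y := hy1
    have hkabs : -((|k| : ℤ) : ℝ) ≤ (k : ℝ) ∧ (k : ℝ) ≤ ((|k| : ℤ) : ℝ) := by
      constructor
      · have : -|k| ≤ k := neg_abs_le k
        exact_mod_cast this
      · have : k ≤ |k| := le_abs_self k
        exact_mod_cast this
    have hn0R : (0 : ℝ) ≤ n := by positivity
    have hk0R : (0 : ℝ) ≤ ((|k| : ℤ) : ℝ) := by exact_mod_cast abs_nonneg k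
    have hyk0 : (n : ℝ) ≤ (y : ℝ) + k := by linarith
    have hyk0Z : (n : ℤ) ≤ (y : ℤ) + k := by
      have : (n : ℝ) ≤ (((y : ℤ) + k : ℤ) : ℝ) := by push_cast; exact hyk0
      exact_mod_cast this
    obtain ⟨z, hz⟩ := Int.eq_ofNat_of_zero_le (show 0 ≤ (y : ℤ) + k by
      have : (0 : ℤ) ≤ n := by positivity
      linarith)
    have hzR : (z : ℝ) = (y : ℝ) + k := by
      have : (((y : ℤ) + k : ℤ) : ℝ) = ((z : ℤ) : ℝ) := by rw [hz]
      push_cast at this
      linarith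
    have hz' : (y : ℤ) + k = (z : ℤ) := by rw [hz]
    have hz2 : (z : ℝ) ≤ 2 * y := by rw [hzR]; linarith
    have hnz : n ≤ z := by
      have : (n : ℤ) ≤ z := by rw [← hz']; exact hyk0Z
      exact_mod_cast this
    have hBf : Bf β ≤ (range m).sup Bf := Finset.le_sup hβm
    have hzB : (z : ℝ) * L ^ Bf β ≤ X := by
      refine le_trans ?_ hy2
      calc (z : ℝ) * L ^ Bf β ≤ (2 * y) * L ^ (range m).sup Bf := by
            gcongr
        _ ≤ (L * y) * L ^ (range m).sup Bf := by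
            gcongr
            linarith
        _ = y * L ^ ((range m).sup Bf + 1) := by ring
    have hmain := k3 z hnz hzB
    rw [← hz'] at hmain
    have hkw : k ≤ (y : ℤ) + k := by
      have : (0 : ℤ) ≤ y := by positivity
      linarith
    have d1 := cz_diff a b0 c0 hkw hyk0Z
    have d2 := lz_diff a b0 c0 hkw hyk0Z
    have d3 : |((k - n : ℤ) : ℝ)| ≤ 3 * Q := by
      push_cast
      rw [abs_le]
      constructor <;> linarith
    have e1 : cz a b0 c0 k (y + k) - S * lz a b0 c0 k (y + k) =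
        (cz a b0 c0 n (y + k) - S * lz a b0 c0 n (y + k)) + (cz a b0 c0 k (y + k) - cz a b0 c0 n (y + k)) -
          S * (lz a b0 c0 k (y + k) - lz a b0 c0 n (y + k)) := by ring
    rw [e1]
    refine (abs_sub _ _).trans ?_
    have e2 := abs_add_le (cz a b0 c0 n (y + k) - S * lz a b0 c0 n (y + k))
      (cz a b0 c0 k (y + k) - cz a b0 c0 n (y + k))
    have e3 : |S * (lz a b0 c0 k (y + k) - lz a b0 c0 n (y + k))| ≤ 5 * L * (3 / 2 * (3 * Q)) := by
      rw [abs_mul]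
      apply mul_le_mul k2 _ (abs_nonneg _) (by positivity)
      refine d2.trans ?_
      gcongr
    have e4 : (z : ℝ) / L ^ (A + C + 3) ≤ y / L ^ C / 2 := by
      calc (z : ℝ) / L ^ (A + C + 3) ≤ (2 * y) / L ^ (C + 1) := by
            gcongr
            · exact Nat.le_add_left C A
            · norm_num
        _ ≤ y / L ^ C / 2 := by
            rw [div_div, div_le_div_iff₀ (by positivity) (by positivity), pow_succ]
            calc 2 * (y : ℝ) * (L ^ C * 2) = y * (L ^ C * 4) := by ring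
              _ ≤ y * (L ^ C * L) := by
                  gcongr
                  linarith
    have e5 : 3 * Q + 5 * L * (3 / 2 * (3 * Q)) ≤ y / L ^ C / 2 := by
      have e6 : 3 * Q + 5 * L * (3 / 2 * (3 * Q)) ≤ 30 * L * Q := by nlinarith
      refine e6.trans ?_
      rw [div_div, le_div_iff₀ (by positivity)]
      calc 30 * L * Q * (L ^ C * 2) = 60 * (Q * L ^ (C + 1)) := by ring
        _ ≤ L * (Q * L ^ (C + 1)) := by
            gcongr
            linarith
        _ = Q * L ^ (C + 2) := by ring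
        _ ≤ y := hy1
    linarith

end Pool.Agent.K9h10.LR
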