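import Mathlib
import Pool.Agent.K9h10.LR.F2

/-!
# The pairs `(b, c)` in a square
-/

set_option autoImplicit false

namespace Pool.Agent.K9h10.LR

open Finset Filter Topology
open Pool.Agent.R460.SB (Sz)

/-- the pairs in the square whose discriminants lie in a given set -/
noncomputable def PD (a : ℤ) (H : ℕ) (ED : Finset ℤ) : Finset (ℤ × ℤ) :=
  (Icc (-(H : ℤ)) H ×ˢ Icc (-(H : ℤ)) H).filter (fun p => p.1 ^ 2 - 4 * a * p.2 ∈ ED)

lemma fib_card {a : ℤ} (ha : 0 < a) {H M : ℕ} (hM : 0 < M) (F : Finset (ℤ × ℤ)) (D : ℤ)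
    (hF : ∀ p ∈ F, p.1 ^ 2 - 4 * a * p.2 = D ∧ |p.2| ≤ (H : ℤ) ∧ (H : ℤ) < M * p.1) :
    (F.card : ℝ) ≤ 4 * a * M + 1 := by
  have ha' : (0 : ℝ) < a := by exact_mod_cast ha
  have hinj : Set.InjOn Prod.fst (F : Set (ℤ × ℤ)) := by
    rintro ⟨b, c⟩ h1 ⟨b', c'⟩ h2 h
    have g1 := (hF _ h1).1
    have g2 := (hF _ h2).1
    simp only at g1 g2 h
    subst h
    have h3 : 4 * a * c = 4 * a * c' := by linarith
    have h4 : c = c' := mul_left_cancel₀ (by positivity : (4 * a : ℤ) ≠ 0) h3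
    rw [h4]
  rw [← card_image_of_injOn hinj]
  apply card_le_diam _ _ (by positivity)
  intro x hx y hy
  rw [mem_image] at hx hy
  obtain ⟨⟨b, c⟩, h1, rfl⟩ := hx
  obtain ⟨⟨b', c'⟩, h2, rfl⟩ := hy
  obtain ⟨g1, g2, g3⟩ := hF _ h1
  obtain ⟨k1, k2, k3⟩ := hF _ h2
  simp only at g1 g2 g3 k1 k2 k3 ⊢
  have e1 : b' - b ≤ 4 * a * M := by
    by_contra hcon
    push Not at hcon
    have g4 := abs_le.1 g2
    have k4 := abs_le.1 k2
    have hM0 : (0 : ℤ) < M := by exact_mod_cast hM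
    have hH0 : (0 : ℤ) ≤ H := by positivity
    have hb0 : 0 < b := by
      by_contra hc
      push Not at hc
      nlinarith
    have hb0' : 0 < b' := by
      by_contra hc
      push Not at hc
      nlinarith
    have e2 : (b' - b) * (b' + b) = 4 * a * (c' - c) := by linarith
    have e3 : (b' - b) * (b' + b) ≤ 8 * a * H := by
      rw [e2]
      have : c' - c ≤ 2 * H := by linarith
      nlinarith
    have e4 : 4 * a * M * (b' + b) < (b' - b) * (b' + b) := by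
      apply mul_lt_mul_of_pos_right hcon (by linarith)
    have e5 : 2 * (H : ℤ) < M * (b' + b) := by linarith
    have e6 : 4 * a * (2 * (H : ℤ)) < 4 * a * (M * (b' + b)) := by
      apply mul_lt_mul_of_pos_left e5 (by positivity)
    have e7 : 4 * a * M * (b' + b) = 4 * a * (M * (b' + b)) := by ring
    linarith
  exact_mod_cast e1

lemma PD_card {a : ℤ} (ha : 0 < a) {H M : ℕ} (hM : 0 < M) (ED : Finset ℤ) :
    ((PD a H ED).card : ℝ) ≤ (2 * H / M + 1) * (2 * H + 1) + ED.card * (2 * (4 * a * M + 1)) := by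
  classical
  have hM0 : (0 : ℝ) < M := by exact_mod_cast hM
  have hM0Z : (0 : ℤ) < M := by exact_mod_cast hM
  obtain ⟨P1, hP1⟩ : ∃ P1, P1 = ((Icc (-(H : ℤ)) H).filter (fun b => M * |b| ≤ (H : ℤ))) ×ˢ Icc (-(H : ℤ)) H := ⟨_, rfl⟩
  obtain ⟨P2, hP2⟩ : ∃ P2, P2 = (PD a H ED).filter (fun p => (H : ℤ) < M * p.1) := ⟨_, rfl⟩
  obtain ⟨P3, hP3⟩ : ∃ P3, P3 = (PD a H ED).filter (fun p => (H : ℤ) < M * (-p.1)) := ⟨_, rfl⟩
  have hsub : PD a H ED ⊆ P1 ∪ (P2 ∪ P3) := by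
    rintro ⟨b, c⟩ hp
    have hp' := hp
    unfold PD at hp'
    rw [mem_filter, mem_product] at hp'
    rw [mem_union, mem_union, hP1, hP2, hP3, mem_product, mem_filter, mem_filter, mem_filter]
    simp only at hp' ⊢
    rcases le_or_gt (M * |b|) (H : ℤ) with h | h
    · exact Or.inl ⟨⟨hp'.1.1, h⟩, hp'.1.2⟩
    · right
      rcases le_total 0 b with h2 | h2
      · rw [abs_of_nonneg h2] at h
        exact Or.inl ⟨hp, h⟩
      · rw [abs_of_nonpos h2] at h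
        exact Or.inr ⟨hp, h⟩
  have c1 : (P1.card : ℝ) ≤ (2 * H / M + 1) * (2 * H + 1) := by
    rw [hP1, card_product]
    push_cast
    have e1 : ((((Icc (-(H : ℤ)) H).filter (fun b => M * |b| ≤ (H : ℤ))).card : ℕ) : ℝ) ≤ 2 * H / M + 1 := by
      apply card_le_diam _ _ (by positivity)
      intro x hx y hy
      rw [mem_filter] at hx hy
      rw [le_div_iff₀ hM0]
      have h1 := neg_abs_le x
      have h2 := le_abs_self y
      have h3 : (y - x) * M ≤ 2 * H := by nlinarith [hx.2, hy.2]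
      exact_mod_cast h3
    have e2 : (((Icc (-(H : ℤ)) H).card : ℕ) : ℝ) = 2 * H + 1 := by
      rw [Int.card_Icc]
      have : ((((H : ℤ) + 1 - -(H : ℤ)).toNat : ℕ) : ℤ) = 2 * H + 1 := by omega
      exact_mod_cast congrArg (fun z : ℤ => (z : ℝ)) this
    rw [e2]
    gcongr
  have c2 : (P2.card : ℝ) ≤ ED.card * (4 * a * M + 1) := by
    have hmap : ∀ p ∈ P2, p.1 ^ 2 - 4 * a * p.2 ∈ ED := by
      intro p hp
      rw [hP2, mem_filter] at hp
      unfold PD at hp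
      rw [mem_filter] at hp
      exact hp.1.2
    rw [card_eq_sum_card_fiberwise hmap]
    push_cast
    have : ∀ D ∈ ED, (((P2.filter (fun p => p.1 ^ 2 - 4 * a * p.2 = D)).card : ℕ) : ℝ) ≤ 4 * a * M + 1 := by
      intro D _
      apply fib_card (H := H) ha hM _ D
      intro p hp
      rw [mem_filter, hP2, mem_filter] at hp
      have h1 := hp.1.1
      unfold PD at h1
      rw [mem_filter, mem_product, mem_Icc, mem_Icc] at h1
      exact ⟨hp.2, abs_le.2 h1.1.2, hp.1.2⟩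
    refine (sum_le_card_nsmul _ _ _ this).trans ?_
    rw [nsmul_eq_mul]
  have c3 : (P3.card : ℝ) ≤ ED.card * (4 * a * M + 1) := by
    have hmap : ∀ p ∈ P3, p.1 ^ 2 - 4 * a * p.2 ∈ ED := by
      intro p hp
      rw [hP3, mem_filter] at hp
      unfold PD at hp
      rw [mem_filter] at hp
      exact hp.1.2
    rw [card_eq_sum_card_fiberwise hmap]
    push_cast
    have : ∀ D ∈ ED, (((P3.filter (fun p => p.1 ^ 2 - 4 * a * p.2 = D)).card : ℕ) : ℝ) ≤ 4 * a * M + 1 := by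
      intro D _
      have hinj : Set.InjOn (fun p : ℤ × ℤ => (-p.1, p.2)) ((P3.filter (fun p => p.1 ^ 2 - 4 * a * p.2 = D) :
          Finset (ℤ × ℤ)) : Set (ℤ × ℤ)) := by
        rintro ⟨b, c⟩ _ ⟨b', c'⟩ _ h
        simp only [Prod.mk.injEq, neg_inj] at h
        rw [h.1, h.2]
      rw [← card_image_of_injOn hinj]
      apply fib_card (H := H) ha hM _ D
      intro p hp
      rw [mem_image] at hp
      obtain ⟨p', hp', rfl⟩ := hp
      rw [mem_filter, hP3, mem_filter] at hp'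
      have h1 := hp'.1.1
      unfold PD at h1
      rw [mem_filter, mem_product, mem_Icc, mem_Icc] at h1
      refine ⟨?_, abs_le.2 h1.1.2, hp'.1.2⟩
      simp only
      rw [neg_sq]
      exact hp'.2
    refine (sum_le_card_nsmul _ _ _ this).trans ?_
    rw [nsmul_eq_mul]
  have c4 : ((PD a H ED).card : ℝ) ≤ P1.card + (P2.card + P3.card) := by
    have e1 := card_le_card hsub
    have e2 := card_union_le P1 (P2 ∪ P3)
    have e3 := card_union_le P2 P3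
    exact_mod_cast e1.trans (e2.trans (by omega))
  linarith

theorem F3 {a : ℤ} (ha : 0 < a) (A C : ℕ) : ∃ B H₀ : ℕ, ∀ H : ℕ, H₀ ≤ H →
    ∃ EP : Finset (ℤ × ℤ), (EP.card : ℝ) ≤ (H : ℝ) ^ 2 / Real.log H ^ A ∧
      ∀ b c : ℤ, |b| ≤ (H : ℤ) → |c| ≤ (H : ℤ) → (b, c) ∉ EP →
      ∃ S : ℝ, Tendsto (fun z : ℕ => Sz (-a) (-(b % (2 * a))) (c - a * (b / (2 * a)) ^ 2 - (b % (2 * a)) * (b / (2 * a)))
          z) atTop (𝓝 S) ∧
        ∀ y : ℕ, H * Real.log H ^ (C + 3) ≤ y → (y : ℝ) * Real.log H ^ B ≤ (H : ℝ) ^ 2 →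
          |cz a b c 0 y - S * lz a b c 0 y| ≤ y / Real.log H ^ C := by
  classical
  obtain ⟨B, X1, h1⟩ := F2 ha (2 * A + 3) C
  have ha1 : (1 : ℝ) ≤ a := by exact_mod_cast (by omega : 1 ≤ a)
  have ha0 : (0 : ℝ) < a := by linarith
  obtain ⟨X2, h2⟩ := ev_loglarge (1000 * a ^ 2 * 3 ^ (B + C + 3))
  obtain ⟨X3, h3⟩ := ev_logpow (A + 1) 100
  obtain ⟨m, hm⟩ : ∃ m : ℕ, (m : ℤ) = 1 + 4 * a := by
    obtain ⟨m, hm⟩ := Int.eq_ofNat_of_zero_le (by linarith : (0 : ℤ) ≤ 1 + 4 * a)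
    exact ⟨m, hm.symm⟩
  have hmR : (m : ℝ) = 1 + 4 * a := by exact_mod_cast congrArg (fun z : ℤ => (z : ℝ)) hm
  have hm1 : 1 ≤ m := by omega
  refine ⟨B + 1, max (max X1 X2) (max X3 (m + 1)), fun H hH => ?_⟩
  have g2 := h2 H (by omega)
  have g3 := h3 H (by omega)
  have hHm : m + 1 ≤ H := by omega
  have hH1 : X1 ≤ H := by omega
  have hH0 : 1 ≤ H := by omega
  have hHR : (1 : ℝ) ≤ H := by exact_mod_cast hH0
  have hHR0 : (0 : ℝ) < H := by linarith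
  obtain ⟨X, hX⟩ : ∃ X : ℕ, X = m * H ^ 2 := ⟨_, rfl⟩
  have hXH : H ≤ X := by
    rw [hX]
    calc H = 1 * H ^ 1 := by ring
      _ ≤ m * H ^ 2 := Nat.mul_le_mul hm1 (Nat.pow_le_pow_right (by omega) (by norm_num))
  obtain ⟨ED, k1, k2⟩ := h1 X (by omega)
  have hXR : (X : ℝ) = (1 + 4 * a) * H ^ 2 := by rw [hX]; push_cast; rw [hmR]
  obtain ⟨ℓ, hℓ⟩ : ∃ ℓ, ℓ = Real.log (H : ℝ) := ⟨_, rfl⟩
  obtain ⟨L, hL⟩ : ∃ L, L = Real.log (X : ℝ) := ⟨_, rfl⟩
  rw [← hℓ] at g2 g3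
  rw [← hL] at k1
  simp only [← hL] at k2
  simp only [← hℓ]
  have h3p : (1 : ℝ) ≤ 3 ^ (B + C + 3) := one_le_pow₀ (by norm_num)
  have ha2 : (1 : ℝ) ≤ (a : ℝ) ^ 2 := one_le_pow₀ ha1
  have hℓ1000 : 1000 * (a : ℝ) ^ 2 ≤ ℓ := by
    refine le_trans ?_ g2
    have : (1000 * (a : ℝ) ^ 2) * 1 ≤ 1000 * a ^ 2 * 3 ^ (B + C + 3) := by gcongr
    linarith
  have hℓ0' : (1000 : ℝ) ≤ ℓ := by nlinarith
  have hℓ1 : 1 ≤ ℓ := by linarith
  have hℓ0 : 0 < ℓ := by linarith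
  have hLℓ : ℓ ≤ L := by
    rw [hℓ, hL]
    exact Real.log_le_log hHR0 (by exact_mod_cast hXH)
  have hL3 : L ≤ 3 * ℓ := by
    have e1 : (X : ℝ) ≤ (H : ℝ) ^ 3 := by
      rw [hX]
      push_cast
      have : (m : ℝ) ≤ H := by exact_mod_cast (by omega : m ≤ H)
      calc (m : ℝ) * (H : ℝ) ^ 2 ≤ H * (H : ℝ) ^ 2 := by gcongr
        _ = (H : ℝ) ^ 3 := by ring
    have hX0 : (0 : ℝ) < X := by
      have : (H : ℝ) ≤ X := by exact_mod_cast hXH
      linarith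
    have e2 := Real.log_le_log hX0 e1
    rw [Real.log_pow] at e2
    rw [hL, hℓ]
    exact_mod_cast e2
  have hL0 : 0 < L := by linarith
  have hL1 : 1 ≤ L := by linarith
  obtain ⟨M, hM⟩ : ∃ M : ℕ, M = ⌈ℓ ^ (A + 1)⌉₊ := ⟨_, rfl⟩
  have hp1 : 1 ≤ ℓ ^ (A + 1) := one_le_pow₀ hℓ1
  have hMlo : ℓ ^ (A + 1) ≤ M := by rw [hM]; exact Nat.le_ceil _
  have hMhi : (M : ℝ) ≤ 2 * ℓ ^ (A + 1) := by
    have := Nat.ceil_lt_add_one (show 0 ≤ ℓ ^ (A + 1) by positivity)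
    rw [← hM] at this
    linarith
  have hM0 : 0 < M := by
    have : (0 : ℝ) < M := by linarith
    exact_mod_cast this
  have hM0R : (0 : ℝ) < M := by exact_mod_cast hM0
  refine ⟨PD a H ED, ?_, ?_⟩
  · refine (PD_card (M := M) ha hM0 ED).trans ?_
    have e1 : (2 * (H : ℝ) / M + 1) * (2 * H + 1) ≤ 9 * (H ^ 2 / ℓ ^ (A + 1)) := by
      have f1 : 2 * (H : ℝ) / M ≤ 2 * (H / ℓ ^ (A + 1)) := by
        rw [mul_div_assoc]
        gcongr
      have f2 : 1 ≤ (H : ℝ) / ℓ ^ (A + 1) := by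
        rw [le_div_iff₀ (by positivity)]
        linarith
      calc (2 * (H : ℝ) / M + 1) * (2 * H + 1) ≤ (3 * (H / ℓ ^ (A + 1))) * (3 * H) := by
            gcongr
            · linarith
            · linarith
        _ = 9 * (H ^ 2 / ℓ ^ (A + 1)) := by ring
    have e2 : (ED.card : ℝ) * (2 * (4 * a * M + 1)) ≤ 90 * a ^ 2 * (H ^ 2 / ℓ ^ (A + 1)) * (1 / ℓ) := by
      have f1 : (ED.card : ℝ) ≤ 5 * a * H ^ 2 / ℓ ^ (2 * A + 3) := by
        refine k1.trans ?_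
        rw [hXR]
        have : (1 + 4 * (a : ℝ)) * H ^ 2 ≤ 5 * a * H ^ 2 := by
          gcongr
          linarith
        gcongr
      have f2 : 2 * (4 * (a : ℝ) * M + 1) ≤ 18 * a * ℓ ^ (A + 1) := by
        have : (1 : ℝ) ≤ a * ℓ ^ (A + 1) := by nlinarith
        have : 4 * (a : ℝ) * M ≤ 4 * a * (2 * ℓ ^ (A + 1)) := by gcongr
        linarith
      calc (ED.card : ℝ) * (2 * (4 * a * M + 1)) ≤ (5 * a * H ^ 2 / ℓ ^ (2 * A + 3)) * (18 * a * ℓ ^ (A + 1)) := by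
            gcongr
        _ = 90 * a ^ 2 * (H ^ 2 / ℓ ^ (A + 1)) * (1 / ℓ) := by
            have : ℓ ^ (2 * A + 3) = ℓ ^ (A + 1) * ℓ ^ (A + 1) * ℓ := by ring
            rw [this]
            field_simp
            ring
    have e3 : (H : ℝ) ^ 2 / ℓ ^ A = (H ^ 2 / ℓ ^ (A + 1)) * ℓ := by
      rw [pow_succ ℓ A]
      field_simp
    rw [e3]
    have e4 : 0 ≤ (H : ℝ) ^ 2 / ℓ ^ (A + 1) := by positivity
    have e5 : 90 * (a : ℝ) ^ 2 * (H ^ 2 / ℓ ^ (A + 1)) * (1 / ℓ) ≤ H ^ 2 / ℓ ^ (A + 1) := by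
      rw [mul_one_div, div_le_iff₀ hℓ0]
      nlinarith
    nlinarith
  · intro b c hb hc hbc
    have hD : |b ^ 2 - 4 * a * c| ≤ (X : ℤ) := by
      have hXZ : (X : ℤ) = (1 + 4 * a) * H ^ 2 := by rw [hX]; push_cast; rw [hm]
      have e1 := abs_le.1 hb
      have e2 := abs_le.1 hc
      have e3 : b ^ 2 ≤ (H : ℤ) ^ 2 := by nlinarith
      have e4 : 0 ≤ b ^ 2 := sq_nonneg b
      have e5 : (H : ℤ) ≤ (H : ℤ) ^ 2 := by
        have : (1 : ℤ) ≤ H := by exact_mod_cast hH0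
        nlinarith
      have e6 : 4 * a * c ≤ 4 * a * (H : ℤ) ^ 2 := by
        apply mul_le_mul_of_nonneg_left _ (by linarith)
        linarith
      have e7 : 4 * a * (-(H : ℤ) ^ 2) ≤ 4 * a * c := by
        apply mul_le_mul_of_nonneg_left _ (by linarith)
        linarith
      rw [hXZ, abs_le]
      constructor
      · nlinarith
      · nlinarith
    have hDE : b ^ 2 - 4 * a * c ∉ ED := by
      intro hcon
      apply hbc
      unfold PD
      rw [mem_filter, mem_product, mem_Icc, mem_Icc]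
      exact ⟨⟨abs_le.1 hb, abs_le.1 hc⟩, hcon⟩
    obtain ⟨S, s1, s2⟩ := k2 b c hD hDE
    refine ⟨S, s1, fun y hy1 hy2 => ?_⟩
    have hbR : ((|b| : ℤ) : ℝ) ≤ H := by exact_mod_cast hb
    have hy0 : (0 : ℝ) ≤ y := by positivity
    refine (s2 y ?_ ?_).trans ?_
    · have f1 : Real.sqrt X ≤ 3 * a * H := by
        rw [Real.sqrt_le_left (by positivity), hXR]
        nlinarith [sq_nonneg ((a : ℝ) * H), mul_pos ha0 hHR0, sq_nonneg (H : ℝ), mul_nonneg (sub_nonneg.2 ha1) (sq_nonneg (H : ℝ)),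
          mul_nonneg (mul_nonneg (sub_nonneg.2 ha1) ha0.le) (sq_nonneg (H : ℝ))]
      have f2 : L ^ (C + 2) ≤ 3 ^ (C + 2) * ℓ ^ (C + 2) := by
        rw [← mul_pow]
        gcongr
      calc (((|b| : ℤ) : ℝ) + Real.sqrt X) * L ^ (C + 2) ≤ (H + 3 * a * H) * (3 ^ (C + 2) * ℓ ^ (C + 2)) := by
            gcongr
        _ ≤ (4 * a * H) * (3 ^ (C + 2) * ℓ ^ (C + 2)) := by
            gcongr
            nlinarith
        _ = H * ((4 * a * 3 ^ (C + 2)) * ℓ ^ (C + 2)) := by ring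
        _ ≤ H * (ℓ * ℓ ^ (C + 2)) := by
            gcongr
            refine le_trans ?_ g2
            have q1 : (3 : ℝ) ^ (C + 2) ≤ 3 ^ (B + C + 3) := pow_le_pow_right₀ (by norm_num) (by omega)
            have q2 : 4 * (a : ℝ) ≤ 1000 * a ^ 2 := by nlinarith
            gcongr
        _ = H * ℓ ^ (C + 3) := by ring
        _ ≤ y := hy1
    · calc (y : ℝ) * L ^ B ≤ y * (3 * ℓ) ^ B := by gcongr
        _ = y * (3 ^ B * ℓ ^ B) := by rw [mul_pow]
        _ ≤ y * (ℓ * ℓ ^ B) := by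
            gcongr
            refine le_trans ?_ g2
            have q1 : (3 : ℝ) ^ B ≤ 3 ^ (B + C + 3) := pow_le_pow_right₀ (by norm_num) (by omega)
            nlinarith
        _ = y * ℓ ^ (B + 1) := by ring
        _ ≤ (H : ℝ) ^ 2 := hy2
        _ ≤ X := by
            rw [hXR]
            nlinarith [sq_nonneg (H : ℝ)]
    · gcongr

end Pool.Agent.K9h10.LR
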